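import Pool.Agent.TH992.L.Fast

/-!
Infinitely often the path is fast.
-/

set_option autoImplicit false

namespace TH992.L

open H974 Finset H342P H984P H984H MeasureTheory Filter Topology TH992.T

/-- the number of vertices with two arms near the origin -/
noncomputable def Xn (a : ℕ) (F : Finset Edg) : ℝ :=
  ∑ q ∈ range 5 ×ˢ range 2,
    Nb (xs (bx (4 * a))) a (-(2 * (a : ℤ)) + q.1 * a) (0 + q.2 * a) F

theorem xn_tail {C : ℝ} (hC : 0 < C) (hU : TwoUp C (1/4)) : ∃ l : ℝ, 0 < l ∧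
    ∀ (a : ℕ) (u : ℝ), 1 ≤ a → 0 ≤ u →
      perc.real {ω | 10 * u * (a : ℝ) ^ (7/4 : ℝ) ≤ Xn a (cut ω (4 * a))} ≤
        90 * Real.exp (-(u / l) ^ (8 : ℕ)) := by
  obtain ⟨l, hl, h⟩ := tail1 (a := 1/4) (C0 := CC C) (by norm_num) (by norm_num) 4
    (by unfold CC; positivity)
  refine ⟨l, hl, fun a u ha hu => ?_⟩
  have ha0 : (0 : ℝ) < a := by exact_mod_cast ha
  have hpos : 0 < (a : ℝ) ^ (7/4 : ℝ) := Real.rpow_pos_of_pos ha0 _
  rw [perc_cut (4 * a) (fun F => 10 * u * (a : ℝ) ^ (7/4 : ℝ) ≤ Xn a F)]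
  obtain ⟨D, hD⟩ : ∃ D : Dm, D = bx (4 * a) := ⟨_, rfl⟩
  have hf := xs_fam hC hU D
  rw [← hD]
  obtain ⟨G, hG⟩ : ∃ G : Finset (ℕ × ℕ), G = range 5 ×ˢ range 2 := ⟨_, rfl⟩
  have hGc : G.card = 10 := by rw [hG, card_product, card_range, card_range]
  have h1 : P D.edges (fun F => 10 * u * (a : ℝ) ^ (7/4 : ℝ) ≤ Xn a F) ≤
      P D.edges (fun F => ∃ q ∈ G, u ≤ Yb (1/4) (xs D) a (-(2 * (a : ℤ)) + q.1 * a) (0 + q.2 * a) F) := by
    refine Pr_mono two_ok fun F _ hF => ?_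
    by_contra hcon
    push Not at hcon
    have h2 : Xn a F < 10 * u * (a : ℝ) ^ (7/4 : ℝ) := by
      unfold Xn
      rw [← hD, ← hG]
      have h3 : ∑ q ∈ G, Nb (xs D) a (-(2 * (a : ℤ)) + q.1 * a) (0 + q.2 * a) F <
          ∑ q ∈ G, u * (a : ℝ) ^ (7/4 : ℝ) := by
        refine sum_lt_sum_of_nonempty (card_pos.mp (by omega)) fun q hq => ?_
        have h4 := hcon q hq
        unfold Yb at h4
        have e2 : (2 - 1/4 : ℝ) = 7/4 := by norm_num
        rw [e2, div_lt_iff₀ hpos] at h4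
        exact h4
      rw [sum_const, hGc, nsmul_eq_mul] at h3
      push_cast at h3
      linarith
    linarith
  refine h1.trans ((Pr_exists_le two_ok _ _ _).trans ?_)
  have h5 : ∀ q ∈ G, Pr (fun _ => (1/2:ℝ)) D.edges
      (fun F => u ≤ Yb (1/4) (xs D) a (-(2 * (a : ℤ)) + q.1 * a) (0 + q.2 * a) F) ≤
      9 * Real.exp (-(u / l) ^ (8 : ℕ)) := by
    intro q _
    have h6 := h _ _ _ hf a (-(2 * (a : ℤ)) + q.1 * a) (0 + q.2 * a) u ha hu
    have e1 : (u / l) ^ (2 / (1/4) : ℝ) = (u / l) ^ (8 : ℕ) := by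
      rw [show (2 / (1/4) : ℝ) = ((8 : ℕ) : ℝ) by norm_num, Real.rpow_natCast]
    rw [e1] at h6
    exact h6
  refine (sum_le_card_nsmul _ _ _ h5).trans (le_of_eq ?_)
  rw [hGc, nsmul_eq_mul]
  push_cast
  ring

/-- on the fast event the path reaches a high point in a short time -/
theorem fast_det {ω : Conf} {θ : ℝ} {a K : ℕ} (ha : 1 ≤ a) (hK : 4 ≤ K) {G : Finset Edg}
    (hS : Shw ω (An a (K * a : ℕ)) G) (hG : Fst θ a K G) :
    ∃ T : ℕ, K * a ≤ T ∧ T ≤ 40 * a * (K * a) ∧ (K : ℝ) * a - 1 / 4 ≤ ‖gam ω T‖ ∧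
      (T : ℝ) + 3 ≤ Xn a (cut ω (4 * a)) + 18 * (θ * K) * (a : ℝ) ^ (7/4 : ℝ) := by
  classical
  obtain ⟨⟨hL, hR⟩, hN⟩ := hG
  have ha1 : (1 : ℤ) ≤ a := by exact_mod_cast ha
  obtain ⟨h, hh⟩ : ∃ h : ℕ, h = K * a := ⟨_, rfl⟩
  have hh4 : 4 * a ≤ h := by rw [hh]; exact Nat.mul_le_mul_right _ hK
  have hKa : (K : ℝ) * a = h := by rw [hh]; push_cast; ring
  rw [← hh] at hL hR hS
  obtain ⟨T, hT1, hT2, hT3⟩ := walls ha1 (by omega) hS hL hR
  have hle : ∀ j ≤ T, (path ω j).1.2 ≤ (h : ℤ) := by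
    intro j hj
    rcases Nat.lt_or_ge j T with h | h
    · exact (hT2 j h).le
    · rw [show j = T by omega, hT1]
  rw [← hh, hKa]
  refine ⟨T, hit_ge hT1, hit_le ha (by omega) hle hT3, ?_, ?_⟩
  · have h1 := le_norm_place (path ω T)
    have h2 : (h : ℤ) ≤ sd (path ω T).1 (0, 0) := by
      refine le_trans ?_ (le_max_right _ _)
      simp only [sub_zero]
      rw [hT1]
      exact le_abs_self _
    have h3 : (h : ℝ) ≤ ((sd (path ω T).1 (0, 0) : ℤ) : ℝ) := by exact_mod_cast h2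
    unfold gam
    linarith
  -- the number of visited states
  have habs : |(path ω T).1.1| ≤ 4 * (a : ℤ) := (hT3 T le_rfl).trans (by omega)
  obtain ⟨h1, h2⟩ := len_hit (ρ := 4 * a) (by omega) (by omega) ω hT1
    (fun j hj => ⟨by have := hT3 j hj.le; omega, hT2 j hj⟩) habs
  have hTt := hT3 T le_rfl
  rw [abs_le] at habs
  obtain ⟨t, ht⟩ : ∃ t, t = (path ω T).1.1 := ⟨_, rfl⟩
  rw [← ht] at h1 h2 habs hTt
  have hD := dm_ok (ρ := 4 * a) (h := h) (t := t) (by omega) (by omega) habs.1 habs.2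
  have e := Moments_sum hD (fl_sub ω (4 * a) h t) (fun _ => (1 : ℝ))
  simp only [sum_const, card_range, nsmul_eq_mul, mul_one] at e
  rw [h1] at e
  obtain ⟨D, hDd⟩ : ∃ D : Dm, D = dm (4 * a) h t := ⟨_, rfl⟩
  obtain ⟨F, hF⟩ : ∃ F : Finset Edg, F = fl ω (4 * a) h := ⟨_, rfl⟩
  have hFs : F ⊆ D.edges := by rw [hF, hDd]; exact fl_sub ω (4 * a) h t
  rw [← hDd, ← hF] at h1 h2 e
  rw [← hDd] at hD
  have e2 : (T : ℝ) + 3 = ∑ σ ∈ D.states, ind (D.Vis F σ) := by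
    rw [← e]; push_cast; ring
  rw [e2]
  -- visited states are between the walls
  have hin : ∀ σ, D.Vis F σ → |σ.1.1| ≤ 2 * (a : ℤ) := by
    rintro σ ⟨k, hk, hkσ⟩
    rcases Nat.eq_zero_or_pos k with h0 | h0
    · rw [← hkσ, h0, walk_zero, hDd]
      exact hTt
    · rcases Nat.lt_or_ge k (T + 2) with h3 | h3
      · have h4 := h2 (T + 1 - k) (by omega)
        rw [show T + 1 - (T + 1 - k) = k by omega] at h4
        rw [← hkσ, h4]
        exact hT3 _ (by omega)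
      · have h4 : k = D.len F := by omega
        rw [← hkσ, h4, walk_len hD hFs]
        simp only [Dm.stop, abs_zero]
        omega
  obtain ⟨f, hf⟩ : ∃ f : Vtx → ℝ, f = fun v => ∑ q : Q4, ind (D.Vis F (v, q)) := ⟨_, rfl⟩
  have hf0 : ∀ v, 0 ≤ f v := fun v => by rw [hf]; exact sum_nonneg fun _ _ => ind_nonneg _
  have e3 : ∑ σ ∈ D.states, ind (D.Vis F σ) =
      ∑ v ∈ Finset.Icc (-(4 * (a : ℤ))) (4 * a) ×ˢ Finset.Icc (0 : ℤ) h, f v := by
    rw [hf, hDd]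
    unfold Dm.states
    rw [sum_product]
    rfl
  obtain ⟨W, hW⟩ : ∃ W : Finset Vtx, W = Finset.Icc (-(4 * (a : ℤ))) (4 * a) ×ˢ Finset.Icc (0 : ℤ) h :=
    ⟨_, rfl⟩
  obtain ⟨W1, hW1⟩ : ∃ W1 : Finset Vtx, W1 = W.filter (fun v => |v.1| ≤ 2 * (a : ℤ) ∧ v.2 < 2 * (a : ℤ)) :=
    ⟨_, rfl⟩
  obtain ⟨W2, hW2⟩ : ∃ W2 : Finset Vtx, W2 = W.filter (fun v => |v.1| ≤ 2 * (a : ℤ) ∧ 2 * (a : ℤ) ≤ v.2) :=
    ⟨_, rfl⟩
  have e4 : ∑ v ∈ W, f v ≤ ∑ v ∈ W1, f v + ∑ v ∈ W2, f v := by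
    rw [hW1, hW2, sum_filter, sum_filter, ← sum_add_distrib]
    refine sum_le_sum fun v _ => ?_
    by_cases h3 : |v.1| ≤ 2 * (a : ℤ)
    · rcases lt_or_ge v.2 (2 * (a : ℤ)) with h4 | h4
      · rw [if_pos ⟨h3, h4⟩, if_neg (fun h => not_le.mpr h4 h.2), add_zero]
      · rw [if_neg (fun h => not_lt.mpr h4 h.2), if_pos ⟨h3, h4⟩, zero_add]
    · rw [if_neg (fun h => h3 h.1), if_neg (fun h => h3 h.1), add_zero, hf]
      refine le_of_eq (sum_eq_zero fun q _ => ind_not_of fun hv => h3 (hin _ hv))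
  rw [e3, ← hW]
  refine e4.trans (add_le_add ?_ ?_)
  · -- near the origin
    have h3 : ∑ v ∈ W1, f v ≤ ∑ v ∈ W1, xs (bx (4 * a)) a v F := by
      refine sum_le_sum fun v hv => ?_
      rw [hW1, hW, mem_filter, mem_product, mem_Icc, mem_Icc] at hv
      rw [hf]
      refine xs_vis2 hD hFs a (by simp only [bx]; omega) ?_
      rw [hDd]
      unfold Dm.bd
      simp only [bx, dm]
      omega
    have h4 := cover (W := W1) (f := fun v => xs (bx (4 * a)) a v F) (fun v => xs_nonneg _ _ _ _)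
      ha (n1 := 5) (n2 := 2) (b0 := -(2 * (a : ℤ))) (c0 := 0) (fun v hv => by
        rw [hW1, hW, mem_filter, mem_product, mem_Icc, mem_Icc, abs_le] at hv
        push_cast
        omega)
    refine h3.trans (h4.trans ?_)
    unfold Xn
    refine le_of_eq (sum_congr rfl fun q hq => ?_)
    rw [mem_product, mem_range, mem_range] at hq
    refine sum_congr rfl fun v hv => xs_loc fun e he1 he2 => ?_
    rw [mem_Bq] at hv
    have hq1 : 0 ≤ (q.1 : ℤ) * a := by positivity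
    have hq2 : 0 ≤ (q.2 : ℤ) * a := by positivity
    have hbd : (bx (4 * a)).bd v ≤ v.1 + 4 * a ∧
        (bx (4 * a)).bd v ≤ 4 * a - v.1 ∧ (bx (4 * a)).bd v ≤ v.2 ∧
        (bx (4 * a)).bd v ≤ 4 * a - v.2 := by
      unfold Dm.bd
      simp only [bx]
      omega
    obtain ⟨d, hd⟩ : ∃ d, d = (bx (4 * (a : ℤ))).bd v := ⟨_, rfl⟩
    rw [← hd] at he2 hbd
    have hbx : (bx (4 * (a : ℤ))).edges = RE (-(4 * (a : ℤ))) (4 * a) 0 (4 * a) := rfl
    rw [hF, mem_fl, Perc_mem_cut, hbx]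
    have hm1 : e ∈ RE (-(4 * (a : ℤ))) (4 * a) 0 h := by
      obtain ⟨x, y, _ | _⟩ := e
      · rw [mem_RE_false] at he1 he2 ⊢; omega
      · rw [mem_RE_true] at he1 he2 ⊢; omega
    have hm2 : e ∈ RE (-(4 * (a : ℤ))) (4 * a) 0 (4 * a) := by
      obtain ⟨x, y, _ | _⟩ := e
      · rw [mem_RE_false] at he1 he2 ⊢; omega
      · rw [mem_RE_true] at he1 he2 ⊢; omega
    have hm3 : ¬ (e.2.2 = true ∧ e.2.1 = (h : ℤ)) := by
      obtain ⟨x, y, _ | _⟩ := e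
      · simp
      · rw [mem_RE_true] at he1 he2; simp only; omega
    exact ⟨fun h => ⟨hm2, h.2.1⟩, fun h => ⟨hm1, h.2, hm3⟩⟩
  · -- the tube
    have h3 : ∑ v ∈ W2, f v ≤ ∑ v ∈ W2, xs (dm (4 * a) (K * a : ℕ) 0) a v F := by
      refine sum_le_sum fun v hv => ?_
      rw [hW2, hW, mem_filter, mem_product, mem_Icc, mem_Icc] at hv
      rw [hf]
      refine xs_vis2 hD hFs a (by simp only [dm]; omega) ?_
      rw [hDd]
      unfold Dm.bd
      simp only [dm]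
      omega
    have h4 := cover (W := W2) (f := fun v => xs (dm (4 * a) (K * a : ℕ) 0) a v F)
      (fun v => xs_nonneg _ _ _ _)
      ha (n1 := 5) (n2 := K - 1) (b0 := -(2 * (a : ℤ))) (c0 := 2 * a) (fun v hv => by
        rw [hW2, hW, mem_filter, mem_product, mem_Icc, mem_Icc, abs_le] at hv
        have hK1 : ((K - 1 : ℕ) : ℤ) * a = h - a := by
          rw [hh, Nat.cast_sub (by omega)]
          push_cast
          ring
        rw [hK1]
        push_cast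
        omega)
    refine h3.trans (h4.trans ?_)
    have h5 : Tub a K F = Tub a K G := by
      refine tub_congr ha fun e he => ?_
      rw [← hh] at he
      rw [hF, mem_fl]
      have he' := mem_An.mp he
      constructor
      · rintro ⟨-, hω, -⟩
        by_contra hn
        rw [hS.cl e he hn] at hω
        exact absurd hω (by simp)
      · intro heG
        exact ⟨he'.1, hS.op e heG, he'.2.2⟩
    have h6 : ∑ q ∈ range 5 ×ˢ range (K - 1), ∑ v ∈ Bq (-(2 * (a : ℤ)) + q.1 * a) (2 * a + q.2 * a) a,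
        xs (dm (4 * a) (K * a : ℕ) 0) a v F = Tub a K F := rfl
    rw [h6, h5]
    exact hN.le

theorem io_fast {C : ℝ} (hC : 0 < C) (hU : TwoUp C (1/4)) : ∃ c' : ℝ, 0 < c' ∧
    ∀ᵐ ω ∂perc, ∃ᶠ n : ℕ in atTop,
      c' * (n : ℝ) ^ (4/7 : ℝ) * (ll n) ^ (3/7 : ℝ) ≤ ‖gam ω n‖ := by
  obtain ⟨θ, K2, hθ, hK2, hpr⟩ := fast_pr hC hU
  obtain ⟨l, hl, htail⟩ := xn_tail hC hU
  have hK20 : 0 < K2 := by linarith
  obtain ⟨KK, hKK⟩ : ∃ KK : ℕ → ℕ, ∀ j, KK j = ⌊Real.log ((j : ℝ) + 1) / K2⌋₊ := ⟨_, fun _ => rfl⟩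
  have hlog : Tendsto (fun j : ℕ => Real.log ((j : ℝ) + 1)) atTop atTop :=
    Real.tendsto_log_atTop.comp (tendsto_atTop_add_const_right _ _ tendsto_natCast_atTop_atTop)
  have hlog0 : ∀ j : ℕ, 0 ≤ Real.log ((j : ℝ) + 1) := fun j =>
    Real.log_nonneg (by linarith [(Nat.cast_nonneg j : (0:ℝ) ≤ j)])
  have hKle : ∀ j : ℕ, (KK j : ℝ) ≤ Real.log ((j : ℝ) + 1) / K2 := fun j => by
    rw [hKK]; exact Nat.floor_le (div_nonneg (hlog0 j) hK20.le)
  have hKgt : ∀ j : ℕ, Real.log ((j : ℝ) + 1) / K2 < KK j + 1 := fun j => by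
    rw [hKK]; exact Nat.lt_floor_add_one _
  have hKj : ∀ j, KK j ≤ 2 * j + 4 := by
    intro j
    have h1 := hKle j
    have h2 : Real.log ((j : ℝ) + 1) ≤ j := by
      have := Real.log_le_sub_one_of_pos (show (0:ℝ) < (j : ℝ) + 1 by positivity)
      linarith
    have h3 : Real.log ((j : ℝ) + 1) / K2 ≤ j := by
      rw [div_le_iff₀ hK20]
      have : (j : ℝ) ≤ j * K2 := by
        have := (Nat.cast_nonneg j : (0:ℝ) ≤ j)
        nlinarith
      linarith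
    have h4 : (KK j : ℝ) ≤ j := h1.trans h3
    have h5 : KK j ≤ j := by exact_mod_cast h4
    omega
  have hsep := sep_of (h := fun j => KK j * sc j) (fun j => by
    have h2 := sc_gt j
    have h4 : sc j * KK j ≤ sc j * (2 * j + 5) := Nat.mul_le_mul_left _ (by have := hKj j; omega)
    show KK j * sc j < sc (j + 1)
    rw [Nat.mul_comm]
    omega) (fun j => Fst θ (sc j) (KK j))
  -- eventual properties
  have hevL : ∀ᶠ j : ℕ in atTop, max (8 * K2) (4 * K2 * (2 * K2 * l) ^ 8) + 1 ≤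
      Real.log ((j : ℝ) + 1) := hlog.eventually_ge_atTop _
  obtain ⟨j0, hj0⟩ := eventually_atTop.mp hevL
  have hev : ∀ j, j0 ≤ j → 4 ≤ KK j ∧ Real.log ((j : ℝ) + 1) ≤ 2 * K2 * KK j ∧
      2 * Real.log ((j : ℝ) + 1) ≤ ((KK j : ℝ) / l) ^ (8 : ℕ) := by
    intro j hj
    have h1 := hj0 j hj
    have h2 : 8 * K2 ≤ Real.log ((j : ℝ) + 1) := by
      have := le_max_left (8 * K2) (4 * K2 * (2 * K2 * l) ^ 8); linarith
    have h3 : 4 * K2 * (2 * K2 * l) ^ 8 ≤ Real.log ((j : ℝ) + 1) := by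
      have := le_max_right (8 * K2) (4 * K2 * (2 * K2 * l) ^ 8); linarith
    have h4 := hKgt j
    have h5 : 8 ≤ Real.log ((j : ℝ) + 1) / K2 := by rw [le_div_iff₀ hK20]; linarith
    have h6 : (7 : ℝ) < KK j := by linarith
    have h7 : 7 < KK j := by exact_mod_cast h6
    have h8 : Real.log ((j : ℝ) + 1) ≤ 2 * K2 * KK j := by
      rw [div_lt_iff₀ hK20] at h4
      nlinarith
    refine ⟨by omega, h8, ?_⟩
    obtain ⟨Λ, hΛ⟩ : ∃ Λ, Λ = Real.log ((j : ℝ) + 1) := ⟨_, rfl⟩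
    rw [← hΛ] at h2 h3 h8 ⊢
    have h9 : Λ / (2 * K2 * l) ≤ (KK j : ℝ) / l := by
      rw [div_le_div_iff₀ (by positivity) hl]
      nlinarith
    have hΛ8 : 8 ≤ Λ := by nlinarith
    refine le_trans ?_ (pow_le_pow_left₀ (by positivity) h9 8)
    rw [div_pow, le_div_iff₀ (by positivity)]
    have h10 : 2 * (2 * K2 * l) ^ 8 ≤ Λ := by
      have h11 : 0 < (2 * K2 * l) ^ 8 := by positivity
      nlinarith
    have h12 : Λ * Λ ≤ Λ ^ 8 := by
      calc Λ * Λ = Λ ^ 2 := by ring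
        _ ≤ Λ ^ 8 := pow_le_pow_right₀ (by linarith) (by norm_num)
    nlinarith
  have hio := io_of hsep (m0 := j0) (fun j hj => by
    obtain ⟨h1, h2, h3⟩ := hev j hj
    rw [P_inter]
    refine le_trans ?_ (hpr (sc j) (KK j) (sc_pos j) (by omega))
    have hjp : (0 : ℝ) < (j : ℝ) + 1 := by positivity
    have h6 : 1 / ((j : ℝ) + 1) = Real.exp (-Real.log ((j : ℝ) + 1)) := by
      rw [Real.exp_neg, Real.exp_log hjp, one_div]
    rw [h6]
    refine Real.exp_le_exp.mpr (neg_le_neg ?_)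
    have h7 := hKle j
    rw [le_div_iff₀ hK20] at h7
    linarith)
  have hbc := Mom_bc (fun j => {ω | j0 ≤ j ∧
      10 * (KK j : ℝ) * ((sc j : ℕ) : ℝ) ^ (7/4 : ℝ) ≤ Xn (sc j) (cut ω (4 * (sc j : ℕ)))})
    (fun j => 90 * (1 / ((j + 1 : ℕ) : ℝ) ^ 2))
    (((summable_nat_add_iff 1).2 (Real.summable_one_div_nat_pow.mpr one_lt_two)).mul_left 90)
    (fun j => by
      by_cases hj : j0 ≤ j
      · refine (measureReal_mono (fun ω hω => hω.2)).trans
          ((htail (sc j) (KK j) (sc_pos j) (Nat.cast_nonneg _)).trans ?_)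
        obtain ⟨h1, h2, h3⟩ := hev j hj
        refine mul_le_mul_of_nonneg_left ?_ (by norm_num)
        have hjp : (0 : ℝ) < (j : ℝ) + 1 := by positivity
        have e : (1 : ℝ) / ((j + 1 : ℕ) : ℝ) ^ 2 = Real.exp (-(2 * Real.log ((j : ℝ) + 1))) := by
          rw [Real.exp_neg, mul_comm, Real.exp_mul, Real.exp_log hjp, one_div]
          push_cast
          norm_num
        rw [e]
        exact Real.exp_le_exp.mpr (by linarith)
      · have e : {ω : Conf | j0 ≤ j ∧ 10 * (KK j : ℝ) * ((sc j : ℕ) : ℝ) ^ (7/4 : ℝ) ≤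
            Xn (sc j) (cut ω (4 * (sc j : ℕ)))} = ∅ := by
          ext ω; simp [hj]
        rw [e, measureReal_empty]
        positivity)
  obtain ⟨C3, hC3⟩ : ∃ C3 : ℝ, C3 = 10 + 18 * θ := ⟨_, rfl⟩
  have hC30 : 0 < C3 := by rw [hC3]; positivity
  obtain ⟨B, hB⟩ : ∃ B : ℝ, B = C3 ^ (4/7 : ℝ) * (12 * K2) ^ (3/7 : ℝ) := ⟨_, rfl⟩
  have hB0 : 0 < B := by rw [hB]; positivity
  refine ⟨1 / (2 * B), by positivity, ?_⟩
  filter_upwards [hio, hbc] with ω hω hω2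
  obtain ⟨j1, hj1⟩ := eventually_atTop.mp hω2
  rw [frequently_atTop] at hω ⊢
  intro N
  obtain ⟨j, hj, hE⟩ := hω (max (max N j0) (max j1 4))
  have hjN : N ≤ j := (le_max_left _ _).trans ((le_max_left _ _).trans hj)
  have hjj0 : j0 ≤ j := (le_max_right _ _).trans ((le_max_left _ _).trans hj)
  have hjj1 : j1 ≤ j := (le_max_left _ _).trans ((le_max_right _ _).trans hj)
  have hj4 : 4 ≤ j := (le_max_right _ _).trans ((le_max_right _ _).trans hj)
  obtain ⟨h1, h2, h3⟩ := hev j hjj0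
  have hX : Xn (sc j) (cut ω (4 * (sc j : ℕ))) < 10 * (KK j : ℝ) * ((sc j : ℕ) : ℝ) ^ (7/4 : ℝ) := by
    by_contra hcon
    push Not at hcon
    exact hj1 j hjj1 ⟨hjj0, hcon⟩
  obtain ⟨T, t1, t2, t3, t4⟩ := fast_det (sc_pos j) h1 (shw_cut (hsep.sub j)) hE
  obtain ⟨a, ha⟩ : ∃ a, a = sc j := ⟨_, rfl⟩
  obtain ⟨K, hK⟩ : ∃ K, K = KK j := ⟨_, rfl⟩
  rw [← ha, ← hK] at t1 t2 t3 t4 hX
  rw [← hK] at h1 h2 h3
  have ha512 : 512 ≤ a := by
    rw [ha]
    have : sc 1 ≤ sc j := sc_mono (by omega)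
    have e : sc 1 = 512 := by unfold sc; norm_num
    omega
  have haN : N ≤ a := by rw [ha]; exact hjN.trans (sc_ge j)
  have haT : a ≤ T := le_trans (by nlinarith) t1
  refine ⟨T, by omega, ?_⟩
  have har : (512 : ℝ) ≤ a := by exact_mod_cast ha512
  have ha0 : (0 : ℝ) < a := by linarith
  have hKr : (4 : ℝ) ≤ K := by exact_mod_cast h1
  have hT3 : (T : ℝ) ≤ C3 * (K * (a : ℝ) ^ (7/4 : ℝ)) := by
    rw [hC3]; linarith
  have h5 : (T : ℝ) ^ (4/7 : ℝ) ≤ C3 ^ (4/7 : ℝ) * ((K : ℝ) ^ (4/7 : ℝ) * a) := by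
    refine (Real.rpow_le_rpow (Nat.cast_nonneg _) hT3 (by norm_num)).trans (le_of_eq ?_)
    rw [Real.mul_rpow hC30.le (by positivity), Real.mul_rpow (by positivity) (by positivity),
      ← Real.rpow_mul ha0.le]
    norm_num
  have hllp := ll_pos (n := T) (by omega)
  have hsc40 : 40 * K ≤ a := by
    rw [ha, hK]
    have h6 := hKj j
    have h7 : 40 * (2 * j + 4) ≤ sc j := by
      unfold sc
      have h8 : 40 * (2 * j + 4) = 80 * (j + 2) := by ring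
      rw [h8]
      have h9 : j + 2 < 2 ^ (j + 2) := Nat.lt_two_pow_self
      have h10 : (j + 2) ^ 2 = (j + 2) + (j + 2) * (j + 1) := by ring
      rw [h10, pow_add]
      have h12 : 6 * 5 ≤ (j + 2) * (j + 1) := Nat.mul_le_mul (by omega) (by omega)
      have h11 : 80 ≤ 2 ^ ((j + 2) * (j + 1)) := by
        calc 80 ≤ 2 ^ 7 := by norm_num
          _ ≤ _ := Nat.pow_le_pow_right (by norm_num) (by omega)
      calc 80 * (j + 2) ≤ 2 ^ ((j + 2) * (j + 1)) * 2 ^ (j + 2) := Nat.mul_le_mul h11 h9.le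
        _ = _ := Nat.mul_comm _ _
    omega
  have h6 : ll T ≤ 6 * Real.log ((j : ℝ) + 1) := by
    refine ll_hit (by omega) (by omega) ?_
    rw [← ha]
    refine t2.trans ?_
    have e : 40 * a * (K * a) = a * a * (40 * K) := by ring
    rw [e]
    exact Nat.mul_le_mul_left _ hsc40
  have h7 : (ll T) ^ (3/7 : ℝ) ≤ (12 * K2) ^ (3/7 : ℝ) * (K : ℝ) ^ (3/7 : ℝ) := by
    rw [← Real.mul_rpow (by positivity) (by positivity)]
    refine Real.rpow_le_rpow hllp.le ?_ (by norm_num)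
    linarith
  have h8 : (T : ℝ) ^ (4/7 : ℝ) * (ll T) ^ (3/7 : ℝ) ≤ B * (K * a) := by
    calc (T : ℝ) ^ (4/7 : ℝ) * (ll T) ^ (3/7 : ℝ) ≤ (C3 ^ (4/7 : ℝ) * ((K : ℝ) ^ (4/7 : ℝ) * a)) *
          ((12 * K2) ^ (3/7 : ℝ) * (K : ℝ) ^ (3/7 : ℝ)) :=
          mul_le_mul h5 h7 (Real.rpow_nonneg hllp.le _) (by positivity)
      _ = B * (((K : ℝ) ^ (4/7 : ℝ) * (K : ℝ) ^ (3/7 : ℝ)) * a) := by rw [hB]; ring
      _ = B * (K * a) := by
        rw [← Real.rpow_add (by linarith)]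
        norm_num
  have h9 : 1 / (2 * B) * ((T : ℝ) ^ (4/7 : ℝ) * (ll T) ^ (3/7 : ℝ)) ≤ 1 / (2 * B) * (B * (K * a)) :=
    mul_le_mul_of_nonneg_left h8 (by positivity)
  have e : 1 / (2 * B) * (B * (K * a)) = (K : ℝ) * a / 2 := by field_simp
  rw [e] at h9
  have h10 : (K : ℝ) * a / 2 ≤ K * a - 1 / 4 := by nlinarith
  linarith

end TH992.L
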