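import Pool.Agent.TH992.L.Sc

/-!
Infinitely often the path is slow.
-/

set_option autoImplicit false

namespace TH992.L

open H974 Finset H342P H984P H984H MeasureTheory Filter Topology TH992.T

/-- on the slow event the path spends much time in a small box -/
theorem slow_det {ω : Conf} {c1 : ℝ} {b a : ℕ} (ha : 1 ≤ a) (hab : 100 * a ≤ b) {G : Finset Edg}
    (hS : Shw ω (An b (3 * b)) G) (hG : Slow c1 b a G) :
    ∃ T : ℕ, 3 * b ≤ T ∧ T ≤ 40 * b * (3 * b) ∧ reach T ω ≤ 7 * b ∧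
      c1 * ((b : ℝ) ^ 2 * (a : ℝ) ^ (-(1/4) : ℝ)) ≤ T + 3 := by
  classical
  have hH := hg_of ha hab
  obtain ⟨⟨hO, hC⟩, hN⟩ := hG
  obtain ⟨I, hI⟩ : ∃ I, I = b / (40 * a) := ⟨_, rfl⟩
  rw [← hI] at hH hO hC hN
  obtain ⟨T, hT1, hT2, hT3⟩ := walls hH.b1 hH.h2 hS hO.1 hC.1
  have hle : ∀ j ≤ T, (path ω j).1.2 ≤ 3 * (b : ℤ) := by
    intro j hj
    rcases Nat.lt_or_ge j T with h | h
    · exact (hT2 j h).le
    · rw [show j = T by omega, hT1]
  have hT1' : (path ω T).1.2 = ((3 * b : ℕ) : ℤ) := by rw [hT1]; push_cast; ring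
  refine ⟨T, hit_ge hT1', ?_, ?_, ?_⟩
  · refine hit_le (b := b) (h := 3 * b) (by omega) (by omega) (fun j hj => ?_) hT3
    have := hle j hj
    push_cast
    exact this
  · have hb1 : (1 : ℝ) ≤ b := by exact_mod_cast (by omega : 1 ≤ b)
    unfold reach
    refine Finset.sup'_le _ _ fun k hk => ?_
    have hk' : k ≤ T := by have := Finset.mem_range.1 hk; omega
    have h1 := norm_place_le (path ω k)
    have h2 : sd (path ω k).1 (0, 0) ≤ 3 * (b : ℤ) := by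
      have g1 := hT3 k hk'
      have g2 := hle k hk'
      have g3 := path_nonneg ω k
      unfold sd
      simp only [sub_zero]
      rw [abs_of_nonneg g3]
      exact max_le (by omega) g2
    have h3 : ((sd (path ω k).1 (0, 0) : ℤ) : ℝ) ≤ 3 * b := by exact_mod_cast h2
    unfold gam
    linarith
  · -- the number of visited states
    refine hN.trans ?_
    have hb1 := hH.b1
    have habs : |(path ω T).1.1| ≤ 4 * (b : ℤ) := (hT3 T le_rfl).trans (by omega)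
    obtain ⟨h1, h2⟩ := len_hit (ρ := 4 * b) (by omega) (by omega) ω hT1
      (fun j hj => ⟨by have := hT3 j hj.le; omega, hT2 j hj⟩) habs
    rw [abs_le] at habs
    obtain ⟨t, ht⟩ : ∃ t, t = (path ω T).1.1 := ⟨_, rfl⟩
    rw [← ht] at h1 h2 habs
    have hD := dm_ok (ρ := 4 * b) (h := 3 * b) (t := t) (by omega) (by omega) habs.1 habs.2
    have e := Moments_sum hD (fl_sub ω (4 * b) (3 * b) t) (fun _ => (1 : ℝ))
    simp only [sum_const, card_range, nsmul_eq_mul, mul_one] at e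
    rw [h1] at e
    have e2 : (T : ℝ) + 3 = ∑ σ ∈ (dm (4 * b) (3 * b) t).states,
        ind ((dm (4 * b) (3 * b) t).Vis (fl ω (4 * b) (3 * b)) σ) := by
      rw [← e]; push_cast; ring
    rw [e2]
    have h3 : NM b (3 * b) a I G ≤ ∑ v ∈ Wd b (3 * b) a I,
        ind ((dm (4 * b) (3 * b) t).Vis (fl ω (4 * b) (3 * b)) (v, Q4.ne)) := by
      unfold NM
      refine sum_le_sum fun v hv => ind_mono fun h => ?_
      rw [mem_Wd hH] at hv
      exact vis_teeth' hH le_rfl habs.1 habs.2 hS hv h hO hC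
    refine h3.trans ?_
    have h4 : ∑ v ∈ Wd b (3 * b) a I,
        ind ((dm (4 * b) (3 * b) t).Vis (fl ω (4 * b) (3 * b)) (v, Q4.ne)) =
        ∑ σ ∈ (Wd b (3 * b) a I).image (fun v => ((v, Q4.ne) : St)),
          ind ((dm (4 * b) (3 * b) t).Vis (fl ω (4 * b) (3 * b)) σ) := by
      rw [sum_image]
      intro v _ v' _ h
      exact (Prod.mk.inj h).1
    rw [h4]
    refine sum_le_sum_of_subset_of_nonneg ?_ (fun _ _ _ => ind_nonneg _)
    intro σ hσ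
    rw [mem_image] at hσ
    obtain ⟨v, hv, rfl⟩ := hσ
    rw [mem_Wd hH] at hv
    obtain ⟨i, hi, hr1, hr2⟩ := hv.row
    have g1 := hv.left
    have g2 := hv.right
    have g3 := hH.top i hi
    have g4 := ys_ge a i
    exact xs_mem' _ (by simp only [dm]; omega)

theorem io_slow {c : ℝ} (hc : 0 < c) (hL : LowA c (1/4)) {C : ℝ} (hC : 0 < C)
    (hU : TwoUp C (1/4)) : ∃ C' : ℝ, 0 < C' ∧ ∀ᵐ ω ∂perc, ∃ᶠ n : ℕ in atTop,
      reach n ω ≤ C' * (n : ℝ) ^ (4/7 : ℝ) / (ll n) ^ (1/14 : ℝ) := by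
  obtain ⟨c1, K1, hc1, hK1, hpr⟩ := slow_pr hc hL hC hU
  -- the ratio
  obtain ⟨M, hM⟩ : ∃ M : ℕ → ℝ, ∀ j, M j = (Real.log ((j : ℝ) + 1) / (4 * K1)) ^ (1/2 : ℝ) :=
    ⟨_, fun _ => rfl⟩
  obtain ⟨aa, haa⟩ : ∃ aa : ℕ → ℕ, ∀ j, aa j = ⌊(sc j : ℝ) / M j⌋₊ := ⟨_, fun _ => rfl⟩
  have hlog : Tendsto (fun j : ℕ => Real.log ((j : ℝ) + 1)) atTop atTop :=
    Real.tendsto_log_atTop.comp (tendsto_atTop_add_const_right _ _ tendsto_natCast_atTop_atTop)
  have hMt : Tendsto M atTop atTop := by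
    have h1 : Tendsto (fun j : ℕ => Real.log ((j : ℝ) + 1) / (4 * K1)) atTop atTop :=
      hlog.atTop_div_const (by positivity)
    have h2 := (tendsto_rpow_atTop (show (0:ℝ) < 1/2 by norm_num)).comp h1
    refine h2.congr fun j => ?_
    rw [hM]; rfl
  have hMle : ∀ᶠ j : ℕ in atTop, M j ≤ sc j := by
    have h1 : Tendsto (fun j : ℕ => Real.log ((j : ℝ) + 1) / ((j : ℝ) + 1)) atTop (𝓝 0) := by
      have h2 := Real.tendsto_pow_log_div_mul_add_atTop 1 0 1 one_ne_zero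
      have h3 := h2.comp (tendsto_atTop_add_const_right atTop (1:ℝ) tendsto_natCast_atTop_atTop)
      refine h3.congr fun j => ?_
      simp
    have h2 := h1.eventually_le_const (show (0:ℝ) < 4 * K1 by positivity)
    filter_upwards [h2, hlog.eventually_ge_atTop 1] with j hj hj1
    rw [hM]
    have hj0 : (0 : ℝ) < (j : ℝ) + 1 := by positivity
    rw [div_le_iff₀ hj0] at hj
    have h3 : Real.log ((j : ℝ) + 1) / (4 * K1) ≤ (j : ℝ) + 1 := by
      rw [div_le_iff₀ (by positivity)]; linarith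
    have h4 : (Real.log ((j : ℝ) + 1) / (4 * K1)) ^ (1/2 : ℝ) ≤ ((j : ℝ) + 1) ^ (1/2 : ℝ) :=
      Real.rpow_le_rpow (by positivity) h3 (by norm_num)
    have h5 : ((j : ℝ) + 1) ^ (1/2 : ℝ) ≤ ((j : ℝ) + 1) ^ (1 : ℝ) :=
      Real.rpow_le_rpow_of_exponent_le (by linarith [(Nat.cast_nonneg j : (0:ℝ) ≤ j)]) (by norm_num)
    rw [Real.rpow_one] at h5
    have h6 : (j : ℝ) + 1 ≤ sc j := by
      have : j + 1 ≤ sc j := by
        unfold sc
        have h1 : j + 1 ≤ (j + 2) ^ 2 := by nlinarith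
        exact h1.trans (Nat.lt_two_pow_self).le
      exact_mod_cast this
    linarith
  obtain ⟨j0, hj0⟩ := eventually_atTop.mp ((hMt.eventually_ge_atTop 100).and (hMle.and
    (hlog.eventually_ge_atTop 1)))
  -- properties of the small scale
  have hsm : ∀ j, j0 ≤ j → 1 ≤ aa j ∧ 100 * aa j ≤ sc j ∧ (sc j : ℝ) / aa j ≤ 2 * M j ∧
      M j ≤ (sc j : ℝ) / aa j := by
    intro j hj
    obtain ⟨h1, h2, -⟩ := hj0 j hj
    have hM0 : 0 < M j := by linarith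
    have h3 : 1 ≤ (sc j : ℝ) / M j := by rw [le_div_iff₀ hM0]; linarith
    have h4 : 1 ≤ aa j := by rw [haa]; exact Nat.one_le_floor_iff _ |>.mpr h3
    have h4r : (1 : ℝ) ≤ aa j := by exact_mod_cast h4
    have h5 : (aa j : ℝ) ≤ (sc j : ℝ) / M j := by rw [haa]; exact Nat.floor_le (by positivity)
    have h6 : (sc j : ℝ) / M j < aa j + 1 := by rw [haa]; exact Nat.lt_floor_add_one _
    rw [le_div_iff₀ hM0] at h5
    rw [div_lt_iff₀ hM0] at h6
    refine ⟨h4, ?_, ?_, ?_⟩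
    · have : (100 : ℝ) * aa j ≤ sc j := by nlinarith
      exact_mod_cast this
    · rw [div_le_iff₀ (by linarith)]; nlinarith
    · rw [le_div_iff₀ (by linarith)]; linarith
  have hsep := sep_of (h := fun j => 3 * sc j) (fun j => by
    have h2 := sc_gt j
    have h4 : sc j * 3 ≤ sc j * (2 * j + 5) := Nat.mul_le_mul_left _ (by omega)
    show 3 * sc j < sc (j + 1)
    omega) (fun j => Slow c1 (sc j) (aa j))
  have hio := io_of hsep (m0 := j0) (fun j hj => by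
    obtain ⟨h1, h2, h3, h4⟩ := hsm j hj
    obtain ⟨g1, g2, g3⟩ := hj0 j hj
    rw [P_inter]
    have h5 := hpr (aa j) (sc j) h1 h2
    have e : ((3 * sc j : ℕ) : ℤ) = 3 * ((sc j : ℕ) : ℤ) := by push_cast; ring
    rw [e]
    refine le_trans ?_ h5
    have hjp : (0 : ℝ) < (j : ℝ) + 1 := by positivity
    have h6 : 1 / ((j : ℝ) + 1) = Real.exp (-Real.log ((j : ℝ) + 1)) := by
      rw [Real.exp_neg, Real.exp_log hjp, one_div]
    rw [h6]
    refine Real.exp_le_exp.mpr (neg_le_neg ?_)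
    have h7 : ((sc j : ℝ) / aa j) ^ 2 ≤ (2 * M j) ^ 2 := pow_le_pow_left₀ (by positivity) h3 2
    have h8 : (2 * M j) ^ 2 = Real.log ((j : ℝ) + 1) / K1 := by
      rw [hM, mul_pow, ← Real.rpow_natCast (_ ^ (1/2 : ℝ)), ← Real.rpow_mul (by positivity)]
      norm_num
      field_simp
    rw [h8] at h7
    have h9 := mul_le_mul_of_nonneg_left h7 hK1.le
    have h10 : K1 * (Real.log ((j : ℝ) + 1) / K1) = Real.log ((j : ℝ) + 1) := by field_simp
    linarith)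
  obtain ⟨κ, hκ⟩ : ∃ κ : ℝ, κ = (1 / (4 * K1)) ^ (1/2 : ℝ) := ⟨_, rfl⟩
  have hκ0 : 0 < κ := by rw [hκ]; positivity
  obtain ⟨B, hB⟩ : ∃ B : ℝ, B = (c1 / 2) ^ (4/7 : ℝ) * κ ^ (1/7 : ℝ) := ⟨_, rfl⟩
  have hB0 : 0 < B := by rw [hB]; positivity
  refine ⟨7 * 2 / B, by positivity, ?_⟩
  filter_upwards [hio] with ω hω
  rw [frequently_atTop] at hω ⊢
  intro N
  obtain ⟨j, hj, hE⟩ := hω (max (max N j0) 4)
  have hjN : N ≤ j := (le_max_left _ _).trans ((le_max_left _ _).trans hj)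
  have hjj0 : j0 ≤ j := (le_max_right _ _).trans ((le_max_left _ _).trans hj)
  have hj4 : 4 ≤ j := (le_max_right _ _).trans hj
  obtain ⟨h1, h2, h3, h4⟩ := hsm j hjj0
  obtain ⟨g1, g2, g3⟩ := hj0 j hjj0
  have hsub := hsep.sub j
  have e : ((3 * sc j : ℕ) : ℤ) = 3 * ((sc j : ℕ) : ℤ) := by push_cast; ring
  simp only [e] at hsub hE
  obtain ⟨T, t1, t2, t3, t4⟩ := slow_det h1 h2 (shw_cut hsub) hE
  obtain ⟨b, hb⟩ : ∃ b, b = sc j := ⟨_, rfl⟩
  have hb256 : 256 ≤ b := by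
    rw [hb]
    have : sc 1 ≤ sc j := sc_mono (by omega)
    have e : sc 1 = 512 := by unfold sc; norm_num
    omega
  rw [← hb] at t1 t2 t3 t4 h3 h4
  have hbN : N ≤ b := by rw [hb]; exact hjN.trans (sc_ge j)
  refine ⟨T, by omega, ?_⟩
  have hT0 : (3 : ℝ) ≤ T := by exact_mod_cast (by omega : 3 ≤ T)
  have hbr : (256 : ℝ) ≤ b := by exact_mod_cast hb256
  have hb0 : (0 : ℝ) < b := by linarith
  have ha0 : (0 : ℝ) < aa j := by exact_mod_cast h1
  have hM0 : 0 < M j := by linarith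
  -- lower bound of T
  have h5 : c1 / 2 * ((b : ℝ) ^ (7/4 : ℝ) * (M j) ^ (1/4 : ℝ)) ≤ T := by
    have e1 : (b : ℝ) ^ 2 * (aa j : ℝ) ^ (-(1/4) : ℝ) =
        (b : ℝ) ^ (7/4 : ℝ) * ((b : ℝ) / aa j) ^ (1/4 : ℝ) := by
      rw [Real.div_rpow hb0.le ha0.le, Real.rpow_neg ha0.le, mul_div_assoc', ← Real.rpow_add hb0]
      norm_num
      rfl
    rw [e1] at t4
    have h6 : (M j) ^ (1/4 : ℝ) ≤ ((b : ℝ) / aa j) ^ (1/4 : ℝ) :=
      Real.rpow_le_rpow hM0.le h4 (by norm_num)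
    have h7 : c1 * ((b : ℝ) ^ (7/4 : ℝ) * (M j) ^ (1/4 : ℝ)) ≤
        c1 * ((b : ℝ) ^ (7/4 : ℝ) * ((b : ℝ) / aa j) ^ (1/4 : ℝ)) :=
      mul_le_mul_of_nonneg_left (mul_le_mul_of_nonneg_left h6 (by positivity)) hc1.le
    linarith
  -- 4/7-th power
  have h6 : (c1 / 2) ^ (4/7 : ℝ) * (b * (M j) ^ (1/7 : ℝ)) ≤ (T : ℝ) ^ (4/7 : ℝ) := by
    refine le_trans (le_of_eq ?_) (Real.rpow_le_rpow (by positivity) h5 (by norm_num))
    rw [Real.mul_rpow (by positivity) (by positivity), Real.mul_rpow (by positivity) (by positivity),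
      ← Real.rpow_mul hb0.le, ← Real.rpow_mul hM0.le]
    norm_num
  have hlogp : 0 < Real.log ((j : ℝ) + 1) := by linarith
  have h7 : (M j) ^ (1/7 : ℝ) = κ ^ (1/7 : ℝ) * (Real.log ((j : ℝ) + 1)) ^ (1/14 : ℝ) := by
    rw [hM, hκ]
    have e2 : Real.log ((j : ℝ) + 1) / (4 * K1) = 1 / (4 * K1) * Real.log ((j : ℝ) + 1) := by ring
    rw [e2, Real.mul_rpow (by positivity) hlogp.le, Real.mul_rpow (by positivity) (by positivity),
      ← Real.rpow_mul hlogp.le]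
    norm_num
  have h8 : ll T ≤ 6 * Real.log ((j : ℝ) + 1) := by
    refine ll_hit (by omega) (by omega) ?_
    rw [← hb]
    refine t2.trans ?_
    have : 40 * b * (3 * b) = 120 * (b * b) := by ring
    rw [this, Nat.mul_comm 120]
    exact Nat.mul_le_mul_left _ (by omega)
  have h9 : (ll T) ^ (1/14 : ℝ) ≤ 2 * (Real.log ((j : ℝ) + 1)) ^ (1/14 : ℝ) := by
    have hll0 : 0 ≤ ll T := (ll_pos (by omega)).le
    calc (ll T) ^ (1/14 : ℝ) ≤ (6 * Real.log ((j : ℝ) + 1)) ^ (1/14 : ℝ) :=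
          Real.rpow_le_rpow hll0 h8 (by norm_num)
      _ = 6 ^ (1/14 : ℝ) * (Real.log ((j : ℝ) + 1)) ^ (1/14 : ℝ) :=
          Real.mul_rpow (by norm_num) hlogp.le
      _ ≤ _ := by
        refine mul_le_mul_of_nonneg_right ?_ (by positivity)
        calc (6 : ℝ) ^ (1/14 : ℝ) ≤ (2 ^ (14 : ℕ)) ^ (1/14 : ℝ) :=
              Real.rpow_le_rpow (by norm_num) (by norm_num) (by norm_num)
          _ = 2 := by
            rw [← Real.rpow_natCast, ← Real.rpow_mul (by norm_num)]; norm_num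
  have hllp : 0 < (ll T) ^ (1/14 : ℝ) := Real.rpow_pos_of_pos (ll_pos (by omega)) _
  refine t3.trans ?_
  rw [le_div_iff₀ hllp]
  rw [h7] at h6
  have h11 : B * (b * (Real.log ((j : ℝ) + 1)) ^ (1/14 : ℝ)) ≤ (T : ℝ) ^ (4/7 : ℝ) := by
    refine le_trans (le_of_eq ?_) h6
    rw [hB]; ring
  have h12 : 7 * 2 / B * (B * (b * (Real.log ((j : ℝ) + 1)) ^ (1/14 : ℝ))) ≤
      7 * 2 / B * (T : ℝ) ^ (4/7 : ℝ) := mul_le_mul_of_nonneg_left h11 (by positivity)
  have e3 : 7 * 2 / B * (B * (b * (Real.log ((j : ℝ) + 1)) ^ (1/14 : ℝ))) =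
      7 * (b : ℝ) * (2 * (Real.log ((j : ℝ) + 1)) ^ (1/14 : ℝ)) := by field_simp
  rw [e3] at h12
  refine le_trans ?_ h12
  exact mul_le_mul_of_nonneg_left h9 (by positivity)

end TH992.L
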