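import Pool.Agent.TH992.L.Local
import Pool.Agent.H984R4.HN.AllOkOf
import Pool.Agent.TH992.T.Chern

/-!
The bad event of a block is local and has small probability.
-/

set_option autoImplicit false

namespace TH992.L

open H974 Finset H342P H984P H984H

/-- The region of a block. -/
noncomputable def Lam (W : ℤ) (q : Vtx) : Finset Edg :=
  RE (q.1 * W - 2 * W) (q.1 * W + 3 * W) (max 0 (q.2 * W - 2 * W)) (q.2 * W + 3 * W)

theorem bulk_sq_inter {M : ℕ} {R L b c : ℤ} {F T : Finset Edg}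
    (h : RE b (b + 4 * L) c (c + 4 * L) ⊆ T) : bulk_sq M R L b c F ↔ bulk_sq M R L b c (F ∩ T) := by
  unfold bulk_sq
  rw [inter_assoc, inter_eq_right.mpr h]

theorem sq_sub {W L : ℤ} {n0 : ℕ} (hL : 1 ≤ L) (hW : W = n0 * L) (hWL : 5 * L ≤ W) {q : Vtx}
    {p p' : ℤ} (hp : p ∈ Finset.Ico ((q.1 - 1) * n0) ((q.1 + 2) * n0))
    (hp' : p' ∈ Finset.Ico ((q.2 - 1) * n0) ((q.2 + 2) * n0)) (h4 : 4 ≤ p') :
    RE (L * p - 2 * L) (L * p - 2 * L + 4 * L) (L * p' - 2 * L) (L * p' - 2 * L + 4 * L) ⊆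
      Lam W q := by
  rw [mem_Ico] at hp hp'
  have key : ∀ x y : ℤ, x ≤ y → L * x ≤ L * y := fun x y h => mul_le_mul_of_nonneg_left h (by omega)
  have a1 := key _ _ hp.1
  have a2 := key _ _ (show p + 1 ≤ _ from hp.2)
  have a3 := key _ _ hp'.1
  have a4 := key _ _ (show p' + 1 ≤ _ from hp'.2)
  have a5 := key _ _ h4
  have e1 : L * ((q.1 - 1) * n0) = q.1 * W - W := by rw [hW]; ring
  have e2 : L * ((q.1 + 2) * n0) = q.1 * W + 2 * W := by rw [hW]; ring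
  have e3 : L * ((q.2 - 1) * n0) = q.2 * W - W := by rw [hW]; ring
  have e4 : L * ((q.2 + 2) * n0) = q.2 * W + 2 * W := by rw [hW]; ring
  have e5 : L * (p + 1) = L * p + L := by ring
  have e6 : L * (p' + 1) = L * p' + L := by ring
  have e7 : L * 4 = 4 * L := by ring
  rw [e1] at a1
  rw [e2, e5] at a2
  rw [e3] at a3
  rw [e4, e6] at a4
  rw [e7] at a5
  exact RE_subset (by omega) (by omega) (by omega) (by omega)

theorem RB_sub {W : ℤ} {q : Vtx} (hW : 0 ≤ W) (hq : q.2 = 0) : RB W q ⊆ Lam W q := by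
  unfold RB Lam
  rw [hq]
  exact RE_subset le_rfl le_rfl (by omega) (by omega)

/-- The bad event is local. -/
theorem bad_local {M : ℕ} {R L w W : ℤ} {n0 : ℕ} (hL : 1 ≤ L) (hW : W = n0 * L)
    (hWL : 5 * L ≤ W) {q : Vtx} (F : Finset Edg) :
    Bad M R L w W n0 q F ↔ Bad M R L w W n0 q (F ∩ Lam W q) := by
  unfold Bad
  refine or_congr ?_ ?_
  · unfold BadB
    constructor
    · rintro ⟨p, hp, p', hp', h4, h⟩
      exact ⟨p, hp, p', hp', h4, (bulk_sq_inter (sq_sub hL hW hWL hp hp' h4)).mp h⟩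
    · rintro ⟨p, hp, p', hp', h4, h⟩
      exact ⟨p, hp, p', hp', h4, (bulk_sq_inter (sq_sub hL hW hWL hp hp' h4)).mpr h⟩
  · refine and_congr_right fun hq => ?_
    have hs := RB_sub (W := W) (q := q) (by omega) hq
    refine or_congr ?_ ?_
    · unfold BadP
      rw [inter_assoc, inter_eq_right.mpr hs]
    · unfold BadD
      have e : ((↑(RB W q) ∩ LB W L q) \ ↑F : Set Edg) =
          ((↑(RB W q) ∩ LB W L q) \ ↑(F ∩ Lam W q) : Set Edg) := by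
        ext e
        simp only [Set.mem_sdiff, Set.mem_inter_iff, Finset.mem_coe, Finset.mem_inter, not_and]
        constructor
        · rintro ⟨h1, h2⟩
          exact ⟨h1, fun h => absurd h h2⟩
        · rintro ⟨h1, h2⟩
          exact ⟨h1, fun h => h2 h (hs h1.1)⟩
      rw [e]

/-- Regions of blocks of one class are disjoint. -/
theorem Lam_disj {W : ℤ} (hW : 1 ≤ W) {q r : Vtx} (h : cls q = cls r) (hne : q ≠ r) :
    Disjoint (Lam W q) (Lam W r) := by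
  have hfar := cls_far h hne
  rw [det_sd_eq] at hfar
  have key : ∀ x y : ℤ, 7 ≤ x - y → y * W + 7 * W ≤ x * W := by
    intro x y hxy
    have : (y + 7) * W ≤ x * W := mul_le_mul_of_nonneg_right (by omega) (by omega)
    have e : (y + 7) * W = y * W + 7 * W := by ring
    omega
  rw [disjoint_left]
  intro e he hr
  unfold Lam at he hr
  obtain ⟨⟨⟨a1, a2⟩, a3, a4⟩, -⟩ := ends_of_RE he
  obtain ⟨⟨⟨b1, b2⟩, b3, b4⟩, -⟩ := ends_of_RE hr
  have hor : 7 ≤ q.1 - r.1 ∨ 7 ≤ r.1 - q.1 ∨ 7 ≤ q.2 - r.2 ∨ 7 ≤ r.2 - q.2 := by omega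
  rcases hor with h1 | h1 | h1 | h1
  · have := key _ _ h1; omega
  · have := key _ _ h1; omega
  · have := key _ _ h1; omega
  · have := key _ _ h1; omega

theorem half_ok : Ok (fun _ : Edg => (1/2:ℝ)) := fun _ => ⟨by norm_num, by norm_num⟩

/-- Probability of the bad squares. -/
theorem badB_pr {a M : ℕ} {R L W : ℤ} {n0 : ℕ} {B : ℝ} (hB : 0 ≤ B) (ha : 1 ≤ a) (hR : 1 ≤ R)
    (hL : L = 3 * R + 60 * a) (hW : W = n0 * L) (hWL : 5 * L ≤ W)
    (hlow : Pr (fun _ => (1/2:ℝ)) (RE 0 (4 * L).toNat 0 (4 * L).toNat) (fun F => ∃ (σ : St) (t : ℕ),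
      inR (3 * R + 60 * a) ((4 * L).toNat - 3 * R - 60 * a) (3 * R + 60 * a)
        ((4 * L).toNat - 3 * R - 60 * a) σ.1 ∧
      Far σ.1 R (orb (↑F) σ t).1 ∧ t < M) ≤ B)
    {q : Vtx} {S : Finset Edg} (hS : Lam W q ⊆ S) :
    P S (BadB M R L n0 q) ≤ 9 * (n0:ℝ) ^ 2 * B := by
  have hL1 : 1 ≤ L := by omega
  have hn : (((4 * L).toNat : ℕ) : ℤ) = 4 * L := by omega
  have c1 : ((Finset.Ico ((q.1 - 1) * n0) ((q.1 + 2) * n0)).card : ℝ) = 3 * n0 := by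
    rw [Int.card_Ico]
    have : (q.1 + 2) * n0 - (q.1 - 1) * n0 = ((3 * n0 : ℕ) : ℤ) := by push_cast; ring
    rw [this, Int.toNat_natCast]
    push_cast
    ring
  have c2 : ((Finset.Ico ((q.2 - 1) * n0) ((q.2 + 2) * n0)).card : ℝ) = 3 * n0 := by
    rw [Int.card_Ico]
    have : (q.2 + 2) * n0 - (q.2 - 1) * n0 = ((3 * n0 : ℕ) : ℤ) := by push_cast; ring
    rw [this, Int.toNat_natCast]
    push_cast
    ring
  have key : P S (BadB M R L n0 q) ≤ ((Finset.Ico ((q.1 - 1) * n0) ((q.1 + 2) * n0)).card : ℝ) *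
      (((Finset.Ico ((q.2 - 1) * n0) ((q.2 + 2) * n0)).card : ℝ) * B) := by
    unfold BadB
    refine le_trans (Pr_exists_le half_ok _ _ _) ?_
    rw [← nsmul_eq_mul]
    refine Finset.sum_le_card_nsmul _ _ _ fun p hp => ?_
    refine le_trans (Pr_exists_le half_ok _ _ _) ?_
    rw [← nsmul_eq_mul]
    refine Finset.sum_le_card_nsmul _ _ _ fun p' hp' => ?_
    by_cases h4 : 4 ≤ p'
    · refine le_trans (Pr_mono half_ok (B := bulk_sq M R L (L * p - 2 * L) (L * p' - 2 * L))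
        (fun F _ h => h.2)) ?_
      exact (bulk_sq_pr hn hL ((sq_sub hL1 hW hWL hp hp' h4).trans hS)).trans hlow
    · have h0 : Pr (fun _ => (1/2:ℝ)) S (fun F =>
          4 ≤ p' ∧ bulk_sq M R L (L * p - 2 * L) (L * p' - 2 * L) F) = 0 := by
        unfold Pr
        rw [Ex_congr (g := fun _ => 0) (fun F _ => ind_not_of (fun h => h4 h.1)), Ex_const]
      rw [h0]
      exact hB
  rw [c1, c2] at key
  refine key.trans (le_of_eq ?_)
  ring

/-- Probability of the open path. -/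
theorem badP_pr {m : ℕ} {L w W : ℤ} {n0 : ℕ} (hL : 1 ≤ L) (hW : W = n0 * L)
    (hw : (20 * m + 100) * L ≤ w) (hWw : 4 * w + 1 ≤ W) {q : Vtx} (hq : q.2 = 0) {S : Finset Edg}
    (hS : Lam W q ⊆ S) : P S (BadP W L w q) ≤ 4 * (2 * (n0:ℝ) + 4) * (1/2) ^ m := by
  have hm : (0:ℤ) ≤ m := by positivity
  have hmL : (0:ℤ) ≤ m * L := by positivity
  have hw' : 20 * ((m:ℤ) * L) + 100 * L ≤ w := by
    have : ((20 * (m:ℤ) + 100) * L) = 20 * ((m:ℤ) * L) + 100 * L := by ring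
    omega
  have hmL2 : (m : ℤ) ≤ m * L := by nlinarith
  have hsub : RB W q ⊆ S := (RB_sub (by omega) hq).trans hS
  have e1 : P S (BadP W L w q) = P (RB W q) (BadP W L w q) :=
    Pr_local hsub (fun F _ => by unfold BadP; rw [inter_assoc, inter_self])
  rw [e1]
  have h2 := layer_rect (a := q.1 * W - 2 * W) (b := q.1 * W + 3 * W) (c := 0) (d := 3 * W)
    (ρ := 5 * L + 2) (w := w) (m := m) (by omega) (by omega) (by omega) (by
      have : 2 * ((m:ℤ) + 3) * (5 * L + 2 + 1) + 4 * (5 * L + 2) =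
        10 * ((m:ℤ) * L) + 6 * m + 50 * L + 26 := by ring
      rw [this]
      omega)
  have h3 : P (RB W q) (BadP W L w q) ≤ P (RE (q.1 * W - 2 * W) (q.1 * W + 3 * W) 0 (3 * W))
      (fun F => ∃ u v : Vtx, w ≤ sd u v ∧
      Reach (↑F ∩ {e | bdr (q.1 * W - 2 * W) (q.1 * W + 3 * W) 0 (3 * W) (src e) < 5 * L + 2 ∧
        bdr (q.1 * W - 2 * W) (q.1 * W + 3 * W) 0 (3 * W) (tgt e) < 5 * L + 2} : Set Edg) u v) := by
    refine Pr_mono half_ok ?_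
    rintro F hF ⟨u, v, huv, hr⟩
    rw [inter_eq_left.mpr hF] at hr
    exact ⟨u, v, huv, hr⟩
  refine h3.trans (h2.trans ?_)
  have hL' : (0:ℝ) < L := by exact_mod_cast (by omega : 0 < L)
  have hn0 : (0:ℝ) ≤ n0 := Nat.cast_nonneg _
  have hWr : (W:ℝ) = n0 * L := by rw [hW]; push_cast; ring
  have h4 : (((q.1 * W + 3 * W - (q.1 * W - 2 * W) : ℤ) : ℝ) + ((3 * W - 0 : ℤ) : ℝ)) /
      ((5 * L + 2 : ℤ) : ℝ) ≤ 2 * n0 := by
    have e2 : (((q.1 * W + 3 * W - (q.1 * W - 2 * W) : ℤ) : ℝ) + ((3 * W - 0 : ℤ) : ℝ)) = 8 * W := by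
      push_cast; ring
    rw [e2, hWr]
    push_cast
    rw [div_le_iff₀ (by linarith)]
    nlinarith [mul_nonneg hn0 hL'.le]
  gcongr

/-- Probability of the closed dual path. -/
theorem badD_pr {m : ℕ} {L w W : ℤ} {n0 : ℕ} (hL : 1 ≤ L) (hW : W = n0 * L)
    (hw : (20 * m + 100) * L ≤ w) (hWw : 4 * w + 1 ≤ W) {q : Vtx} (hq : q.2 = 0) {S : Finset Edg}
    (hS : Lam W q ⊆ S) : P S (BadD W L w q) ≤ 4 * (2 * (n0:ℝ) + 8) * (1/2) ^ m := by
  have hm : (0:ℤ) ≤ m := by positivity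
  have hmL : (0:ℤ) ≤ m * L := by positivity
  have hw' : 20 * ((m:ℤ) * L) + 100 * L ≤ w := by
    have : ((20 * (m:ℤ) + 100) * L) = 20 * ((m:ℤ) * L) + 100 * L := by ring
    omega
  have hmL2 : (m : ℤ) ≤ m * L := by nlinarith
  have hsub : RB W q ⊆ S := (RB_sub (by omega) hq).trans hS
  have e1 : P S (BadD W L w q) = P (RB W q) (BadD W L w q) := by
    refine Pr_local hsub (fun F _ => ?_)
    unfold BadD
    have e : ((↑(RB W q) ∩ LB W L q) \ ↑F : Set Edg) =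
        ((↑(RB W q) ∩ LB W L q) \ ↑(F ∩ RB W q) : Set Edg) := by
      ext e
      simp only [Set.mem_sdiff, Set.mem_inter_iff, Finset.mem_coe, Finset.mem_inter, not_and]
      constructor
      · rintro ⟨h1, h2⟩
        exact ⟨h1, fun h => absurd h h2⟩
      · rintro ⟨h1, h2⟩
        exact ⟨h1, fun h => h2 h h1.1⟩
    rw [e]
  rw [e1]
  have h2 := dual_layer_rect (a := q.1 * W - 2 * W) (b := q.1 * W + 3 * W) (c := 0) (d := 3 * W)
    (ρ := 5 * L + 2) (w := w - 1) (m := m) (by omega) (by omega) (by omega) (by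
      have : 2 * ((m:ℤ) + 3) * (5 * L + 2 + 3) + 4 * (5 * L + 2 + 2) =
        10 * ((m:ℤ) * L) + 10 * m + 50 * L + 46 := by ring
      rw [this]
      omega)
  have h3 : P (RB W q) (BadD W L w q) ≤ P (RE (q.1 * W - 2 * W) (q.1 * W + 3 * W) 0 (3 * W))
      (fun F => ∃ f g : Vtx, w - 1 ≤ sd f g ∧
      DReach ({e | e ∈ RE (q.1 * W - 2 * W) (q.1 * W + 3 * W) 0 (3 * W) ∧
        bdr (q.1 * W - 2 * W) (q.1 * W + 3 * W) 0 (3 * W) (src e) < 5 * L + 2 ∧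
        bdr (q.1 * W - 2 * W) (q.1 * W + 3 * W) 0 (3 * W) (tgt e) < 5 * L + 2} \ ↑F :
        Set Edg) f g) := by
    refine Pr_mono half_ok ?_
    rintro F hF ⟨u, v, huv, hr⟩
    exact ⟨u, v, huv, hr⟩
  refine h3.trans (h2.trans ?_)
  have hL' : (0:ℝ) < L := by exact_mod_cast (by omega : 0 < L)
  have hn0 : (0:ℝ) ≤ n0 := Nat.cast_nonneg _
  have hWr : (W:ℝ) = n0 * L := by rw [hW]; push_cast; ring
  have h4 : (((q.1 * W + 3 * W - (q.1 * W - 2 * W) : ℤ) : ℝ) + ((3 * W - 0 : ℤ) : ℝ)) /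
      ((5 * L + 2 : ℤ) : ℝ) ≤ 2 * n0 := by
    have e2 : (((q.1 * W + 3 * W - (q.1 * W - 2 * W) : ℤ) : ℝ) + ((3 * W - 0 : ℤ) : ℝ)) = 8 * W := by
      push_cast; ring
    rw [e2, hWr]
    push_cast
    rw [div_le_iff₀ (by linarith)]
    nlinarith [mul_nonneg hn0 hL'.le]
  gcongr

/-- Conditions for the parameters. -/
structure Par (R L w W : ℤ) (n0 : ℕ) : Prop where
  hR : 1 ≤ R
  hRL : 3 * R ≤ L
  hW : W = n0 * L
  hw : 5 * L + 4 ≤ w
  hWw : 4 * w + 1 ≤ W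

/-- The bad event has small probability. -/
theorem bad_pr {c C : ℝ} (hc : 0 < c) (hC : 0 < C) (hL : LowA c (1/4)) (hU : TwoUp C (1/4))
    {η : ℝ} (hη : 0 < η) : ∃ (Γ n0 : ℕ) (c' : ℝ), 1 ≤ Γ ∧ 0 < c' ∧ ∀ a : ℕ, 5 ≤ a →
      ∃ R L w W : ℤ, Par R L w W n0 ∧ W = Γ * a ∧ ∀ (q : Vtx) (S : Finset Edg), Lam W q ⊆ S →
        P S (Bad ⌈c' * (a:ℝ) ^ (7/4 : ℝ)⌉₊ R L w W n0 q) ≤ η := by
  obtain ⟨c', δ, hc', hδ, hδ1, hall⟩ := allOk_of hc hC hL hU
  obtain ⟨C1, hC1, hlow⟩ := low_steps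
  -- the parameter `m`
  obtain ⟨m, hm⟩ : ∃ m : ℕ, (1280 * (m:ℝ) + 6464) * (1/2 : ℝ) ^ m ≤ η / 2 := by
    have t1 := tendsto_self_mul_const_pow_of_lt_one (r := (1/2:ℝ)) (by norm_num) (by norm_num)
    have t2 := tendsto_pow_atTop_nhds_zero_of_lt_one (r := (1/2:ℝ)) (by norm_num) (by norm_num)
    have t3 := (t1.const_mul 1280).add (t2.const_mul 6464)
    rw [mul_zero, mul_zero, add_zero] at t3
    have t4 := (t3.eventually (gt_mem_nhds (show (0:ℝ) < η / 2 by positivity))).exists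
    obtain ⟨m, hm⟩ := t4
    refine ⟨m, ?_⟩
    have : (1280 * (m:ℝ) + 6464) * (1/2 : ℝ) ^ m = 1280 * ((m:ℝ) * (1/2:ℝ) ^ m) +
      6464 * (1/2:ℝ) ^ m := by ring
    rw [this]
    exact hm.le
  obtain ⟨n0, hn0⟩ : ∃ n0 : ℕ, n0 = 80 * m + 401 := ⟨_, rfl⟩
  -- the parameter `K`
  obtain ⟨K, hK⟩ : ∃ K : ℕ, 9 * (n0:ℝ) ^ 2 * (C1 * (4 * (372 * ((K + 1 : ℕ):ℝ) + 60) + 1) ^ 2 *
      (1 - δ) ^ K) ≤ η / 2 := by
    rcases eq_or_lt_of_le hδ1 with h1 | h1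
    · refine ⟨1, ?_⟩
      rw [h1]
      simp only [sub_self, pow_one, mul_zero]
      positivity
    · have t1 := tendsto_pow_const_mul_const_pow_of_lt_one 2 (r := 1 - δ) (by linarith) (by linarith)
      have t2 := t1.const_mul (9 * (n0:ℝ) ^ 2 * (C1 * 3458 ^ 2))
      rw [mul_zero] at t2
      obtain ⟨K, hK1, hK2⟩ := ((t2.eventually (gt_mem_nhds
        (show (0:ℝ) < η / 2 by positivity))).and (Filter.eventually_ge_atTop 1)).exists
      refine ⟨K, le_trans ?_ hK1.le⟩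
      have hK2' : (1:ℝ) ≤ K := by exact_mod_cast hK2
      have hq0 : 0 ≤ (1 - δ) ^ K := pow_nonneg (by linarith) _
      have h5 : (4 * (372 * ((K + 1 : ℕ):ℝ) + 60) + 1) ^ 2 ≤ (3458 * (K:ℝ)) ^ 2 := by
        refine pow_le_pow_left₀ (by positivity) ?_ 2
        push_cast
        linarith
      calc 9 * (n0:ℝ) ^ 2 * (C1 * (4 * (372 * ((K + 1 : ℕ):ℝ) + 60) + 1) ^ 2 * (1 - δ) ^ K)
          ≤ 9 * (n0:ℝ) ^ 2 * (C1 * (3458 * (K:ℝ)) ^ 2 * (1 - δ) ^ K) := by gcongr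
        _ = 9 * (n0:ℝ) ^ 2 * (C1 * 3458 ^ 2) * ((K:ℝ) ^ 2 * (1 - δ) ^ K) := by ring
  refine ⟨n0 * (372 * (K + 1) + 60), n0, c', ?_, hc', fun a ha => ?_⟩
  · have : 1 ≤ n0 := by omega
    calc 1 = 1 * 1 := rfl
      _ ≤ n0 * (372 * (K + 1) + 60) := Nat.mul_le_mul this (by omega)
  obtain ⟨R, hR⟩ : ∃ R : ℤ, R = 124 * (a:ℤ) * (K + 1 : ℕ) := ⟨_, rfl⟩
  obtain ⟨L, hLd⟩ : ∃ L : ℤ, L = 3 * R + 60 * a := ⟨_, rfl⟩
  obtain ⟨w, hwd⟩ : ∃ w : ℤ, w = (20 * m + 100) * L := ⟨_, rfl⟩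
  obtain ⟨W, hWd⟩ : ∃ W : ℤ, W = n0 * L := ⟨_, rfl⟩
  have haz : (5:ℤ) ≤ a := by exact_mod_cast ha
  have haK : (a:ℤ) * 1 ≤ (a:ℤ) * (K + 1 : ℕ) := mul_le_mul_of_nonneg_left (by push_cast; omega) (by omega)
  have hR1 : 121 * (a:ℤ) * (K + 1 : ℕ) + a + 2 ≤ R := by
    have e1 : R = 121 * (a:ℤ) * (K + 1 : ℕ) + 3 * ((a:ℤ) * (K + 1 : ℕ)) := by rw [hR]; ring
    rw [e1]
    omega
  have hR0 : 1 ≤ R := by
    have : (0:ℤ) ≤ 121 * (a:ℤ) * (K + 1 : ℕ) := by positivity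
    omega
  have hL1 : 1 ≤ L := by omega
  have hw2 : w = 20 * ((m:ℤ) * L) + 100 * L := by rw [hwd]; ring
  have hW2 : W = 80 * ((m:ℤ) * L) + 401 * L := by rw [hWd, hn0]; push_cast; ring
  have hmL : (0:ℤ) ≤ (m:ℤ) * L := by positivity
  have hpar : Par R L w W n0 := ⟨hR0, by omega, hWd, by omega, by omega⟩
  refine ⟨R, L, w, W, hpar, ?_, fun q S hS => ?_⟩
  · rw [hWd, hLd, hR]
    push_cast
    ring
  have hn : (((4 * L).toNat : ℕ) : ℤ) = 4 * L := by omega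
  have hl := hlow (4 * L).toNat a (K + 1) _ δ R ha (by omega) hδ.le hδ1 (hall _ a (by omega)) hR1
  rw [Nat.add_sub_cancel] at hl
  have hnr : (((4 * L).toNat : ℕ) : ℝ) / a = 4 * (372 * ((K + 1 : ℕ):ℝ) + 60) := by
    have h1 : (((4 * L).toNat : ℕ) : ℝ) = ((4 * L : ℤ) : ℝ) := by exact_mod_cast hn
    rw [h1, hLd, hR]
    have ha0 : (a:ℝ) ≠ 0 := by
      have : a ≠ 0 := by omega
      exact_mod_cast this
    push_cast
    field_simp
    ring
  rw [hnr] at hl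
  have hB0 : 0 ≤ C1 * (4 * (372 * ((K + 1 : ℕ):ℝ) + 60) + 1) ^ 2 * (1 - δ) ^ K := by
    have : 0 ≤ (1 - δ) ^ K := pow_nonneg (by linarith) _
    positivity
  have b1 := badB_pr (W := W) (n0 := n0) hB0 (by omega) hR0 hLd hWd (by omega) hl hS
  have b2 : P S (fun F => q.2 = 0 ∧ (BadP W L w q F ∨ BadD W L w q F)) ≤ η / 2 := by
    by_cases hq : q.2 = 0
    · refine (Pr_mono half_ok (B := fun F => BadP W L w q F ∨ BadD W L w q F)
        fun F _ h => h.2).trans ?_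
      refine (Pr_or_le half_ok _ _ _).trans ?_
      have p1 := badP_pr (m := m) hL1 hWd (by rw [hwd]) hpar.hWw hq hS
      have p2 := badD_pr (m := m) hL1 hWd (by rw [hwd]) hpar.hWw hq hS
      refine (add_le_add p1 p2).trans (le_trans (le_of_eq ?_) hm)
      rw [hn0]
      push_cast
      ring
    · have h0 : Pr (fun _ => (1/2:ℝ)) S (fun F =>
          q.2 = 0 ∧ (BadP W L w q F ∨ BadD W L w q F)) = 0 := by
        unfold Pr
        rw [Ex_congr (g := fun _ => 0) (fun F _ => ind_not_of (fun h => hq h.1)), Ex_const]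
      show Pr (fun _ => (1/2:ℝ)) S _ ≤ _
      rw [h0]
      positivity
  unfold Bad
  refine (Pr_or_le half_ok _ _ _).trans ?_
  have := add_le_add (b1.trans hK) b2
  linarith

end TH992.L
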