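import Pool.Agent.TH992.L.BadPr
import Pool.Agent.H984R4.HN.Perc

/-!
A far distance in a short time: union bound over chains of blocks.
-/

set_option autoImplicit false

namespace TH992.L

open H974 Finset H342P H984P H984H MeasureTheory

open Classical in
/-- If the path is fast then many blocks of a chain are bad. -/
theorem chain_sub {ρ W R L w : ℤ} {n0 M : ℕ} (hp : Par R L w W n0) {k n : ℕ} (hk : 2 ≤ k)
    (hρ : k * W + 6 * W ≤ ρ) (hn : (n : ℤ) < ρ) (hM : 98 * (n + 1) < (k + 1) * M) {ω : Conf}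
    (hS : ¬ Stay (k * W) n ω) :
    ∃ Q ∈ AS k (0, 0), Q.card = k + 1 ∧ ∃ B ∈ Q.powerset, (∀ q ∈ B, ∀ r ∈ B, cls q = cls r) ∧
      k + 1 ≤ 98 * B.card ∧ ∀ q ∈ B, Bad M R L w W n0 q (cut ω ρ) := by
  obtain ⟨hR, hRL, hW, hw, hWw⟩ := hp
  have hW1 : 1 ≤ W := by omega
  unfold Stay at hS
  push Not at hS
  obtain ⟨T, hT, hd⟩ := hS
  have hβ : ∀ r, sd (blk W (path ω r).1) (blk W (path ω (r + 1)).1) ≤ 1 := fun r =>
    blk_step hW1 ((path_step ω r).trans hW1)
  have h0 : blk W (path ω 0).1 = (0, 0) := by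
    have : (path ω 0).1 = (0, 0) := rfl
    rw [this]
    simp [blk]
  have h0' : (path ω 0).1 = (0, 0) := rfl
  obtain ⟨Q, hQ, hQc, hQv⟩ := chain (β := fun r => blk W (path ω r).1) hβ T k 0 (Nat.zero_le T)
    (by
      rw [h0']
      exact blk_far hW1 hd (by omega))
  rw [h0] at hQ
  refine ⟨Q, hQ, hQc, ?_⟩
  obtain ⟨c, hc⟩ := pigeon (Q := Q) (k := k + 1) hQc.ge
  obtain ⟨Qc, hQcd⟩ : ∃ Qc, Qc = Q.filter (fun q => cls q = c) := ⟨_, rfl⟩
  have hc' : k + 1 ≤ 49 * Qc.card := by rw [hQcd]; exact hc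
  have hcl : ∀ q ∈ Qc, cls q = c := by
    intro q hq
    rw [hQcd, mem_filter] at hq
    exact hq.2
  have hsub : Qc ⊆ Q := by rw [hQcd]; exact filter_subset _ _
  refine ⟨Qc.filter (fun q => Bad M R L w W n0 q (cut ω ρ)), ?_, ?_, ?_, ?_⟩
  · rw [mem_powerset]
    exact (filter_subset _ _).trans hsub
  · intro q hq r hr
    rw [mem_filter] at hq hr
    rw [hcl q hq.1, hcl r hr.1]
  · have hsplit := card_filter_add_card_filter_not (s := Qc)
      (fun q => Bad M R L w W n0 q (cut ω ρ))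
    have hct := count_times (β := fun r => blk W (path ω r).1) (n := n) (M := M)
      (G := Qc.filter (fun q => ¬ Bad M R L w W n0 q (cut ω ρ))) (by
        intro q hq r hr
        rw [mem_filter] at hq hr
        rw [hcl q hq.1, hcl r hr.1]) (by
        intro q hq
        rw [mem_filter] at hq
        obtain ⟨τ, -, hτ, hτq⟩ := hQv q (hsub hq.1)
        have hnear := AS_near k (0, 0) Q hQ q (hsub hq.1)
        rw [det_sd_eq] at hnear
        simp only at hnear
        have key : ∀ x : ℤ, x ≤ k → x * W ≤ k * W := fun x hx =>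
          mul_le_mul_of_nonneg_right hx (by omega)
        have k1 := key q.1 (by omega)
        have k2 := key (-q.1) (by omega)
        have k3 := key q.2 (by omega)
        have k4 : -q.1 * W = -(q.1 * W) := by ring
        have k5 : 2 * W ≤ k * W := mul_le_mul_of_nonneg_right (by exact_mod_cast hk) (by omega)
        exact good_time hR hRL hW hw hWw (by omega) (by omega) (by omega) (by omega) hn hq.2 hT hτ
          (by omega) hτq)
    by_contra hcon
    push Not at hcon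
    set g := (Qc.filter (fun q => ¬ Bad M R L w W n0 q (cut ω ρ))).card with hg
    set b := (Qc.filter (fun q => Bad M R L w W n0 q (cut ω ρ))).card with hb
    have h1 : k + 1 ≤ 98 * g := by omega
    have h2 : (k + 1) * M ≤ 98 * g * M := Nat.mul_le_mul_right M h1
    have h3 : 98 * g * M = 98 * (g * M) := by ring
    omega
  · intro q hq
    rw [mem_filter] at hq
    exact hq.2

/-- the probability that all blocks of a set are bad -/
theorem all_bad {ρ W R L w : ℤ} {n0 M : ℕ} (hp : Par R L w W n0) {η : ℝ} {B : Finset Vtx}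
    (hcl : ∀ q ∈ B, ∀ r ∈ B, cls q = cls r) (hB : ∀ q ∈ B, Lam W q ⊆ (bx ρ).edges)
    (hpr : ∀ q ∈ B, P (bx ρ).edges (Bad M R L w W n0 q) ≤ η) :
    P (bx ρ).edges (fun F => ∀ q ∈ B, Bad M R L w W n0 q F) ≤ η ^ B.card := by
  classical
  obtain ⟨hR, hRL, hW, hw, hWw⟩ := hp
  have h1 : P (bx ρ).edges (fun F => ∀ q ∈ B, Bad M R L w W n0 q F) =
      Ex (fun _ => (1/2:ℝ)) (bx ρ).edges (fun F => ∏ q ∈ B, ind (Bad M R L w W n0 q F)) := by
    refine Ex_congr fun F _ => ?_
    by_cases h : ∀ q ∈ B, Bad M R L w W n0 q F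
    · rw [ind_of h, prod_eq_one fun q hq => ind_of (h q hq)]
    · rw [ind_not_of h]
      push Not at h
      obtain ⟨q, hq, hn⟩ := h
      rw [prod_eq_zero hq (ind_not_of hn)]
  rw [h1, TH992.T.Ex_prod_indep B (Lam W) hB
    (fun q hq r hr hne => Lam_disj (by omega) (hcl q hq r hr) hne)
    (fun q F => ind (Bad M R L w W n0 q F))
    (fun q _ F _ => ind_congr (bad_local (by omega) hW (by omega) F)), ← prod_const]
  exact prod_le_prod (fun q _ => Ex_nonneg half_ok fun F _ => ind_nonneg _) hpr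

/-- The probability of a fast path. -/
theorem chain_pr {W R L w : ℤ} {n0 M : ℕ} (hp : Par R L w W n0)
    (hbad : ∀ (q : Vtx) (S : Finset Edg), Lam W q ⊆ S →
      P S (Bad M R L w W n0 q) ≤ (1/36) ^ 98) {k n : ℕ} (hk : 2 ≤ k)
    (hM : 98 * (n + 1) < (k + 1) * M) :
    perc.real {ω | ¬ Stay (k * W) n ω} ≤ (1/2) ^ (k + 1) := by
  classical
  have hp' := hp
  obtain ⟨hR, hRL, hW, hw, hWw⟩ := hp'
  obtain ⟨ρ, hρ⟩ : ∃ ρ : ℤ, ρ = k * W + 6 * W + n + 1 := ⟨_, rfl⟩
  have hkW : 0 ≤ k * W := by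
    have : 0 ≤ W := by omega
    positivity
  have hsub : {ω | ¬ Stay (k * W) n ω} ⊆ {ω | (fun F => ∃ Q ∈ AS k (0, 0), (Q.card = k + 1 ∧
      ∃ B ∈ Q.powerset, ((∀ q ∈ B, ∀ r ∈ B, cls q = cls r) ∧
      k + 1 ≤ 98 * B.card ∧ ∀ q ∈ B, Bad M R L w W n0 q F))) (cut ω ρ)} := by
    intro ω hω
    exact chain_sub hp hk (by omega) (by omega) hM hω
  refine (measureReal_mono hsub).trans ?_
  rw [perc_cut ρ (fun F => ∃ Q ∈ AS k (0, 0), (Q.card = k + 1 ∧
      ∃ B ∈ Q.powerset, ((∀ q ∈ B, ∀ r ∈ B, cls q = cls r) ∧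
      k + 1 ≤ 98 * B.card ∧ ∀ q ∈ B, Bad M R L w W n0 q F)))]
  have hQ : ∀ Q ∈ AS k (0, 0), P (bx ρ).edges (fun F => Q.card = k + 1 ∧
      ∃ B ∈ Q.powerset, ((∀ q ∈ B, ∀ r ∈ B, cls q = cls r) ∧
      k + 1 ≤ 98 * B.card ∧ ∀ q ∈ B, Bad M R L w W n0 q F)) ≤ 2 ^ (k + 1) * (1/36) ^ (k + 1) := by
    intro Q hQ
    by_cases hc : Q.card = k + 1
    · refine (Pr_mono half_ok (B := fun F => ∃ B ∈ Q.powerset,
        ((∀ q ∈ B, ∀ r ∈ B, cls q = cls r) ∧
        k + 1 ≤ 98 * B.card ∧ ∀ q ∈ B, Bad M R L w W n0 q F)) fun F _ h => h.2).trans ?_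
      refine (Pr_exists_le half_ok _ _ _).trans ?_
      have hone : ∀ B ∈ Q.powerset, P (bx ρ).edges (fun F =>
          (∀ q ∈ B, ∀ r ∈ B, cls q = cls r) ∧
          k + 1 ≤ 98 * B.card ∧ ∀ q ∈ B, Bad M R L w W n0 q F) ≤ (1/36) ^ (k + 1) := by
        intro B hB
        rw [mem_powerset] at hB
        by_cases hcl : (∀ q ∈ B, ∀ r ∈ B, cls q = cls r) ∧ k + 1 ≤ 98 * B.card
        · refine (Pr_mono half_ok (B := fun F => ∀ q ∈ B, Bad M R L w W n0 q F)
            fun F _ h => h.2.2).trans ?_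
          have hL : ∀ q ∈ B, Lam W q ⊆ (bx ρ).edges := by
            intro q hq
            have hnear := AS_near k (0, 0) Q hQ q (hB hq)
            rw [det_sd_eq] at hnear
            simp only at hnear
            have key : ∀ x : ℤ, x ≤ k → x * W ≤ k * W := fun x hx =>
              mul_le_mul_of_nonneg_right hx (by omega)
            have k1 := key q.1 (by omega)
            have k2 := key (-q.1) (by omega)
            have k3 := key q.2 (by omega)
            have k4 : -q.1 * W = -(q.1 * W) := by ring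
            unfold Lam Dm.edges bx
            simp only
            exact RE_subset (by omega) (by omega) (by omega) (by omega)
          refine (all_bad hp hcl.1 hL fun q hq => hbad q _ (hL q hq)).trans ?_
          rw [← pow_mul]
          exact pow_le_pow_of_le_one (by norm_num) (by norm_num) hcl.2
        · have h0 : Pr (fun _ => (1/2:ℝ)) (bx ρ).edges (fun F =>
              (∀ q ∈ B, ∀ r ∈ B, cls q = cls r) ∧
              k + 1 ≤ 98 * B.card ∧ ∀ q ∈ B, Bad M R L w W n0 q F) = 0 := by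
            unfold Pr
            rw [Ex_congr (g := fun _ => 0) (fun F _ => ind_not_of
              (fun h => hcl ⟨h.1, h.2.1⟩)), Ex_const]
          show Pr (fun _ => (1/2:ℝ)) (bx ρ).edges _ ≤ _
          rw [h0]
          positivity
      refine (sum_le_card_nsmul _ _ _ hone).trans ?_
      rw [card_powerset, hc, nsmul_eq_mul]
      push_cast
      exact le_rfl
    · have h0 : Pr (fun _ => (1/2:ℝ)) (bx ρ).edges (fun F => Q.card = k + 1 ∧
          ∃ B ∈ Q.powerset, ((∀ q ∈ B, ∀ r ∈ B, cls q = cls r) ∧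
          k + 1 ≤ 98 * B.card ∧ ∀ q ∈ B, Bad M R L w W n0 q F)) = 0 := by
        unfold Pr
        rw [Ex_congr (g := fun _ => 0) (fun F _ => ind_not_of (fun h => hc h.1)), Ex_const]
      show Pr (fun _ => (1/2:ℝ)) (bx ρ).edges _ ≤ _
      rw [h0]
      positivity
  refine (Pr_exists_le half_ok _ _ _).trans ?_
  refine (sum_le_card_nsmul _ _ _ hQ).trans ?_
  rw [nsmul_eq_mul]
  have h1 : ((AS k (0, 0)).card : ℝ) ≤ 9 ^ (k + 1) := by
    have := AS_card k (0, 0)
    have h2 : ((AS k (0, 0)).card : ℝ) ≤ ((9 ^ k : ℕ) : ℝ) := by exact_mod_cast this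
    push_cast at h2
    refine h2.trans ?_
    exact pow_le_pow_right₀ (by norm_num) (by omega)
  calc ((AS k (0, 0)).card : ℝ) * (2 ^ (k + 1) * (1/36) ^ (k + 1))
      ≤ 9 ^ (k + 1) * (2 ^ (k + 1) * (1/36) ^ (k + 1)) := by gcongr
    _ = (1/2) ^ (k + 1) := by
        rw [← mul_pow, ← mul_pow]
        norm_num

end TH992.L
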