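import Pool.Agent.H984R4.HN.TailLow

/-!
The exploration path of the half-plane and the path in the box `{-ρ, …, ρ} × {0, …, h}` from the
top side to the origin.
-/

set_option autoImplicit false

namespace TH992.L

open H974 Finset H342P H984P H984H MeasureTheory

/-- The box. -/
def dm (ρ h t : ℤ) : Dm := ⟨-ρ, ρ, h, t⟩

theorem dm_ok {ρ h t : ℤ} (hρ : 1 ≤ ρ) (hh : 1 ≤ h) (h1 : -ρ ≤ t) (h2 : t ≤ ρ) : (dm ρ h t).Ok := by
  constructor <;> simp only [dm] <;> omega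

/-- The open edges in the box, without those of the top row. -/
noncomputable def fl (ω : Conf) (ρ h : ℤ) : Finset Edg :=
  (RE (-ρ) ρ 0 h).filter (fun e => ω e = true ∧ ¬ (e.2.2 = true ∧ e.2.1 = h))

theorem mem_fl {ω : Conf} {ρ h : ℤ} {e : Edg} :
    e ∈ fl ω ρ h ↔ e ∈ RE (-ρ) ρ 0 h ∧ ω e = true ∧ ¬ (e.2.2 = true ∧ e.2.1 = h) := by
  unfold fl
  rw [Finset.mem_filter]

theorem fl_sub (ω : Conf) (ρ h t : ℤ) : fl ω ρ h ⊆ (dm ρ h t).edges := Finset.filter_subset _ _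

theorem cfg_iff (ω : Conf) (ρ h t : ℤ) (e : Edg) :
    e ∈ (dm ρ h t).cfg (fl ω ρ h) ↔ (((e ∈ RE (-ρ) ρ 0 h ∧ ω e = true ∧
      ¬ (e.2.2 = true ∧ e.2.1 = h)) ∧ ¬ (e.2.2 = true ∧ e.2.1 = 0 ∧ 0 ≤ e.1)) ∨
    ((e.2.2 = true ∧ e.2.1 = h ∧ -ρ ≤ e.1 ∧ e.1 < t) ∨
    (e.2.2 = false ∧ e.1 = -ρ ∧ 0 ≤ e.2.1 ∧ e.2.1 < h) ∨
    (e.2.2 = true ∧ e.2.1 = 0 ∧ -ρ ≤ e.1 ∧ e.1 < 0))) := by
  rw [← mem_fl]
  exact Iff.rfl

/-- The two configurations agree at the edges of the inner vertices of the box. -/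
theorem cfg_opn' {ρ h t : ℤ} (ω : Conf) {v : Vtx} (h0 : 0 ≤ v.2)
    (hv1 : |v.1| < ρ) (hv2 : v.2 < h) {e : Edg} (he : src e = v ∨ tgt e = v) :
    e ∈ (dm ρ h t).cfg (fl ω ρ h) ↔ e ∈ opn ω := by
  rw [cfg_iff]
  obtain ⟨x, y, b⟩ := e
  obtain ⟨v1, v2⟩ := v
  simp only at h0 hv1 hv2
  rw [abs_lt] at hv1
  have hop : ((x, y, b) : Edg) ∈ opn ω ↔ ((y = 0 ∧ b = true ∧ x < 0) ∨
      (0 ≤ y ∧ ¬ (y = 0 ∧ b = true) ∧ ω (x, y, b) = true)) := Iff.rfl
  rw [hop]
  by_cases hw : ω (x, y, b) = true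
  · cases b
    · rw [mem_RE_false]
      simp only [src_mk, tgt_false, Prod.mk.injEq] at he
      simp only [hw, Bool.false_eq_true, false_and, and_false, and_true, false_or, or_false,
        not_false_eq_true, true_and]
      omega
    · rw [mem_RE_true]
      simp only [src_mk, tgt_true, Prod.mk.injEq] at he
      simp only [hw, Bool.true_eq_false, false_and, and_true, false_or, true_and]
      omega
  · cases b
    · simp only [src_mk, tgt_false, Prod.mk.injEq] at he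
      simp only [hw, Bool.false_eq_true, false_and, and_false, false_or, or_false,
        true_and, iff_false]
      omega
    · simp only [src_mk, tgt_true, Prod.mk.injEq] at he
      have hw' : ω (x, y, true) = false := by simpa using hw
      simp only [hw', Bool.true_eq_false, Bool.false_eq_true, false_and, and_false, false_or,
        or_false, true_and]
      omega

theorem first' {ρ h t : ℤ} (hh : 1 ≤ h) (ω : Conf) :
    nxt ((dm ρ h t).cfg (fl ω ρ h)) ((0, 0), .ne) = Dm.stop := by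
  have h : ae (((0, 0), .ne) : St) ∉ (dm ρ h t).cfg (fl ω ρ h) := by
    rw [cfg_iff, ae_ne]
    simp
    omega
  rw [nxt_closed h]
  rfl

/-- Coupling: as long as the path is inside of the box, it is the path of the
box from the top side to the origin, run backwards. -/
theorem couple' {ρ h t : ℤ} (hρ : 1 ≤ ρ) (hh : 1 ≤ h) (h1 : -ρ ≤ t) (h2 : t ≤ ρ) (ω : Conf)
    {k : ℕ} (hk : ∀ j < k, |(path ω j).1.1| < ρ ∧ (path ω j).1.2 < h) :
    k + 1 ≤ (dm ρ h t).len (fl ω ρ h) ∧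
      (dm ρ h t).walk (fl ω ρ h) ((dm ρ h t).len (fl ω ρ h) - 1 - k) = path ω k := by
  have hok := dm_ok hρ hh h1 h2
  have hL := walk_len hok (fl_sub ω ρ h t)
  set L := (dm ρ h t).len (fl ω ρ h) with hLdef
  have hne : ∀ σ : St, σ.1.2 < h → σ ≠ (dm ρ h t).start := by
    rintro σ h3 rfl
    simp only [Dm.start, dm] at h3
    omega
  induction k with
  | zero =>
    have hpos : L ≠ 0 := by
      intro h0
      rw [h0, walk_zero] at hL
      exact hne Dm.stop (by simp only [Dm.stop]; omega) hL.symm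
    refine ⟨by omega, ?_⟩
    obtain ⟨m, hm⟩ : ∃ m, L = m + 1 := ⟨L - 1, by omega⟩
    rw [hm] at hL ⊢
    rw [walk_succ, ← first' hh ω] at hL
    exact (nxt_bij _).1 hL
  | succ k ih =>
    obtain ⟨h3, h4⟩ := ih (fun j hj => hk j (by omega))
    obtain ⟨h5, h6⟩ := hk k (by omega)
    have h7 : L - 1 - k ≠ 0 := by
      intro h0
      rw [h0, walk_zero] at h4
      exact hne _ h6 h4.symm
    refine ⟨by omega, ?_⟩
    obtain ⟨m, hm⟩ : ∃ m, L - 1 - k = m + 1 := ⟨L - 1 - k - 1, by omega⟩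
    have hm' : L - 1 - (k + 1) = m := by omega
    rw [hm, walk_succ] at h4
    rw [hm', path_succ, ← step_congr (G := (dm ρ h t).cfg (fl ω ρ h)), ← h4, step_nxt]
    intro e he
    exact cfg_opn' ω (path_nonneg ω k) h5 h6 he

/-- the states of the path are visited in the box -/
theorem vis_path {ρ h t : ℤ} (hρ : 1 ≤ ρ) (hh : 1 ≤ h) (h1 : -ρ ≤ t) (h2 : t ≤ ρ) (ω : Conf)
    {k : ℕ} (hk : ∀ j < k, |(path ω j).1.1| < ρ ∧ (path ω j).1.2 < h) :
    (dm ρ h t).Vis (fl ω ρ h) (path ω k) := by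
  obtain ⟨h3, h4⟩ := couple' hρ hh h1 h2 ω hk
  exact ⟨_, by omega, h4⟩

/-- The first visit of the row `h` is from below. -/
theorem hit_se {ω : Conf} {h : ℤ} (hh : 1 ≤ h) {T : ℕ} (hT : (path ω T).1.2 = h)
    (hlt : ∀ j < T, (path ω j).1.2 < h) : (path ω T).2 = .se := by
  obtain ⟨k, rfl⟩ : ∃ k, T = k + 1 := by
    refine ⟨T - 1, ?_⟩
    have : T ≠ 0 := by
      rintro rfl
      simp only [path] at hT
      omega
    omega
  have h1 := hlt k (by omega)
  rw [path_succ] at hT ⊢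
  generalize path ω k = σ at h1 hT ⊢
  obtain ⟨⟨x, y⟩, q⟩ := σ
  simp only at h1
  cases q <;> simp only [step] at hT ⊢ <;> split_ifs at hT ⊢ <;> simp only at hT ⊢ <;> omega

/-- If the path visits the row `h` first at time `T`, then it is the reversed path of the box
whose start is at this point. -/
theorem len_hit {ρ h : ℤ} (hρ : 1 ≤ ρ) (hh : 1 ≤ h) (ω : Conf) {T : ℕ}
    (hT : (path ω T).1.2 = h) (hlt : ∀ j < T, |(path ω j).1.1| < ρ ∧ (path ω j).1.2 < h)
    (hx : |(path ω T).1.1| ≤ ρ) :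
    (dm ρ h (path ω T).1.1).len (fl ω ρ h) = T + 2 ∧
      ∀ k ≤ T, (dm ρ h (path ω T).1.1).walk (fl ω ρ h) (T + 1 - k) = path ω k := by
  rw [abs_le] at hx
  have hok := dm_ok hρ hh hx.1 hx.2
  have hse := hit_se hh hT (fun j hj => (hlt j hj).2)
  obtain ⟨h3, h4⟩ := couple' hρ hh hx.1 hx.2 ω hlt
  obtain ⟨t, ht⟩ : ∃ t, t = (path ω T).1.1 := ⟨_, rfl⟩
  have hp : path ω T = ((t, h), .se) := by
    rw [ht, ← hT, ← hse]
  rw [← ht] at h3 h4 hok hx ⊢
  have hst : (dm ρ h t).walk (fl ω ρ h) 1 = ((t, h), .se) := by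
    rw [show (1 : ℕ) = 0 + 1 from rfl, walk_succ, walk_zero]
    have e : (dm ρ h t).start = ((t, h), .ne) := rfl
    have h5 : ae (((t, h), .ne) : St) ∉ (dm ρ h t).cfg (fl ω ρ h) := by
      rw [cfg_iff, ae_ne]
      simp
      omega
    rw [e, nxt_closed h5]
    rfl
  obtain ⟨L, hL⟩ : ∃ L, L = (dm ρ h t).len (fl ω ρ h) := ⟨_, rfl⟩
  rw [← hL] at h3 h4 ⊢
  have hkey : L - 1 - T = 1 := by
    rcases Nat.lt_trichotomy (L - 1 - T) 1 with h6 | h6 | h6
    · exfalso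
      have h7 : L - 1 - T = 0 := by omega
      rw [h7, walk_zero, hp] at h4
      have : (Q4.ne : Q4) = .se := (Prod.mk.inj h4).2
      exact absurd this (by decide)
    · exact h6
    · exfalso
      have h7 := walk_inj hok (fl_sub ω ρ h t) h6 (by rw [← hL]; omega)
      rw [hst, h4, hp] at h7
      exact h7 rfl
  refine ⟨by omega, fun k hk => ?_⟩
  obtain ⟨h8, h9⟩ := couple' hρ hh hx.1 hx.2 ω (k := k) (fun j hj => hlt j (by omega))
  rw [← hL] at h8 h9
  rw [← h9]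
  congr 1
  omega

end TH992.L
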