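import Pool.Agent.TH992.L.UpH
import Pool.Agent.H984R4.HN.TailLow
import Pool.Agent.H984R4.HN.Mom

/-!
Bounds which hold eventually.
-/

set_option autoImplicit false

namespace TH992.L

open H974 Finset H342P H984P H984H MeasureTheory Filter Topology TH992.T

/-- the iterated logarithm -/
noncomputable def ll (n : ℕ) : ℝ := Real.log (Real.log n)

/-- the lower tail of `reach` -/
theorem reach_tail {C : ℝ} (hC : 0 < C) (hU : TwoUp C (1/4)) : ∃ l : ℝ, 0 < l ∧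
    ∀ (n : ℕ) (y u : ℝ), 1/3 ≤ y → 0 ≤ u → u * (20 * y) ^ (7/4 : ℝ) ≤ n →
      perc.real {ω | reach n ω ≤ y} ≤ 9 * Real.exp (-(u / l) ^ (8 : ℕ)) := by
  obtain ⟨l, hl, h⟩ := len_tail hC hU
  refine ⟨l, hl, fun n y u hy hu hn => ?_⟩
  obtain ⟨ρ, hρd⟩ : ∃ ρ : ℤ, ρ = ⌈y⌉ + 2 := ⟨_, rfl⟩
  have hceil : 1 ≤ ⌈y⌉ := Int.one_le_ceil_iff.mpr (by linarith)
  have hρ : 1 ≤ ρ := by omega
  have hlt := Int.ceil_lt_add_one y
  have hρr : (1 : ℝ) ≤ ρ := by exact_mod_cast hρ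
  have hρ10 : (ρ : ℝ) ≤ 10 * y := by
    rw [hρd]; push_cast; linarith
  have hsub : {ω : Conf | reach n ω ≤ y} ⊆
      {ω : Conf | (fun F => u * (20 * y) ^ (7/4 : ℝ) ≤ ((bx ρ).len F : ℝ)) (cut ω ρ)} := by
    intro ω hω
    have h1 := TailLow_stay (n := n) (ω := ω) (y := y) hω
    rw [← hρd] at h1
    have h2 := (couple hρ ω (k := n) (fun j hj => h1 j hj.le)).1
    show u * (20 * y) ^ (7/4 : ℝ) ≤ (((bx ρ).len (cut ω ρ) : ℕ) : ℝ)
    refine hn.trans ?_
    exact_mod_cast (by omega : n ≤ (bx ρ).len (cut ω ρ))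
  have h1 := measureReal_mono (μ := perc) hsub
  rw [perc_cut ρ (fun F => u * (20 * y) ^ (7/4 : ℝ) ≤ ((bx ρ).len F : ℝ))] at h1
  refine h1.trans ?_
  refine h (bx ρ) (20 * y) (bx_ok hρ) (by linarith) ?_ ?_ u hu
  · simp only [bx]; push_cast; linarith
  · simp only [bx]; linarith

theorem log_two_pos : 0 < Real.log 2 := Real.log_pos (by norm_num)

theorem ll_pow (k : ℕ) (hk : 1 ≤ k) : ll (2 ^ k) = Real.log k + Real.log (Real.log 2) := by
  unfold ll
  have h0 : (0 : ℝ) < k := by exact_mod_cast hk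
  push_cast
  rw [Real.log_pow, Real.log_mul h0.ne' log_two_pos.ne']

theorem ll_mono {m n : ℕ} (hm : 3 ≤ m) (h : m ≤ n) : ll m ≤ ll n := by
  unfold ll
  have h3 : (3 : ℝ) ≤ m := by exact_mod_cast hm
  have h1 : 0 < Real.log m := Real.log_pos (by linarith)
  refine Real.log_le_log h1 (Real.log_le_log (by linarith) (by exact_mod_cast h))

theorem ll_lower {n k : ℕ} (hk : 7 ≤ k) (hn : 2 ^ k ≤ n) : Real.log k / 2 ≤ ll n := by
  have h8 : 3 ≤ 2 ^ k := by
    calc 3 ≤ 2 ^ 2 := by norm_num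
      _ ≤ 2 ^ k := Nat.pow_le_pow_right (by norm_num) (by omega)
  refine le_trans ?_ (ll_mono h8 hn)
  rw [ll_pow k (by omega)]
  have h1 : (7 : ℝ) ≤ k := by exact_mod_cast hk
  -- log k / 2 ≥ - log log 2
  have h2 : Real.log 2 > 0.6931471803 := Real.log_two_gt_d9
  have h3 : -Real.log (Real.log 2) ≤ Real.log k / 2 := by
    have h4 : -Real.log (Real.log 2) = Real.log ((Real.log 2)⁻¹) := (Real.log_inv _).symm
    rw [h4]
    have h5 : Real.log ((Real.log 2)⁻¹) ≤ Real.log 2 := by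
      refine Real.log_le_log (by positivity) ?_
      rw [inv_le_comm₀ log_two_pos (by norm_num)]
      linarith
    have h6 : Real.log 2 * 2 ≤ Real.log k := by
      have : Real.log 2 * 2 = Real.log (2 ^ 2) := by rw [Real.log_pow]; push_cast; ring
      rw [this]
      exact Real.log_le_log (by norm_num) (by linarith)
    linarith
  linarith

theorem ll_upper {n k : ℕ} (hk : 1 ≤ k) (h2 : 2 ≤ n) (hn : n ≤ 2 ^ k) : ll n ≤ Real.log k := by
  unfold ll
  have h0 : (0 : ℝ) < k := by exact_mod_cast hk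
  have h1 : 0 < Real.log n := Real.log_pos (by exact_mod_cast h2)
  refine Real.log_le_log h1 ?_
  have h3 : Real.log n ≤ Real.log ((2 : ℝ) ^ k) := by
    refine Real.log_le_log (by exact_mod_cast (by omega : 0 < n)) ?_
    exact_mod_cast hn
  rw [Real.log_pow] at h3
  have h4 : Real.log 2 ≤ 1 := by
    have := Real.log_two_lt_d9
    linarith
  nlinarith

theorem log2 {n : ℕ} (hn : n ≠ 0) : 2 ^ (Nat.log 2 n) ≤ n ∧ n < 2 ^ (Nat.log 2 n + 1) :=
  ⟨Nat.pow_log_le_self 2 hn, Nat.lt_pow_succ_log_self (by norm_num) n⟩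

/-- eventual lower bound -/
theorem ev_low {C : ℝ} (hC : 0 < C) (hU : TwoUp C (1/4)) : ∃ c : ℝ, 0 < c ∧
    ∀ᵐ ω ∂perc, ∀ᶠ n : ℕ in atTop,
      c * (n : ℝ) ^ (4/7 : ℝ) / (ll n) ^ (1/14 : ℝ) ≤ reach n ω := by
  obtain ⟨l, hl, h⟩ := reach_tail hC hU
  obtain ⟨q, hq⟩ : ∃ q : ℝ, q = min 1 (1 / (2 * l ^ 8)) := ⟨_, rfl⟩
  have hq0 : 0 < q := by rw [hq]; exact lt_min one_pos (by positivity)
  have hq1 : q ≤ 1 := by rw [hq]; exact min_le_left _ _
  have hq2 : q * (2 * l ^ 8) ≤ 1 := by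
    have : q ≤ 1 / (2 * l ^ 8) := by rw [hq]; exact min_le_right _ _
    rwa [le_div_iff₀ (by positivity)] at this
  -- y_k
  obtain ⟨y, hy⟩ : ∃ y : ℕ → ℝ, ∀ k, y k =
    q / 20 * ((2 : ℝ) ^ k) ^ (4/7 : ℝ) / (Real.log k) ^ (1/14 : ℝ) := ⟨_, fun _ => rfl⟩
  have hlog : Tendsto (fun k : ℕ => Real.log (k : ℝ)) atTop atTop :=
    Real.tendsto_log_atTop.comp tendsto_natCast_atTop_atTop
  have hev1 : ∀ᶠ k : ℕ in atTop, 1 ≤ Real.log k := hlog.eventually_ge_atTop 1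
  have hev2 : ∀ᶠ k : ℕ in atTop, 1/3 ≤ y k := by
    have h1 : Tendsto (fun k : ℕ => (k : ℝ) / 2 ^ k) atTop (𝓝 0) := by
      have := tendsto_pow_const_div_const_pow_of_one_lt 1 (show (1:ℝ) < 2 by norm_num)
      simpa using this
    have h2 : ∀ᶠ k : ℕ in atTop, (k : ℝ) / 2 ^ k ≤ (3 * q / 20) ^ (14 : ℕ) :=
      h1.eventually_le_const (by positivity)
    filter_upwards [h2, hev1, eventually_ge_atTop 1] with k hk hk1 hk0
    rw [hy]
    have hkr : (0 : ℝ) < k := by exact_mod_cast hk0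
    have h3 : Real.log k ≤ k := (Real.log_le_sub_one_of_pos hkr).trans (by linarith)
    have hP : (0 : ℝ) < 2 ^ k := by positivity
    rw [div_le_iff₀ hP] at hk
    have h4 : (Real.log k) ^ (1/14 : ℝ) ≤ (3 * q / 20) * ((2 : ℝ) ^ k) ^ (1/14 : ℝ) := by
      calc (Real.log k) ^ (1/14 : ℝ) ≤ ((3 * q / 20) ^ (14 : ℕ) * 2 ^ k) ^ (1/14 : ℝ) :=
            Real.rpow_le_rpow (by linarith) (h3.trans hk) (by norm_num)
        _ = _ := by
          rw [Real.mul_rpow (by positivity) hP.le, ← Real.rpow_natCast (3 * q / 20) 14,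
            ← Real.rpow_mul (by positivity)]
          norm_num
    have h5 : ((2 : ℝ) ^ k) ^ (1/14 : ℝ) ≤ ((2 : ℝ) ^ k) ^ (4/7 : ℝ) :=
      Real.rpow_le_rpow_of_exponent_le (one_le_pow₀ (by norm_num)) (by norm_num)
    have h6 : 0 < (Real.log k) ^ (1/14 : ℝ) := Real.rpow_pos_of_pos (by linarith) _
    rw [le_div_iff₀ h6]
    have h7 := mul_le_mul_of_nonneg_left h5 (show 0 ≤ 3 * q / 20 by positivity)
    linarith
  obtain ⟨k0, hk0⟩ := eventually_atTop.mp (hev1.and hev2)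
  have hbc := Mom_bc (fun k => {ω | k0 ≤ k ∧ reach (2 ^ k) ω ≤ y k})
    (fun k => 9 * (1 / (k : ℝ) ^ 2)) ((Real.summable_one_div_nat_pow.mpr one_lt_two).mul_left 9)
    (fun k => by
      by_cases hk : k0 ≤ k
      · have e : {ω : Conf | k0 ≤ k ∧ reach (2 ^ k) ω ≤ y k} = {ω | reach (2 ^ k) ω ≤ y k} := by
          ext ω; simp [hk]
        rw [e]
        obtain ⟨h1, h2⟩ := hk0 k hk
        have hL : 0 < Real.log k := by linarith
        have hkr : (0 : ℝ) < k := by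
          by_contra hcon
          push Not at hcon
          have : (k : ℝ) = 0 := le_antisymm hcon (Nat.cast_nonneg k)
          rw [this, Real.log_zero] at hL
          exact absurd hL (lt_irrefl _)
        have hlk : 0 < (Real.log k) ^ (1/8 : ℝ) := Real.rpow_pos_of_pos hL _
        refine (h (2 ^ k) (y k) ((Real.log k) ^ (1/8 : ℝ) / q ^ (7/4 : ℝ)) h2 (by positivity)
          (le_of_eq ?_)).trans ?_
        · rw [hy]
          have e1 : 20 * (q / 20 * ((2 : ℝ) ^ k) ^ (4/7 : ℝ) / (Real.log k) ^ (1/14 : ℝ)) =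
              q * ((2 : ℝ) ^ k) ^ (4/7 : ℝ) / (Real.log k) ^ (1/14 : ℝ) := by ring
          rw [e1, Real.div_rpow (by positivity) (by positivity), Real.mul_rpow hq0.le (by positivity),
            ← Real.rpow_mul (by positivity), ← Real.rpow_mul hL.le]
          norm_num
          have h9 : (0 : ℝ) < q ^ (7/4 : ℝ) := by positivity
          field_simp
        · refine mul_le_mul_of_nonneg_left ?_ (by norm_num)
          have e2 : ((Real.log k) ^ (1/8 : ℝ) / q ^ (7/4 : ℝ) / l) ^ (8 : ℕ) =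
              Real.log k / (q ^ (14 : ℕ) * l ^ 8) := by
            rw [div_pow, div_pow, ← Real.rpow_natCast ((Real.log k) ^ (1/8 : ℝ)),
              ← Real.rpow_natCast (q ^ (7/4 : ℝ)), ← Real.rpow_mul hL.le, ← Real.rpow_mul hq0.le]
            norm_num
            rw [div_div]
          rw [e2]
          have h10 : q ^ (14 : ℕ) * l ^ 8 ≤ 1 / 2 := by
            have h11 : q ^ (14 : ℕ) ≤ q := pow_le_of_le_one hq0.le hq1 (by norm_num)
            have h12 : 0 < l ^ 8 := by positivity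
            nlinarith
          have h13 : 2 * Real.log k ≤ Real.log k / (q ^ (14 : ℕ) * l ^ 8) := by
            rw [le_div_iff₀ (by positivity)]
            nlinarith
          have h14 : Real.exp (-(2 * Real.log k)) = 1 / (k : ℝ) ^ 2 := by
            rw [Real.exp_neg, mul_comm, Real.exp_mul, Real.exp_log hkr, one_div]
            norm_num
          rw [← h14]
          exact Real.exp_le_exp.mpr (by linarith)
      · have e : {ω : Conf | k0 ≤ k ∧ reach (2 ^ k) ω ≤ y k} = ∅ := by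
          ext ω; simp [hk]
        rw [e, measureReal_empty]
        positivity)
  refine ⟨q / 80, by positivity, ?_⟩
  filter_upwards [hbc] with ω hω
  have hω' := Mom_log_tendsto.eventually (hω.and (eventually_ge_atTop (max k0 7)))
  filter_upwards [hω', eventually_ge_atTop 2] with n hn hn2
  obtain ⟨h1, h2⟩ := hn
  obtain ⟨k, hk⟩ : ∃ k, k = Nat.log 2 n := ⟨_, rfl⟩
  rw [← hk] at h1 h2
  have hk0' : k0 ≤ k := (le_max_left _ _).trans h2
  have hk7 : 7 ≤ k := (le_max_right _ _).trans h2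
  have h3 : y k < reach (2 ^ k) ω := by
    by_contra hcon
    push Not at hcon
    exact h1 ⟨hk0', hcon⟩
  obtain ⟨g1, g2⟩ := log2 (n := n) (by omega)
  rw [← hk] at g1 g2
  refine le_trans ?_ (h3.le.trans (reach_mono ω g1))
  obtain ⟨hL1, -⟩ := hk0 k hk0'
  have hll := ll_lower hk7 g1
  rw [hy]
  have h4 : (n : ℝ) ^ (4/7 : ℝ) ≤ 2 * ((2 : ℝ) ^ k) ^ (4/7 : ℝ) := by
    have h5 : (n : ℝ) ≤ 2 * 2 ^ k := by
      have : (n : ℝ) ≤ ((2 ^ (k + 1) : ℕ) : ℝ) := by exact_mod_cast g2.le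
      rw [pow_succ] at this
      push_cast at this
      linarith
    calc (n : ℝ) ^ (4/7 : ℝ) ≤ (2 * 2 ^ k) ^ (4/7 : ℝ) :=
          Real.rpow_le_rpow (Nat.cast_nonneg n) h5 (by norm_num)
      _ = 2 ^ (4/7 : ℝ) * ((2 : ℝ) ^ k) ^ (4/7 : ℝ) := Real.mul_rpow (by norm_num) (by positivity)
      _ ≤ 2 * ((2 : ℝ) ^ k) ^ (4/7 : ℝ) := by
        refine mul_le_mul_of_nonneg_right ?_ (by positivity)
        calc (2 : ℝ) ^ (4/7 : ℝ) ≤ 2 ^ (1 : ℝ) :=
              Real.rpow_le_rpow_of_exponent_le (by norm_num) (by norm_num)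
          _ = 2 := Real.rpow_one 2
  have h6 : (Real.log k) ^ (1/14 : ℝ) / 2 ≤ (ll n) ^ (1/14 : ℝ) := by
    calc (Real.log k) ^ (1/14 : ℝ) / 2 ≤ (Real.log k / 2) ^ (1/14 : ℝ) := by
          rw [Real.div_rpow (by linarith) (by norm_num)]
          refine div_le_div_of_nonneg_left (Real.rpow_nonneg (by linarith) _) (by positivity) ?_
          calc (2 : ℝ) ^ (1/14 : ℝ) ≤ 2 ^ (1 : ℝ) :=
                Real.rpow_le_rpow_of_exponent_le (by norm_num) (by norm_num)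
            _ = 2 := Real.rpow_one 2
      _ ≤ _ := Real.rpow_le_rpow (by linarith) hll (by norm_num)
  have h7 : 0 < (Real.log k) ^ (1/14 : ℝ) := Real.rpow_pos_of_pos (by linarith) _
  have h8 : 0 < ((2 : ℝ) ^ k) ^ (4/7 : ℝ) := by positivity
  have h9 : 0 < (ll n) ^ (1/14 : ℝ) := by linarith
  rw [div_le_div_iff₀ h9 h7]
  have h10 : q / 80 * (n : ℝ) ^ (4/7 : ℝ) * (Real.log k) ^ (1/14 : ℝ) ≤
      q / 80 * (2 * ((2 : ℝ) ^ k) ^ (4/7 : ℝ)) * (2 * (ll n) ^ (1/14 : ℝ)) := by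
    refine mul_le_mul (mul_le_mul_of_nonneg_left h4 (by positivity)) (by linarith) h7.le
      (by positivity)
  linarith

/-- eventual upper bound -/
theorem ev_up {a A : ℝ} (ha : 0 < a) (hA : 0 < A)
    (hup : ∀ (n : ℕ) (x : ℝ), 1 ≤ n → 0 < x →
      perc.real {ω | x * (n : ℝ) ^ (4/7 : ℝ) ≤ reach n ω} ≤ A * Real.exp (-(a * x ^ (7/3 : ℝ)))) :
    ∃ C : ℝ, 0 < C ∧ ∀ᵐ ω ∂perc, ∀ᶠ n : ℕ in atTop,
      reach n ω ≤ C * (n : ℝ) ^ (4/7 : ℝ) * (ll n) ^ (3/7 : ℝ) := by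
  obtain ⟨q, hq⟩ : ∃ q : ℝ, q = (2 / a) ^ (3/7 : ℝ) := ⟨_, rfl⟩
  have hq0 : 0 < q := by rw [hq]; positivity
  have hq2 : q ^ (7/3 : ℝ) = 2 / a := by
    rw [hq, ← Real.rpow_mul (by positivity)]; norm_num
  have hlog : Tendsto (fun k : ℕ => Real.log (k : ℝ)) atTop atTop :=
    Real.tendsto_log_atTop.comp tendsto_natCast_atTop_atTop
  have hev1 : ∀ᶠ k : ℕ in atTop, 1 ≤ Real.log k := hlog.eventually_ge_atTop 1
  obtain ⟨k0, hk0⟩ := eventually_atTop.mp hev1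
  have hbc := Mom_bc (fun k => {ω | k0 ≤ k ∧
      q * (Real.log k) ^ (3/7 : ℝ) * ((2 ^ k : ℕ) : ℝ) ^ (4/7 : ℝ) ≤ reach (2 ^ k) ω})
    (fun k => A * (1 / (k : ℝ) ^ 2)) ((Real.summable_one_div_nat_pow.mpr one_lt_two).mul_left A)
    (fun k => by
      by_cases hk : k0 ≤ k
      · have hL1 := hk0 k hk
        have hL : 0 < Real.log k := by linarith
        have hkr : (0 : ℝ) < k := by
          by_contra hcon
          push Not at hcon
          have : (k : ℝ) = 0 := le_antisymm hcon (Nat.cast_nonneg k)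
          rw [this, Real.log_zero] at hL
          exact absurd hL (lt_irrefl _)
        refine (measureReal_mono (fun ω hω => hω.2)).trans
          ((hup (2 ^ k) (q * (Real.log k) ^ (3/7 : ℝ)) Nat.one_le_two_pow (by positivity)).trans ?_)
        refine mul_le_mul_of_nonneg_left (le_of_eq ?_) hA.le
        rw [Real.mul_rpow hq0.le (by positivity), hq2, ← Real.rpow_mul hL.le]
        have e : a * (2 / a * (Real.log k) ^ ((3/7 : ℝ) * (7/3))) = 2 * Real.log k := by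
          norm_num
          field_simp
        rw [e, Real.exp_neg, mul_comm, Real.exp_mul, Real.exp_log hkr, one_div]
        norm_num
      · have e : {ω : Conf | k0 ≤ k ∧ q * (Real.log k) ^ (3/7 : ℝ) *
            ((2 ^ k : ℕ) : ℝ) ^ (4/7 : ℝ) ≤ reach (2 ^ k) ω} = ∅ := by
          ext ω; simp [hk]
        rw [e, measureReal_empty]
        positivity)
  refine ⟨8 * q, by positivity, ?_⟩
  filter_upwards [hbc] with ω hω
  have hsucc : Tendsto (fun n : ℕ => Nat.log 2 n + 1) atTop atTop :=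
    tendsto_atTop_mono (fun n => Nat.le_succ _) Mom_log_tendsto
  have hω' := hsucc.eventually (hω.and (eventually_ge_atTop (max k0 8)))
  filter_upwards [hω', eventually_ge_atTop 2] with n hn hn2
  obtain ⟨h1, h2⟩ := hn
  obtain ⟨k, hk⟩ : ∃ k, k = Nat.log 2 n := ⟨_, rfl⟩
  rw [← hk] at h1 h2
  have hk0' : k0 ≤ k + 1 := (le_max_left _ _).trans h2
  have hk7 : 8 ≤ k + 1 := (le_max_right _ _).trans h2
  have h3 : reach (2 ^ (k + 1)) ω < q * (Real.log (k + 1 : ℕ)) ^ (3/7 : ℝ) *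
      ((2 ^ (k + 1) : ℕ) : ℝ) ^ (4/7 : ℝ) := by
    by_contra hcon
    push Not at hcon
    exact h1 ⟨hk0', hcon⟩
  obtain ⟨g1, g2⟩ := log2 (n := n) (by omega)
  rw [← hk] at g1 g2
  refine ((reach_mono ω g2.le).trans h3.le).trans ?_
  have hll := ll_lower (by omega : 7 ≤ k) g1
  have hk7r : (7 : ℝ) ≤ k := by exact_mod_cast (by omega : 7 ≤ k)
  have hlk : Real.log (k + 1 : ℕ) ≤ 2 * Real.log k := by
    have e : 2 * Real.log k = Real.log ((k : ℝ) ^ 2) := by rw [Real.log_pow]; push_cast; ring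
    rw [e]
    refine Real.log_le_log (by positivity) ?_
    push_cast
    nlinarith
  have hlk0 : 0 ≤ Real.log (k + 1 : ℕ) := by linarith [hk0 _ hk0']
  have h4 : (Real.log (k + 1 : ℕ)) ^ (3/7 : ℝ) ≤ 4 * (ll n) ^ (3/7 : ℝ) := by
    have h5 : Real.log (k + 1 : ℕ) ≤ 4 * ll n := by linarith
    have hll0 : 0 ≤ ll n := by linarith
    calc (Real.log (k + 1 : ℕ)) ^ (3/7 : ℝ) ≤ (4 * ll n) ^ (3/7 : ℝ) :=
          Real.rpow_le_rpow hlk0 h5 (by norm_num)
      _ = 4 ^ (3/7 : ℝ) * (ll n) ^ (3/7 : ℝ) := Real.mul_rpow (by norm_num) hll0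
      _ ≤ _ := by
        refine mul_le_mul_of_nonneg_right ?_ (Real.rpow_nonneg hll0 _)
        calc (4 : ℝ) ^ (3/7 : ℝ) ≤ 4 ^ (1 : ℝ) :=
              Real.rpow_le_rpow_of_exponent_le (by norm_num) (by norm_num)
          _ = 4 := Real.rpow_one 4
  have h6 : ((2 ^ (k + 1) : ℕ) : ℝ) ^ (4/7 : ℝ) ≤ 2 * (n : ℝ) ^ (4/7 : ℝ) := by
    have h7 : ((2 ^ (k + 1) : ℕ) : ℝ) ≤ 2 * n := by
      have : ((2 ^ k : ℕ) : ℝ) ≤ (n : ℝ) := by exact_mod_cast g1
      rw [pow_succ]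
      push_cast at this ⊢
      linarith
    calc ((2 ^ (k + 1) : ℕ) : ℝ) ^ (4/7 : ℝ) ≤ (2 * n) ^ (4/7 : ℝ) :=
          Real.rpow_le_rpow (Nat.cast_nonneg _) h7 (by norm_num)
      _ = 2 ^ (4/7 : ℝ) * (n : ℝ) ^ (4/7 : ℝ) := Real.mul_rpow (by norm_num) (Nat.cast_nonneg _)
      _ ≤ _ := by
        refine mul_le_mul_of_nonneg_right ?_ (by positivity)
        calc (2 : ℝ) ^ (4/7 : ℝ) ≤ 2 ^ (1 : ℝ) :=
              Real.rpow_le_rpow_of_exponent_le (by norm_num) (by norm_num)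
          _ = 2 := Real.rpow_one 2
  have h8 : 0 ≤ (Real.log (k + 1 : ℕ)) ^ (3/7 : ℝ) := Real.rpow_nonneg hlk0 _
  calc q * (Real.log (k + 1 : ℕ)) ^ (3/7 : ℝ) * ((2 ^ (k + 1) : ℕ) : ℝ) ^ (4/7 : ℝ)
      ≤ q * (4 * (ll n) ^ (3/7 : ℝ)) * (2 * (n : ℝ) ^ (4/7 : ℝ)) :=
        mul_le_mul (mul_le_mul_of_nonneg_left h4 hq0.le) h6 (by positivity)
          (mul_nonneg hq0.le (h8.trans h4))
    _ = _ := by ring

end TH992.L
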