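import Pool.Agent.TH992.L.Sc

/-!
The probability that the path is fast.
-/

set_option autoImplicit false

namespace TH992.L

open H974 Finset H342P H984P H984H TH992.T

/-- Chernoff bound on a finite set of boxes -/
theorem chernG {p : Edg → ℝ} (hp : Ok p) {S : Finset Edg} (G : Finset (ℕ × ℕ))
    (T : ℕ × ℕ → Finset Edg) (hT : ∀ q, T q ⊆ S)
    (hd : ∀ q r : ℕ × ℕ, q ≠ r → q.1 % 3 = r.1 % 3 → q.2 % 3 = r.2 % 3 → Disjoint (T q) (T r))
    (Y : ℕ × ℕ → Finset Edg → ℝ) (hY : ∀ q, ∀ F, F ⊆ S → Y q F = Y q (F ∩ T q)) {M : ℝ}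
    (hM1 : 1 ≤ M) (hM : ∀ q, Ex p S (fun F => Real.exp (Y q F)) ≤ M) (t : ℝ) :
    Pr p S (fun F => 9 * t ≤ ∑ q ∈ G, Y q F) ≤ 9 * (Real.exp (-t) * M ^ G.card) := by
  classical
  set K := range 3 ×ˢ range 3 with hK
  have hmap : ∀ q ∈ G, (q.1 % 3, q.2 % 3) ∈ K := by
    intro q _
    rw [hK, mem_product, mem_range, mem_range]
    exact ⟨Nat.mod_lt _ (by norm_num), Nat.mod_lt _ (by norm_num)⟩
  have hfib : ∀ F, ∑ q ∈ G, Y q F =
      ∑ c ∈ K, ∑ q ∈ G with (q.1 % 3, q.2 % 3) = c, Y q F := by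
    intro F
    exact (sum_fiberwise_of_maps_to hmap _).symm
  have hcard : K.card = 9 := by rw [hK, card_product, card_range]
  have h1 : Pr p S (fun F => 9 * t ≤ ∑ q ∈ G, Y q F) ≤
      Ex p S (fun F => ∑ c ∈ K, ind (t ≤ ∑ q ∈ G with (q.1 % 3, q.2 % 3) = c, Y q F)) := by
    unfold Pr
    refine Ex_mono hp fun F _ => ?_
    by_cases h : 9 * t ≤ ∑ q ∈ G, Y q F
    · rw [ind_of h]
      rw [hfib] at h
      obtain ⟨c, hc, hc2⟩ : ∃ c ∈ K, t ≤ ∑ q ∈ G with (q.1 % 3, q.2 % 3) = c, Y q F := by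
        by_contra hcon
        push Not at hcon
        have h2 : ∑ c ∈ K, ∑ q ∈ G with (q.1 % 3, q.2 % 3) = c, Y q F < ∑ c ∈ K, t :=
          sum_lt_sum_of_nonempty (card_pos.mp (by rw [hcard]; norm_num)) hcon
        rw [sum_const, hcard, nsmul_eq_mul] at h2
        push_cast at h2
        linarith
      calc (1:ℝ) = ind (t ≤ ∑ q ∈ G with (q.1 % 3, q.2 % 3) = c, Y q F) := (ind_of hc2).symm
        _ ≤ _ := single_le_sum (f := fun c => ind (t ≤ ∑ q ∈ G with (q.1 % 3, q.2 % 3) = c, Y q F))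
          (fun c _ => ind_nonneg _) hc
    · rw [ind_not_of h]
      exact sum_nonneg fun c _ => ind_nonneg _
  refine h1.trans ?_
  rw [Ex_sum]
  have h2 : ∀ c ∈ K, Ex p S (fun F => ind (t ≤ ∑ q ∈ G with (q.1 % 3, q.2 % 3) = c, Y q F)) ≤
      Real.exp (-t) * M ^ G.card := by
    intro c _
    have h3 := chern1 hp (G.filter (fun q => (q.1 % 3, q.2 % 3) = c)) T (fun i _ => hT i)
      (fun i hi j hj hij => by
        rw [mem_filter] at hi hj
        have e1 := hi.2.trans hj.2.symm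
        rw [Prod.mk.injEq] at e1
        exact hd i j hij e1.1 e1.2) Y (fun i _ => hY i) (fun i _ => hM i) t
    refine h3.trans (mul_le_mul_of_nonneg_left ?_ (Real.exp_pos _).le)
    exact pow_le_pow_right₀ hM1 (card_filter_le _ _)
  refine (sum_le_sum h2).trans ?_
  rw [sum_const, hcard, nsmul_eq_mul]
  push_cast
  exact le_refl _

/-- only the edges of the small box are used -/
theorem xs_loc {D : Dm} {s : ℕ} {v : Vtx} {F F' : Finset Edg}
    (h : ∀ e ∈ RE (v.1 - s) (v.1 + s) (v.2 - s) (v.2 + s),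
      e ∈ RE (v.1 - (D.bd v - 1)) (v.1 + (D.bd v - 1)) (v.2 - (D.bd v - 1)) (v.2 + (D.bd v - 1)) →
      (e ∈ F ↔ e ∈ F')) : xs D s v F = xs D s v F' := by
  unfold xs
  refine sum_congr rfl fun q _ => ?_
  split_ifs with hq
  · congr 1
    obtain ⟨m, hm'⟩ : ∃ m, m = min (s : ℤ) (D.bd v - 1) := ⟨_, rfl⟩
    rw [← hm']
    rcases le_or_gt m 0 with hm | hm
    · simp only [hm, true_or]
    · rw [two_inter hm F (T := RE (v.1 - m) (v.1 + m) (v.2 - m) (v.2 + m)) (subset_refl _),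
        two_inter hm F' (T := RE (v.1 - m) (v.1 + m) (v.2 - m) (v.2 + m)) (subset_refl _)]
      have e : F ∩ RE (v.1 - m) (v.1 + m) (v.2 - m) (v.2 + m) =
          F' ∩ RE (v.1 - m) (v.1 + m) (v.2 - m) (v.2 + m) := by
        ext e
        rw [mem_inter, mem_inter]
        refine and_congr_left fun he => h e ?_ ?_
        · exact RE_sub_RE (by omega) (by omega) (by omega) (by omega) he
        · exact RE_sub_RE (by omega) (by omega) (by omega) (by omega) he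
      rw [e]
  · rfl

/-- the corners of a visited vertex, in a smaller domain -/
theorem xs_vis2 {D D' : Dm} (hD : D.Ok) {F : Finset Edg} (hF : F ⊆ D.edges) (s : ℕ) {v : Vtx}
    (hv : (D'.l ≤ v.1 ∧ v.1 ≤ D'.r) ∧ 0 ≤ v.2 ∧ v.2 ≤ D'.h) (hb : D'.bd v ≤ D.bd v) :
    ∑ q : Q4, ind (D.Vis F (v, q)) ≤ xs D' s v F := by
  unfold xs
  refine sum_le_sum fun q _ => ?_
  rw [if_pos (xs_mem' q hv)]
  refine ind_mono fun h => ?_
  rcases le_or_gt (min (s : ℤ) (D'.bd v - 1)) 0 with hm | hm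
  · exact Or.inl hm
  · exact Or.inr (vis_two hD hF h hm (by
      have := min_le_right (s : ℤ) (D'.bd v - 1)
      simp only
      omega))

/-- the number of vertices with two arms in the tube -/
noncomputable def Tub (a K : ℕ) (F : Finset Edg) : ℝ :=
  ∑ q ∈ range 5 ×ˢ range (K - 1),
    Nb (xs (dm (4 * a) (K * a : ℕ) 0)) a (-(2 * (a : ℤ)) + q.1 * a) (2 * a + q.2 * a) F

theorem nb_congr {D : Dm} {a : ℕ} {b c : ℤ} {F F' : Finset Edg}
    (h : ∀ v ∈ Bq b c a, xs D a v F = xs D a v F') : Nb (xs D) a b c F = Nb (xs D) a b c F' := by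
  unfold Nb
  exact sum_congr rfl h

/-- points of the tube -/
theorem tub_pt {a K : ℕ} (ha : 1 ≤ a) {F F' : Finset Edg} {q : ℕ × ℕ}
    (hq : q ∈ range 5 ×ˢ range (K - 1))
    (hFF : ∀ e ∈ An (a : ℤ) (K * a : ℕ), (e ∈ F ↔ e ∈ F')) :
    Nb (xs (dm (4 * a) (K * a : ℕ) 0)) a (-(2 * (a : ℤ)) + q.1 * a) (2 * a + q.2 * a) F =
      Nb (xs (dm (4 * a) (K * a : ℕ) 0)) a (-(2 * (a : ℤ)) + q.1 * a) (2 * a + q.2 * a) F' := by
  have ha1 : (1 : ℤ) ≤ a := by exact_mod_cast ha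
  rw [mem_product, mem_range, mem_range] at hq
  refine nb_congr fun v hv => xs_loc fun e he1 he2 => hFF e ?_
  rw [mem_Bq] at hv
  have h1 : 0 ≤ (q.1 : ℤ) * a := by positivity
  have h2 : 0 ≤ (q.2 : ℤ) * a := by positivity
  have hbd : (dm (4 * a) (K * a : ℕ) 0).bd v ≤ v.1 + 4 * a ∧
      (dm (4 * a) (K * a : ℕ) 0).bd v ≤ 4 * a - v.1 ∧ (dm (4 * a) (K * a : ℕ) 0).bd v ≤ v.2 ∧
      (dm (4 * a) (K * a : ℕ) 0).bd v ≤ (K * a : ℕ) - v.2 := by
    unfold Dm.bd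
    simp only [dm]
    omega
  obtain ⟨d, hd⟩ : ∃ d, d = (dm (4 * a) (K * a : ℕ) 0).bd v := ⟨_, rfl⟩
  rw [← hd] at he2 hbd
  rw [mem_An]
  obtain ⟨x, y, _ | _⟩ := e
  · rw [mem_RE_false] at he1 he2 ⊢
    refine ⟨by omega, Or.inr (by simp only; omega), by simp⟩
  · rw [mem_RE_true] at he1 he2 ⊢
    refine ⟨by omega, Or.inr (by simp only; omega), by simp only; omega⟩

theorem tub_congr {a K : ℕ} (ha : 1 ≤ a) {F F' : Finset Edg}
    (hFF : ∀ e ∈ An (a : ℤ) (K * a : ℕ), (e ∈ F ↔ e ∈ F')) : Tub a K F = Tub a K F' := by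
  unfold Tub
  exact sum_congr rfl fun q hq => tub_pt ha hq hFF

/-- upper bound for the tube -/
theorem tub_pr {C : ℝ} (hC : 0 < C) (hU : TwoUp C (1/4)) {M : ℝ} (hM1 : 1 ≤ M)
    (hM : ∀ (D : Dm) (s : ℕ) (b c : ℤ), 1 ≤ s →
      Ex (fun _ => (1/2:ℝ)) D.edges (fun F => Real.exp (Yb (1/4) (xs D) s b c F / 2)) ≤ M)
    {a K : ℕ} (ha : 1 ≤ a) (t : ℝ) :
    P (An (a : ℤ) (K * a : ℕ)) (fun F => 18 * t * (a : ℝ) ^ (7/4 : ℝ) ≤ Tub a K F) ≤
      9 * (Real.exp (-t) * M ^ (5 * K)) := by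
  obtain ⟨D, hD⟩ : ∃ D : Dm, D = dm (4 * a) (K * a : ℕ) 0 := ⟨_, rfl⟩
  have hsub : An (a : ℤ) (K * a : ℕ) ⊆ D.edges := by
    rw [hD]; exact filter_subset _ _
  have e1 : P (An (a : ℤ) (K * a : ℕ)) (fun F => 18 * t * (a : ℝ) ^ (7/4 : ℝ) ≤ Tub a K F) =
      Pr (fun _ => (1/2:ℝ)) D.edges (fun F => 18 * t * (a : ℝ) ^ (7/4 : ℝ) ≤ Tub a K F) := by
    symm
    refine Pr_local hsub fun F _ => ?_
    rw [tub_congr ha (F' := F ∩ An (a : ℤ) (K * a : ℕ)) (fun e he => by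
      rw [mem_inter]; exact ⟨fun h => ⟨h, he⟩, fun h => h.1⟩)]
  rw [e1]
  have hf := xs_fam hC hU D
  have ha0 : (0 : ℝ) < a := by exact_mod_cast ha
  have hpos : 0 < (a : ℝ) ^ (7/4 : ℝ) := Real.rpow_pos_of_pos ha0 _
  have h1 := chernG two_ok (S := D.edges) (range 5 ×ˢ range (K - 1))
    (fun q => Tb D.edges a (-(2 * (a : ℤ)) + q.1 * a) (2 * a + q.2 * a))
    (fun q => inter_subset_right) (fun q q' hqq h1 h2 => Tb_disj ha hqq h1 h2)
    (fun q F => Yb (1/4) (xs D) a (-(2 * (a : ℤ)) + q.1 * a) (2 * a + q.2 * a) F / 2)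
    (fun q F hF => by
      simp only [Yb]
      rw [← Nb_local hf a _ _ F hF])
    hM1 (fun q => hM D a _ _ ha) t
  refine le_trans (Pr_mono two_ok fun F hF hx => ?_) (h1.trans ?_)
  · have e2 : Tub a K F = (2 * (a : ℝ) ^ (7/4 : ℝ)) * ∑ q ∈ range 5 ×ˢ range (K - 1),
        Yb (1/4) (xs D) a (-(2 * (a : ℤ)) + q.1 * a) (2 * a + q.2 * a) F / 2 := by
      unfold Tub
      rw [← hD, mul_sum]
      refine sum_congr rfl fun q _ => ?_
      unfold Yb
      have e2 : (2 - 1/4 : ℝ) = 7/4 := by norm_num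
      rw [e2]
      field_simp
    rw [e2] at hx
    have h2 : (2 * (a : ℝ) ^ (7/4 : ℝ)) * (9 * t) ≤ (2 * (a : ℝ) ^ (7/4 : ℝ)) *
        ∑ q ∈ range 5 ×ˢ range (K - 1),
        Yb (1/4) (xs D) a (-(2 * (a : ℤ)) + q.1 * a) (2 * a + q.2 * a) F / 2 := by linarith
    exact le_of_mul_le_mul_left h2 (by positivity)
  · refine mul_le_mul_of_nonneg_left (mul_le_mul_of_nonneg_left ?_ (Real.exp_pos _).le)
      (by norm_num)
    refine pow_le_pow_right₀ hM1 ?_
    rw [card_product, card_range, card_range]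
    omega

/-- walls and few vertices in the tube -/
def Fst (θ : ℝ) (a K : ℕ) (F : Finset Edg) : Prop :=
  (WL a (K * a : ℕ) F ∧ WR a (K * a : ℕ) (An a (K * a : ℕ)) F) ∧
    Tub a K F < 18 * (θ * K) * (a : ℝ) ^ (7/4 : ℝ)

theorem fast_pr {C : ℝ} (hC : 0 < C) (hU : TwoUp C (1/4)) : ∃ θ K2 : ℝ, 0 < θ ∧ 1 ≤ K2 ∧
    ∀ a K : ℕ, 1 ≤ a → 2 ≤ K →
      Real.exp (-(K2 * K)) ≤ P (An (a : ℤ) (K * a : ℕ)) (Fst θ a K) := by
  obtain ⟨M, hM1, hM⟩ := mom_fam hC hU
  have hM0 : 0 < M := by linarith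
  have hlM : 0 ≤ Real.log M := Real.log_nonneg hM1
  have hlq := log_q0
  refine ⟨5 * Real.log M - 6 * Real.log q0 + 3, 1 - 6 * Real.log q0, by linarith, by linarith,
    fun a K ha hK => ?_⟩
  obtain ⟨θ, hθ⟩ : ∃ θ, θ = 5 * Real.log M - 6 * Real.log q0 + 3 := ⟨_, rfl⟩
  rw [← hθ]
  have ha1 : (1 : ℤ) ≤ a := by exact_mod_cast ha
  obtain ⟨h, hh⟩ : ∃ h : ℕ, h = K * a := ⟨_, rfl⟩
  have hha : 2 * a ≤ h := by rw [hh]; exact Nat.mul_le_mul_right _ hK
  have hh2 : (2 : ℤ) ≤ h := by omega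
  have hm : (h : ℤ) ≤ 8 * a * K + 8 * a := by
    rw [hh]; push_cast
    have : 0 ≤ (K : ℤ) * a := by positivity
    nlinarith
  have t1 : TBE (-(2 * (a : ℤ))) (-(a : ℤ)) 0 h ⊆ An a h := by
    rintro ⟨x, y, _ | _⟩ he
    · rw [mem_TBE_false] at he
      rw [mem_An, mem_RE_false]
      refine ⟨by omega, Or.inl ?_, by simp⟩
      rw [le_abs]; simp only; omega
    · rw [mem_TBE_true] at he
      rw [mem_An, mem_RE_true]
      refine ⟨by omega, Or.inl ?_, by simp only; omega⟩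
      rw [le_abs]; simp only; omega
  have t2 : TBE (a : ℤ) (2 * a) 0 (h - 1) ⊆ dmp (An a h) := by
    rintro ⟨x, y, _ | _⟩ he
    · rw [mem_TBE_false] at he
      rw [mem_dmp, dls_f, mem_An, mem_RE_true]
      refine ⟨by omega, Or.inl ?_, by simp only; omega⟩
      rw [le_abs]; simp only; omega
    · rw [mem_TBE_true] at he
      rw [mem_dmp, dls_t, mem_An, mem_RE_false]
      refine ⟨by omega, Or.inl ?_, by simp⟩
      rw [le_abs]; simp only; omega
  have s1 := wl_pr (m := K) ha1 hh2 hm t1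
  have s2 := wr_pr (m := K) ha1 hh2 hm t2
  have s3 : P (An (a : ℤ) h) (fun F => WL a h F ∧ WR a h (An a h) F) =
      P (An (a : ℤ) h) (WL a h) * P (An (a : ℤ) h) (WR a h (An a h)) := by
    refine Pr_indep (S := TBE (-(2 * (a : ℤ))) (-(a : ℤ)) 0 h)
      (T := (TBE (a : ℤ) (2 * a) 0 (h - 1)).map dl.symm.toEmbedding) t1 ?_ ?_ ?_ ?_
    · intro e he
      rw [mem_map_dl] at he
      have := t2 he
      rwa [mem_dmp, Equiv.symm_apply_apply] at this
    · rw [disjoint_left]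
      intro e he he'
      rw [mem_map_dl] at he'
      obtain ⟨x, y, _ | _⟩ := e
      · rw [mem_TBE_false] at he; rw [dl_f, mem_TBE_true] at he'; omega
      · rw [mem_TBE_true] at he; rw [dl_t, mem_TBE_false] at he'; omega
    · intro F _
      exact TBc_local (subset_refl _)
    · intro F _
      constructor
      · intro hw
        exact hw.mono (sd_mono inter_subset_left)
      · rintro ⟨x, x', h1, h2, h3⟩
        refine ⟨x, x', h1, h2, h3.mono ?_⟩
        rintro e ⟨he1, he2⟩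
        refine ⟨?_, he2⟩
        rw [mem_coe, mem_dmp, mem_sdiff] at he1 ⊢
        refine ⟨he1.1, fun h' => he1.2 (mem_inter.mpr ⟨h', ?_⟩)⟩
        rw [mem_map_dl, Equiv.apply_symm_apply]
        exact he2
  have s4 : q0 ^ (2 * K + 1) * q0 ^ (2 * K + 1) ≤
      P (An (a : ℤ) h) (fun F => WL a h F ∧ WR a h (An a h) F) := by
    rw [s3]
    exact mul_le_mul s1 s2 (pow_nonneg q0_pos.le _) ((pow_nonneg q0_pos.le _).trans s1)
  have s5 := tub_pr hC hU hM1 hM (a := a) (K := K) ha (θ * K)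
  rw [← hh] at s5 ⊢
  obtain ⟨A, hA⟩ : ∃ A : Finset Edg → Prop, A = fun F => WL a h F ∧ WR a h (An a h) F := ⟨_, rfl⟩
  obtain ⟨B, hB⟩ : ∃ B : Finset Edg → Prop,
    B = fun F => 18 * (θ * K) * (a : ℝ) ^ (7/4 : ℝ) ≤ Tub a K F := ⟨_, rfl⟩
  rw [← hA] at s4
  rw [← hB] at s5
  have s6 : P (An (a : ℤ) h) A - P (An (a : ℤ) h) B ≤ P (An (a : ℤ) h) (Fst θ a K) := by
    unfold P Pr
    rw [← Ex_sub]
    refine Ex_mono two_ok fun F _ => ?_
    by_cases h1 : A F
    · by_cases h2 : B F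
      · rw [ind_of h1, ind_of h2]
        have := ind_nonneg (Fst θ a K F)
        linarith
      · have h3 : Fst θ a K F := by
          unfold Fst
          rw [← hh]
          rw [hA] at h1
          rw [hB] at h2
          exact ⟨h1, not_le.mp h2⟩
        rw [ind_of h1, ind_of h3]
        have := ind_nonneg (B F)
        linarith
    · rw [ind_not_of h1]
      have h2 := ind_nonneg (Fst θ a K F)
      have h3 := ind_nonneg (B F)
      linarith
  have hKr : (2 : ℝ) ≤ K := by exact_mod_cast hK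
  have h7 : Real.exp (6 * Real.log q0 * K) ≤ q0 ^ (2 * K + 1) * q0 ^ (2 * K + 1) := by
    rw [← pow_add]
    have e : q0 ^ (2 * K + 1 + (2 * K + 1)) =
        Real.exp (((2 * K + 1 + (2 * K + 1) : ℕ) : ℝ) * Real.log q0) := by
      rw [Real.exp_nat_mul, Real.exp_log q0_pos]
    rw [e]
    refine Real.exp_le_exp.mpr ?_
    push_cast
    nlinarith
  have h8 : 9 * (Real.exp (-(θ * K)) * M ^ (5 * K)) ≤ 1 / 2 * Real.exp (6 * Real.log q0 * K) := by
    have e : M ^ (5 * K) = Real.exp (5 * Real.log M * K) := by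
      have e2 : 5 * Real.log M * K = ((5 * K : ℕ) : ℝ) * Real.log M := by push_cast; ring
      rw [e2, Real.exp_nat_mul, Real.exp_log hM0]
    rw [e, ← Real.exp_add]
    have e3 : -(θ * K) + 5 * Real.log M * K = 6 * Real.log q0 * K + -(3 * K) := by rw [hθ]; ring
    rw [e3, Real.exp_add]
    have h9 : Real.exp (-(3 * (K : ℝ))) ≤ Real.exp (-3) :=
      Real.exp_le_exp.mpr (by linarith)
    have h10 : 9 * Real.exp (-3) ≤ 1 / 2 := by
      have h11 : (18 : ℝ) ≤ Real.exp 3 := by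
        have h12 : Real.exp 3 = Real.exp 1 ^ 3 := by rw [← Real.exp_nat_mul]; norm_num
        have h13 := Real.exp_one_gt_d9
        rw [h12]
        have h14 : (2.7 : ℝ) ^ 3 ≤ Real.exp 1 ^ 3 := pow_le_pow_left₀ (by norm_num) (by linarith) 3
        norm_num at h14 ⊢
        linarith
      rw [Real.exp_neg, ← div_eq_mul_inv, div_le_div_iff₀ (Real.exp_pos _) (by norm_num)]
      linarith
    have h15 := Real.exp_pos (6 * Real.log q0 * K)
    nlinarith
  have h16 : Real.exp (-((1 - 6 * Real.log q0) * K)) ≤ 1 / 2 * Real.exp (6 * Real.log q0 * K) := by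
    have e : -((1 - 6 * Real.log q0) * K) = 6 * Real.log q0 * K + -K := by ring
    rw [e, Real.exp_add]
    have h17 : Real.exp (-(K : ℝ)) ≤ 1 / 2 := by
      have h18 : Real.exp (-(K : ℝ)) ≤ Real.exp (-1) := Real.exp_le_exp.mpr (by linarith)
      have h19 : Real.exp (-1) ≤ 1 / 2 := by
        rw [Real.exp_neg]
        have := Real.exp_one_gt_d9
        rw [inv_le_comm₀ (Real.exp_pos _) (by norm_num)]
        linarith
      linarith
    have h15 := Real.exp_pos (6 * Real.log q0 * K)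
    nlinarith
  linarith

end TH992.L
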