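import Pool.Agent.TH992.L.Dom
import Pool.Agent.TH992.T.Chern
import Pool.Agent.H984R4.HN.Mom

/-!
Events of disjoint annuli occur infinitely often.
-/

set_option autoImplicit false

namespace TH992.L

open H974 Finset H342P H984P H984H MeasureTheory Filter Topology TH992.T

theorem bx_mono {ρ ρ' : ℤ} (h : ρ ≤ ρ') : (bx ρ).edges ⊆ (bx ρ').edges :=
  RE_subset (by simp only [bx]; omega) (by simp only [bx]; omega) le_rfl
    (by simp only [bx]; omega)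

theorem cut_inter {ω : Conf} {ρ ρ' : ℤ} (h : ρ ≤ ρ') {S : Finset Edg} (hS : S ⊆ (bx ρ).edges) :
    cut ω ρ ∩ S = cut ω ρ' ∩ S := by
  ext e
  rw [mem_inter, mem_inter, Perc_mem_cut, Perc_mem_cut]
  constructor
  · rintro ⟨⟨h1, h2⟩, h3⟩; exact ⟨⟨bx_mono h h1, h2⟩, h3⟩
  · rintro ⟨⟨h1, h2⟩, h3⟩; exact ⟨⟨hS h3, h2⟩, h3⟩

structure Sep (Ev : ℕ → Finset Edg → Prop) (ρ : ℕ → ℤ) (S : ℕ → Finset Edg) : Prop where
  mono : Monotone ρ
  sub : ∀ j, S j ⊆ (bx (ρ j)).edges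
  loc : ∀ j F, Ev j F ↔ Ev j (F ∩ S j)
  disj : ∀ i j, i ≠ j → Disjoint (S i) (S j)

theorem io_fin {Ev : ℕ → Finset Edg → Prop} {ρ : ℕ → ℤ} {S : ℕ → Finset Edg} (h : Sep Ev ρ S)
    {m : ℕ} (hm : 1 ≤ m) (hp : ∀ j, m ≤ j → 1 / ((j : ℝ) + 1) ≤ P (S j) (Ev j)) (M : ℕ)
    (hM : m ≤ M) :
    P (bx (ρ M)).edges (fun F => ∀ j ∈ Finset.Ico m M, ¬ Ev j F) ≤ (m : ℝ) / M := by
  classical
  have hok : Ok (fun _ : Edg => (1/2:ℝ)) := fun _ => ⟨by norm_num, by norm_num⟩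
  have h1 : P (bx (ρ M)).edges (fun F => ∀ j ∈ Finset.Ico m M, ¬ Ev j F) =
      ∏ j ∈ Finset.Ico m M, Ex (fun _ => (1/2:ℝ)) (bx (ρ M)).edges (fun F => ind (¬ Ev j F)) := by
    rw [← Ex_prod_indep (p := fun _ => (1/2:ℝ)) (S := (bx (ρ M)).edges) (Finset.Ico m M) S
      (fun j hj => (h.sub j).trans (bx_mono (h.mono (Finset.mem_Ico.mp hj).2.le)))
      (fun i _ j _ hij => h.disj i j hij) (fun j F => ind (¬ Ev j F))
      (fun j _ F _ => by
        show ind (¬ Ev j F) = ind (¬ Ev j (F ∩ S j))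
        rw [ind_congr (not_congr (h.loc j F))])]
    unfold P Pr
    refine Ex_congr fun F _ => ?_
    by_cases hF : ∀ j ∈ Finset.Ico m M, ¬ Ev j F
    · rw [ind_of hF]
      symm
      refine prod_eq_one fun j hj => ind_of (hF j hj)
    · rw [ind_not_of hF]
      push Not at hF
      obtain ⟨j, hj, hj2⟩ := hF
      symm
      exact prod_eq_zero hj (ind_not_of (not_not.mpr hj2))
  rw [h1]
  have h2 : ∀ j ∈ Finset.Ico m M,
      Ex (fun _ => (1/2:ℝ)) (bx (ρ M)).edges (fun F => ind (¬ Ev j F)) ≤ (j : ℝ) / (j + 1) := by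
    intro j hj
    rw [Finset.mem_Ico] at hj
    have h3 : Pr (fun _ => (1/2:ℝ)) (bx (ρ M)).edges (fun F => ¬ Ev j F) =
        1 - Pr (fun _ => (1/2:ℝ)) (S j) (Ev j) := by
      rw [Pr_not, Pr_local ((h.sub j).trans (bx_mono (h.mono hj.2.le))) (fun F _ => h.loc j F)]
    have h4 := hp j hj.1
    have h5 : (j : ℝ) / (j + 1) = 1 - 1 / ((j : ℝ) + 1) := by
      have : (0 : ℝ) < (j : ℝ) + 1 := by positivity
      field_simp
      ring
    rw [h5]
    show Pr (fun _ => (1/2:ℝ)) (bx (ρ M)).edges (fun F => ¬ Ev j F) ≤ _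
    rw [h3]
    have h6 : P (S j) (Ev j) = Pr (fun _ => (1/2:ℝ)) (S j) (Ev j) := rfl
    linarith
  refine (prod_le_prod (fun j _ => Ex_nonneg hok fun F _ => ind_nonneg _) h2).trans ?_
  clear h1 h2
  induction M, hM using Nat.le_induction with
  | base =>
    simp only [Finset.Ico_self, prod_empty]
    rw [div_self]
    exact_mod_cast (by omega : m ≠ 0)
  | succ M hM ih =>
    rw [Finset.prod_Ico_succ_top hM]
    have hM0 : (0 : ℝ) < M := by exact_mod_cast (by omega : 0 < M)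
    refine (mul_le_mul_of_nonneg_right ih (by positivity)).trans (le_of_eq ?_)
    push_cast
    field_simp

theorem io_of {Ev : ℕ → Finset Edg → Prop} {ρ : ℕ → ℤ} {S : ℕ → Finset Edg} (h : Sep Ev ρ S)
    {m0 : ℕ} (hp : ∀ j, m0 ≤ j → 1 / ((j : ℝ) + 1) ≤ P (S j) (Ev j)) :
    ∀ᵐ ω ∂perc, ∃ᶠ j in atTop, Ev j (cut ω (ρ j)) := by
  have h1 : ∀ m : ℕ, ∀ᵐ ω ∂perc, ∃ j, m ≤ j ∧ Ev j (cut ω (ρ j)) := by
    intro m'
    obtain ⟨m, hm⟩ : ∃ m, m = max m' (max m0 1) := ⟨_, rfl⟩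
    have hm1 : m' ≤ m := by rw [hm]; exact le_max_left _ _
    have hm2 : m0 ≤ m := by rw [hm]; exact (le_max_left _ _).trans (le_max_right _ _)
    have hm3 : 1 ≤ m := by rw [hm]; exact (le_max_right _ _).trans (le_max_right _ _)
    have h2 : ∀ M, m ≤ M → perc.real {ω | ¬ ∃ j, m ≤ j ∧ Ev j (cut ω (ρ j))} ≤ (m : ℝ) / M := by
      intro M hM
      have h3 := io_fin h hm3 (fun j hj => hp j (hm2.trans hj)) M hM
      rw [← perc_cut (ρ M) (fun F => ∀ j ∈ Finset.Ico m M, ¬ Ev j F)] at h3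
      refine (measureReal_mono ?_).trans h3
      intro ω hω
      simp only [Set.mem_ofPred_eq, not_exists, not_and] at hω ⊢
      intro j hj hE
      rw [Finset.mem_Ico] at hj
      refine hω j hj.1 ?_
      rw [h.loc, cut_inter (h.mono hj.2.le) (h.sub j), ← h.loc]
      exact hE
    have h3 : perc.real {ω | ¬ ∃ j, m ≤ j ∧ Ev j (cut ω (ρ j))} ≤ 0 := by
      have h4 : Tendsto (fun M : ℕ => (m : ℝ) / M) atTop (𝓝 0) :=
        tendsto_const_div_atTop_nhds_zero_nat _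
      exact ge_of_tendsto h4 (eventually_atTop.mpr ⟨m, h2⟩)
    have h4 : perc {ω | ¬ ∃ j, m ≤ j ∧ Ev j (cut ω (ρ j))} = 0 := by
      have h5 := le_antisymm h3 measureReal_nonneg
      rwa [measureReal_eq_zero_iff] at h5
    have h5 : ∀ᵐ ω ∂perc, ∃ j, m ≤ j ∧ Ev j (cut ω (ρ j)) := h4
    filter_upwards [h5] with ω hω
    obtain ⟨j, hj, hE⟩ := hω
    exact ⟨j, hm1.trans hj, hE⟩
  have h2 := ae_all_iff.mpr h1
  filter_upwards [h2] with ω hω
  rw [frequently_atTop]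
  intro m
  obtain ⟨j, hj, hE⟩ := hω m
  exact ⟨j, hj, hE⟩

end TH992.L
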