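import Pool.Agent.H984R4.HN.Bulk
import Pool.Agent.H984R4.HN.Det
import Pool.Agent.H984R4.HN.LayerD
import Pool.Agent.H984R4.HN.Couple
import Pool.Agent.TH992.L.Chain

/-!
Fast pieces of the path in a block.
-/

set_option autoImplicit false

namespace TH992.L

open H974 Finset H342P H984P H984H

/-- A fast piece of the path in the bulk is a fast piece in a square. -/
theorem bulk_loc {D : Dm} {R L : ℤ} {M : ℕ} (hR : 1 ≤ R) (hRL : 3 * R ≤ L)
    {F : Finset Edg} {k l0 : ℕ} (hkl : k ≤ l0) (hbd : 4 * L ≤ D.bd (D.walk F k).1)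
    (hfar : Far (D.walk F k).1 R (D.walk F l0).1) (hlM : l0 - k < M) :
    bulk_sq M R L (L * ((D.walk F k).1.1 / L) - 2 * L) (L * ((D.walk F k).1.2 / L) - 2 * L) F := by
  classical
  have hL : 0 < L := by omega
  set v := (D.walk F k).1 with hv
  unfold Dm.bd at hbd
  rw [le_min_iff, le_min_iff, le_min_iff] at hbd
  obtain ⟨⟨b1, b2⟩, b3, b4⟩ := hbd
  have q1 : L * (v.1 / L) ≤ v.1 := Int.mul_ediv_self_le hL.ne'
  have q2 : v.1 < L * (v.1 / L) + L := Int.lt_mul_ediv_self_add hL
  have q3 : L * (v.2 / L) ≤ v.2 := Int.mul_ediv_self_le hL.ne'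
  have q4 : v.2 < L * (v.2 / L) + L := Int.lt_mul_ediv_self_add hL
  set b := L * (v.1 / L) - 2 * L with hb
  set c := L * (v.2 / L) - 2 * L with hc
  have hex : ∃ t, Far v R (orb (D.cfg F) (D.walk F k) t).1 := by
    refine ⟨l0 - k, ?_⟩
    rw [← bulk_walk, Nat.add_sub_cancel' hkl]
    exact hfar
  have ht0 : Nat.find hex ≤ l0 - k := by
    apply Nat.find_min' hex
    rw [← bulk_walk, Nat.add_sub_cancel' hkl]
    exact hfar
  have hcong : orb (↑(F ∩ RE b (b + 4 * L) c (c + 4 * L)) : Set Edg) (D.walk F k)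
      (Nat.find hex) = orb (D.cfg F) (D.walk F k) (Nat.find hex) := by
    refine orb_congr (T := Nat.find hex) ?_ le_rfl
    intro e he
    rw [mem_Exm] at he
    obtain ⟨s, hs, rfl⟩ := he
    have hnf := Nat.find_min hex hs
    generalize orb (D.cfg F) (D.walk F k) s = w at hnf ⊢
    unfold Far at hnf
    push Not at hnf
    have hin : ae w ∈ RE b (b + 4 * L) c (c + 4 * L) := by
      obtain ⟨⟨x, y⟩, q⟩ := w
      cases q
      · rw [ae_ne, mem_RE_true]; simp only at hnf; omega
      · rw [ae_nw, mem_RE_false]; simp only at hnf; omega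
      · rw [ae_sw, mem_RE_true]; simp only at hnf; omega
      · rw [ae_se, mem_RE_false]; simp only at hnf; omega
    have hnw : ae w ∉ D.wir := by
      intro hw
      unfold Dm.wir at hw
      obtain ⟨⟨x, y⟩, q⟩ := w
      simp only at hnf
      cases q
      · rw [ae_ne] at hw
        rcases hw with ⟨-, h2, -⟩ | ⟨h1, -⟩ | ⟨-, h2, -⟩
        · simp only at h2; omega
        · simp at h1
        · simp only at h2; omega
      · rw [ae_nw] at hw
        rcases hw with ⟨h1, -⟩ | ⟨-, h2, -⟩ | ⟨h1, -⟩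
        · simp at h1
        · simp only at h2; omega
        · simp at h1
      · rw [ae_sw] at hw
        rcases hw with ⟨-, h2, -⟩ | ⟨h1, -⟩ | ⟨-, h2, -⟩
        · simp only at h2; omega
        · simp at h1
        · simp only at h2; omega
      · rw [ae_se] at hw
        rcases hw with ⟨h1, -⟩ | ⟨-, h2, -⟩ | ⟨h1, -⟩
        · simp at h1
        · simp only at h2; omega
        · simp at h1
    have hnz : ae w ∉ Dm.zer := by
      intro hw
      unfold Dm.zer at hw
      obtain ⟨⟨x, y⟩, q⟩ := w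
      simp only at hnf
      cases q
      · rw [ae_ne] at hw
        have := hw.2.1
        simp only at this; omega
      · rw [ae_nw] at hw
        exact absurd hw.1 (by simp)
      · rw [ae_sw] at hw
        have := hw.2.1
        simp only at this; omega
      · rw [ae_se] at hw
        exact absurd hw.1 (by simp)
    unfold Dm.cfg
    rw [Finset.coe_inter]
    constructor
    · rintro (h | h)
      · exact ⟨h.1, hin⟩
      · exact absurd h hnw
    · rintro ⟨h, -⟩
      exact Or.inl ⟨h, hnz⟩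
  refine ⟨D.walk F k, Nat.find hex, ?_, ?_, by omega⟩
  · unfold inR
    rw [← hv]
    omega
  · rw [hcong, ← hv]
    exact Nat.find_spec hex

/-- The bad squares of a block. -/
def BadB (M : ℕ) (R L : ℤ) (n0 : ℕ) (q : Vtx) (F : Finset Edg) : Prop :=
  ∃ p ∈ Finset.Ico ((q.1 - 1) * n0) ((q.1 + 2) * n0),
    ∃ p' ∈ Finset.Ico ((q.2 - 1) * n0) ((q.2 + 2) * n0), 4 ≤ p' ∧
      bulk_sq M R L (L * p - 2 * L) (L * p' - 2 * L) F

/-- The rectangle of a block at the boundary. -/
noncomputable def RB (W : ℤ) (q : Vtx) : Finset Edg := RE (q.1 * W - 2 * W) (q.1 * W + 3 * W) 0 (3 * W)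

/-- The layer in this rectangle. -/
def LB (W L : ℤ) (q : Vtx) : Set Edg :=
  {e | bdr (q.1 * W - 2 * W) (q.1 * W + 3 * W) 0 (3 * W) (src e) < 5 * L + 2 ∧
    bdr (q.1 * W - 2 * W) (q.1 * W + 3 * W) 0 (3 * W) (tgt e) < 5 * L + 2}

/-- An open path at the boundary. -/
def BadP (W L w : ℤ) (q : Vtx) (F : Finset Edg) : Prop :=
  ∃ u v : Vtx, w ≤ sd u v ∧ Reach (↑(F ∩ RB W q) ∩ LB W L q : Set Edg) u v

/-- A closed dual path at the boundary. -/
def BadD (W L w : ℤ) (q : Vtx) (F : Finset Edg) : Prop :=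
  ∃ f g : Vtx, w - 1 ≤ sd f g ∧ DReach ((↑(RB W q) ∩ LB W L q) \ ↑F : Set Edg) f g

/-- The bad event of a block. -/
def Bad (M : ℕ) (R L w W : ℤ) (n0 : ℕ) (q : Vtx) (F : Finset Edg) : Prop :=
  BadB M R L n0 q F ∨ (q.2 = 0 ∧ (BadP W L w q F ∨ BadD W L w q F))

/-- A fast piece with a vertex in the bulk. -/
theorem bad_bulk {ρ W R L : ℤ} {n0 M : ℕ} (hR : 1 ≤ R) (hRL : 3 * R ≤ L)
    (hW : W = n0 * L) (hWL : 5 * L ≤ W) {q : Vtx} (h1 : -ρ ≤ q.1 * W - 5 * W)
    (h2 : q.1 * W + 6 * W ≤ ρ) (h3 : q.2 * W + 6 * W ≤ ρ) {F : Finset Edg}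
    {k l : ℕ} (hkl : k ≤ l) (hlM : l - k < M)
    (hx1 : q.1 * W - W ≤ ((bx ρ).walk F k).1.1) (hx2 : ((bx ρ).walk F k).1.1 < q.1 * W + 2 * W)
    (hy1 : q.2 * W - W ≤ ((bx ρ).walk F k).1.2) (hy2 : ((bx ρ).walk F k).1.2 < q.2 * W + 2 * W)
    (hy : 4 * L ≤ ((bx ρ).walk F k).1.2) (hf : R ≤ sd ((bx ρ).walk F k).1 ((bx ρ).walk F l).1) :
    BadB M R L n0 q F := by
  have hL : 0 < L := by omega
  have hb := bulk_loc (D := bx ρ) (M := M) hR hRL hkl (by
    unfold Dm.bd bx
    simp only [bx] at hx1 hx2 hy1 hy2 hy ⊢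
    rw [le_min_iff, le_min_iff, le_min_iff]
    refine ⟨⟨?_, ?_⟩, ?_, ?_⟩ <;> omega) (det_far hf) hlM
  refine ⟨_, ?_, _, ?_, ?_, hb⟩
  · rw [mem_Ico, Int.le_ediv_iff_mul_le hL, Int.ediv_lt_iff_lt_mul hL]
    have e1 : (q.1 - 1) * n0 * L = q.1 * W - W := by rw [hW]; ring
    have e2 : (q.1 + 2) * n0 * L = q.1 * W + 2 * W := by rw [hW]; ring
    rw [e1, e2]
    exact ⟨hx1, hx2⟩
  · rw [mem_Ico, Int.le_ediv_iff_mul_le hL, Int.ediv_lt_iff_lt_mul hL]
    have e1 : (q.2 - 1) * n0 * L = q.2 * W - W := by rw [hW]; ring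
    have e2 : (q.2 + 2) * n0 * L = q.2 * W + 2 * W := by rw [hW]; ring
    rw [e1, e2]
    exact ⟨hy1, hy2⟩
  · rw [Int.le_ediv_iff_mul_le hL]
    exact hy

theorem mem_RE_ends {a b c d : ℤ} {e : Edg} (h1 : inR a b c d (src e)) (h2 : inR a b c d (tgt e)) :
    e ∈ RE a b c d := by
  obtain ⟨x, y, _ | _⟩ := e
  · simp only [inR, src_mk, tgt_false] at h1 h2
    rw [mem_RE_false]
    omega
  · simp only [inR, src_mk, tgt_true] at h1 h2
    rw [mem_RE_true]
    omega

theorem ends_of_RE {a b c d : ℤ} {e : Edg} (h : e ∈ RE a b c d) :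
    inR a b c d (src e) ∧ inR a b c d (tgt e) := by
  obtain ⟨x, y, _ | _⟩ := e
  · rw [mem_RE_false] at h
    simp only [inR, src_mk, tgt_false]
    omega
  · rw [mem_RE_true] at h
    simp only [inR, src_mk, tgt_true]
    omega

/-- A fast piece near the boundary. -/
theorem bad_bdry {ρ W L w : ℤ} (hL : 1 ≤ L) (hw : 5 * L + 4 ≤ w) (hWw : 4 * w + 1 ≤ W) {q : Vtx}
    (h1 : -ρ ≤ q.1 * W - 5 * W) (h2 : q.1 * W + 6 * W ≤ ρ) (h3 : 6 * W ≤ ρ)
    {F : Finset Edg} (hF : F ⊆ (bx ρ).edges) {k l : ℕ} (hkl : k ≤ l) (hl : l ≤ (bx ρ).len F)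
    (hin : ∀ s, k ≤ s → s ≤ l → q.1 * W - W ≤ ((bx ρ).walk F s).1.1 ∧
      ((bx ρ).walk F s).1.1 < q.1 * W + 2 * W ∧ ((bx ρ).walk F s).1.2 < 5 * L)
    (hd : W ≤ sd ((bx ρ).walk F k).1 ((bx ρ).walk F l).1) : BadP W L w q F ∨ BadD W L w q F := by
  have hD := bx_ok (ρ := ρ) (by omega)
  obtain ⟨i, j, hki, hij, hjl, hwij, hs⟩ := det_sub (fun s => ((bx ρ).walk F s).1)
    (fun s => walk_step (bx ρ) F s) (w := w) (by omega) (0, ρ) (0, 0)
    (by rw [det_sd_eq]; simp only; omega) hkl (by omega)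
  have hRl : ∀ s, -ρ ≤ ((bx ρ).walk F s).1.1 ∧ ((bx ρ).walk F s).1.1 ≤ ρ ∧
      0 ≤ ((bx ρ).walk F s).1.2 ∧ ((bx ρ).walk F s).1.2 ≤ ρ := by
    intro s
    have := walk_in hD hF s
    unfold inR bx at this
    simp only [bx] at this ⊢
    omega
  have hor : ∀ s, i ≤ s → s ≤ j → w < ((bx ρ).walk F s).1.1 ∨ ((bx ρ).walk F s).1.1 < -w := by
    intro s t1 t2
    have e1 := (hs s t1 t2).2
    have e2 := (hin s (by omega) (by omega)).2.2
    have e3 := hRl s
    rw [det_sd_eq] at e1
    simp only at e1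
    omega
  have hstep : ∀ s, sd ((bx ρ).walk F s).1 ((bx ρ).walk F (s + 1)).1 ≤ 1 :=
    fun s => walk_step (bx ρ) F s
  rcases hor i le_rfl hij with h0 | h0
  · left
    have hall : ∀ n, i + n ≤ j → w < ((bx ρ).walk F (i + n)).1.1 := by
      intro n
      induction n with
      | zero => intro _; exact h0
      | succ n ih =>
        intro hn
        have e1 := ih (by omega)
        have e2 := hstep (i + n)
        rw [det_sd_eq] at e2
        rcases hor (i + (n + 1)) (by omega) hn with h | h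
        · exact h
        · have e3 : i + n + 1 = i + (n + 1) := rfl
          rw [e3] at e2
          omega
    refine ⟨((bx ρ).walk F i).1, ((bx ρ).walk F j).1, hwij, ?_⟩
    have hreach : ∀ n, i + n ≤ j → Reach (↑(F ∩ RB W q) ∩ LB W L q : Set Edg)
        ((bx ρ).walk F i).1 ((bx ρ).walk F (i + n)).1 := by
      intro n
      induction n with
      | zero => intro _; exact Reach.refl _ _
      | succ n ih =>
        intro hn
        have ih' := ih (by omega)
        have hsucc : (bx ρ).walk F (i + (n + 1)) = nxt ((bx ρ).cfg F) ((bx ρ).walk F (i + n)) :=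
          walk_succ (bx ρ) F (i + n)
        by_cases hop : ae ((bx ρ).walk F (i + n)) ∈ (bx ρ).cfg F
        · have hnx : (bx ρ).walk F (i + (n + 1)) = mv ((bx ρ).walk F (i + n)) := by
            rw [hsucc, nxt_open hop]
          have p1 := hall n (by omega)
          have p2 := hall (n + 1) hn
          have p3 := hin (i + n) (by omega) (by omega)
          have p4 := hin (i + (n + 1)) (by omega) (by omega)
          have p5 := hRl (i + n)
          have p6 := hRl (i + (n + 1))
          rw [hnx] at p2 p4 p6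
          have hends := p2_ends ((bx ρ).walk F (i + n))
          have hQ : ∀ v : Vtx, v = ((bx ρ).walk F (i + n)).1 ∨ v = (mv ((bx ρ).walk F (i + n))).1 →
              w < v.1 ∧ inR (q.1 * W - 2 * W) (q.1 * W + 3 * W) 0 (3 * W) v ∧ v.2 < 5 * L ∧
              bdr (q.1 * W - 2 * W) (q.1 * W + 3 * W) 0 (3 * W) v < 5 * L + 2 := by
            intro v hv
            unfold inR bdr
            rcases hv with rfl | rfl <;> omega
          have q1 := hQ (src (ae ((bx ρ).walk F (i + n)))) (by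
            rcases hends with ⟨t1, t2⟩ | ⟨t1, t2⟩
            · exact Or.inl t1
            · exact Or.inr t1)
          have q2 := hQ (tgt (ae ((bx ρ).walk F (i + n)))) (by
            rcases hends with ⟨t1, t2⟩ | ⟨t1, t2⟩
            · exact Or.inr t2
            · exact Or.inl t2)
          have hnw : ae ((bx ρ).walk F (i + n)) ∉ (bx ρ).wir := by
            generalize ae ((bx ρ).walk F (i + n)) = e at q1
            obtain ⟨x, y, c⟩ := e
            intro he
            unfold Dm.wir bx at he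
            simp only [Set.mem_ofPred_eq, src] at he q1
            omega
          have hinF : ae ((bx ρ).walk F (i + n)) ∈ F := by
            rcases hop with h | h
            · exact h.1
            · exact absurd h hnw
          refine ih'.trans (Adj.reach ⟨ae ((bx ρ).walk F (i + n)), ⟨?_, q1.2.2.2, q2.2.2.2⟩, ?_⟩)
          · rw [Finset.coe_inter]
            exact ⟨hinF, mem_RE_ends q1.2.1 q2.2.1⟩
          · rw [hnx]
            exact hends
        · rw [hsucc, nxt_closed hop, p2_rt_fst]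
          exact ih'
    have t1 := hreach (j - i) (by omega)
    rwa [show i + (j - i) = j by omega] at t1
  · right
    have hall : ∀ n, i + n ≤ j → ((bx ρ).walk F (i + n)).1.1 < -w := by
      intro n
      induction n with
      | zero => intro _; exact h0
      | succ n ih =>
        intro hn
        have e1 := ih (by omega)
        have e2 := hstep (i + n)
        rw [det_sd_eq] at e2
        rcases hor (i + (n + 1)) (by omega) hn with h | h
        · have e3 : i + n + 1 = i + (n + 1) := rfl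
          rw [e3] at e2
          omega
        · exact h
    refine ⟨face ((bx ρ).walk F i), face ((bx ρ).walk F j), ?_, ?_⟩
    · have := det_face ((bx ρ).walk F i) ((bx ρ).walk F j)
      omega
    have hreach : ∀ n, i + n ≤ j → DReach ((↑(RB W q) ∩ LB W L q) \ ↑F : Set Edg)
        (face ((bx ρ).walk F i)) (face ((bx ρ).walk F (i + n))) := by
      intro n
      induction n with
      | zero => intro _; exact DReach.refl _ _
      | succ n ih =>
        intro hn
        have ih' := ih (by omega)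
        have hsucc : (bx ρ).walk F (i + (n + 1)) = nxt ((bx ρ).cfg F) ((bx ρ).walk F (i + n)) :=
          walk_succ (bx ρ) F (i + n)
        by_cases hop : ae ((bx ρ).walk F (i + n)) ∈ (bx ρ).cfg F
        · rw [hsucc, nxt_open hop, p2_face_mv]
          exact ih'
        · have p1 := hall n (by omega)
          have p3 := hin (i + n) (by omega) (by omega)
          have p5 := hRl (i + n)
          have hno : face ((bx ρ).walk F (i + n)) ∉ (bx ρ).outer := by
            generalize (bx ρ).walk F (i + n) = σ at p1 p3 p5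
            obtain ⟨⟨x, y⟩, c⟩ := σ
            intro he
            unfold Dm.outer bx at he
            simp only at p1 p3 p5
            cases c <;> simp only [face_ne, face_nw, face_sw, face_se, Set.mem_ofPred_eq] at he <;>
              omega
          have hedge : ae ((bx ρ).walk F (i + n)) ∈ (bx ρ).edges := by
            rcases walk_closed hD hF (k := i + n) (by omega) hop with h | h
            · exact h
            · exact absurd h hno
          have hnz : ae ((bx ρ).walk F (i + n)) ∉ Dm.zer := by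
            generalize (bx ρ).walk F (i + n) = σ at p1
            obtain ⟨⟨x, y⟩, c⟩ := σ
            intro he
            unfold Dm.zer at he
            simp only at p1
            cases c
            · rw [ae_ne] at he
              obtain ⟨-, -, t2⟩ := he
              simp only at t2
              omega
            · rw [ae_nw] at he
              exact absurd he.1 (by simp)
            · rw [ae_sw] at he
              obtain ⟨-, -, t2⟩ := he
              simp only at t2
              omega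
            · rw [ae_se] at he
              exact absurd he.1 (by simp)
          have hnF : ae ((bx ρ).walk F (i + n)) ∉ (↑F : Set Edg) := fun h => hop (Or.inl ⟨h, hnz⟩)
          have hmv := det_mv ((bx ρ).walk F (i + n))
          have hends := p2_ends ((bx ρ).walk F (i + n))
          obtain ⟨g1, g2⟩ := ends_of_RE (a := -ρ) (b := ρ) (c := 0) (d := ρ) hedge
          have hQ : ∀ v : Vtx, 0 ≤ v.2 →
              v = ((bx ρ).walk F (i + n)).1 ∨ v = (mv ((bx ρ).walk F (i + n))).1 →
              inR (q.1 * W - 2 * W) (q.1 * W + 3 * W) 0 (3 * W) v ∧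
              bdr (q.1 * W - 2 * W) (q.1 * W + 3 * W) 0 (3 * W) v < 5 * L + 2 := by
            intro v hv0 hv
            unfold inR bdr
            rw [det_sd_eq] at hmv
            rcases hv with rfl | rfl <;> omega
          have q1 := hQ (src (ae ((bx ρ).walk F (i + n)))) g1.2.1 (by
            rcases hends with ⟨t1, t2⟩ | ⟨t1, t2⟩
            · exact Or.inl t1
            · exact Or.inr t1)
          have q2 := hQ (tgt (ae ((bx ρ).walk F (i + n)))) g2.2.1 (by
            rcases hends with ⟨t1, t2⟩ | ⟨t1, t2⟩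
            · exact Or.inr t2
            · exact Or.inl t2)
          rw [hsucc, nxt_closed hop]
          refine ih'.trans (DAdj.reach ⟨ae ((bx ρ).walk F (i + n)), ⟨⟨?_, q1.2, q2.2⟩, hnF⟩, ?_⟩)
          · exact Finset.mem_coe.mpr (mem_RE_ends q1.1 q2.1)
          · exact p2_dends _
    have t1 := hreach (j - i) (by omega)
    rwa [show i + (j - i) = j by omega] at t1

/-- Without the bad event there is no fast piece of the path near the block. -/
theorem nofast {ρ W R L w : ℤ} {n0 M : ℕ} (hR : 1 ≤ R) (hRL : 3 * R ≤ L)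
    (hW : W = n0 * L) (hw : 5 * L + 4 ≤ w) (hWw : 4 * w + 1 ≤ W) {q : Vtx}
    (h1 : -ρ ≤ q.1 * W - 5 * W) (h2 : q.1 * W + 6 * W ≤ ρ) (h3 : q.2 * W + 6 * W ≤ ρ)
    (h4 : 6 * W ≤ ρ)
    {F : Finset Edg} (hF : F ⊆ (bx ρ).edges) (hB : ¬ Bad M R L w W n0 q F) {k l : ℕ} (hkl : k ≤ l)
    (hl : l ≤ (bx ρ).len F)
    (hin : ∀ s, k ≤ s → s ≤ l → q.1 * W - W ≤ ((bx ρ).walk F s).1.1 ∧
      ((bx ρ).walk F s).1.1 < q.1 * W + 2 * W ∧ q.2 * W - W ≤ ((bx ρ).walk F s).1.2 ∧
      ((bx ρ).walk F s).1.2 < q.2 * W + 2 * W)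
    (hq : ∃ s, k ≤ s ∧ s ≤ l ∧ ((bx ρ).walk F s).1.2 / W = q.2)
    (hd : W ≤ sd ((bx ρ).walk F k).1 ((bx ρ).walk F l).1) : M ≤ l - k := by
  by_contra hM
  have hM' : l - k < M := by omega
  apply hB
  by_cases hbulk : ∃ m, k ≤ m ∧ m ≤ l ∧ 5 * L ≤ ((bx ρ).walk F m).1.2
  · left
    obtain ⟨m, hkm, hml, hy⟩ := hbulk
    obtain ⟨x1, x2, y1, y2⟩ := hin m hkm hml
    have htri := det_sd_tri ((bx ρ).walk F k).1 ((bx ρ).walk F m).1 ((bx ρ).walk F l).1
    by_cases hf : R ≤ sd ((bx ρ).walk F m).1 ((bx ρ).walk F l).1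
    · exact bad_bulk hR hRL hW (by omega) h1 h2 h3 hml (by omega) x1 x2 y1 y2 (by omega) hf
    · have h5 : R ≤ sd ((bx ρ).walk F m).1 ((bx ρ).walk F k).1 := by
        rw [det_sd_comm]
        omega
      obtain ⟨i, hki, him, hRi, hs⟩ := det_last (fun s => ((bx ρ).walk F s).1)
        (fun s => walk_step (bx ρ) F s) hkm h5
      have h6 := hs i le_rfl him
      obtain ⟨x1', x2', y1', y2'⟩ := hin i hki (by omega)
      refine bad_bulk hR hRL hW (by omega) h1 h2 h3 him (by omega) x1' x2' y1' y2' ?_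
        (by rw [det_sd_comm]; exact hRi)
      rw [det_sd_eq] at h6
      omega
  · right
    push Not at hbulk
    have hq0 : q.2 = 0 := by
      obtain ⟨s, t1, t2, t3⟩ := hq
      rw [← t3]
      refine Int.ediv_eq_zero_of_lt ?_ ?_
      · have := walk_in (bx_ok (ρ := ρ) (by omega)) hF s
        exact this.2.1
      · have := hbulk s t1 t2
        omega
    refine ⟨hq0, bad_bdry (by omega) hw hWw h1 h2 h4 hF hkl hl (fun s t1 t2 => ?_) hd⟩
    obtain ⟨x1, x2, -, -⟩ := hin s t1 t2
    exact ⟨x1, x2, hbulk s t1 t2⟩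

/-- The block of a vertex. -/
def blk (W : ℤ) (v : Vtx) : Vtx := (v.1 / W, v.2 / W)

theorem blk_step {W : ℤ} (hW : 1 ≤ W) {u v : Vtx} (h : sd u v ≤ W) : sd (blk W u) (blk W v) ≤ 1 := by
  have a1 : W * (u.1 / W) ≤ u.1 := Int.mul_ediv_self_le (by omega)
  have a2 : u.1 < W * (u.1 / W) + W := Int.lt_mul_ediv_self_add (by omega)
  have a3 : W * (v.1 / W) ≤ v.1 := Int.mul_ediv_self_le (by omega)
  have a4 : v.1 < W * (v.1 / W) + W := Int.lt_mul_ediv_self_add (by omega)
  have b1 : W * (u.2 / W) ≤ u.2 := Int.mul_ediv_self_le (by omega)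
  have b2 : u.2 < W * (u.2 / W) + W := Int.lt_mul_ediv_self_add (by omega)
  have b3 : W * (v.2 / W) ≤ v.2 := Int.mul_ediv_self_le (by omega)
  have b4 : v.2 < W * (v.2 / W) + W := Int.lt_mul_ediv_self_add (by omega)
  rw [det_sd_eq] at h ⊢
  unfold blk
  simp only
  have key : ∀ s t : ℤ, W * s < W * t + 2 * W → s - t ≤ 1 := by
    intro s t hst
    by_contra hcon
    push Not at hcon
    have : W * (t + 2) ≤ W * s := mul_le_mul_of_nonneg_left (by omega) (by omega)
    have e : W * (t + 2) = W * t + 2 * W := by ring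
    omega
  have c1 := key (u.1 / W) (v.1 / W) (by omega)
  have c2 := key (v.1 / W) (u.1 / W) (by omega)
  have c3 := key (u.2 / W) (v.2 / W) (by omega)
  have c4 := key (v.2 / W) (u.2 / W) (by omega)
  omega

theorem blk_in {W : ℤ} (hW : 1 ≤ W) {u v : Vtx} (h : sd u v ≤ W) :
    (blk W u).1 * W - W ≤ v.1 ∧ v.1 < (blk W u).1 * W + 2 * W ∧
    (blk W u).2 * W - W ≤ v.2 ∧ v.2 < (blk W u).2 * W + 2 * W := by
  have a1 : W * (u.1 / W) ≤ u.1 := Int.mul_ediv_self_le (by omega)
  have a2 : u.1 < W * (u.1 / W) + W := Int.lt_mul_ediv_self_add (by omega)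
  have b1 : W * (u.2 / W) ≤ u.2 := Int.mul_ediv_self_le (by omega)
  have b2 : u.2 < W * (u.2 / W) + W := Int.lt_mul_ediv_self_add (by omega)
  rw [det_sd_eq] at h
  unfold blk
  simp only
  rw [mul_comm (u.1 / W), mul_comm (u.2 / W)]
  omega

theorem blk_far {W : ℤ} (hW : 1 ≤ W) {v : Vtx} {k : ℕ} (h : k * W ≤ sd v (0, 0)) (hk : 1 ≤ k) :
    (k : ℤ) ≤ sd (blk W (0, 0)) (blk W v) := by
  have e0 : blk W (0, 0) = (0, 0) := by simp [blk]
  rw [e0, det_sd_eq]
  rw [det_sd_eq] at h
  simp only [blk] at h ⊢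
  have key1 : ∀ x : ℤ, (k : ℤ) * W ≤ x → (k : ℤ) ≤ x / W := by
    intro x hx
    rw [Int.le_ediv_iff_mul_le (by omega)]
    exact hx
  have key2 : ∀ x : ℤ, x ≤ -((k : ℤ) * W) → x / W ≤ -(k : ℤ) := by
    intro x hx
    have : x / W < -(k : ℤ) + 1 := by
      rw [Int.ediv_lt_iff_lt_mul (by omega)]
      have e : (-(k : ℤ) + 1) * W = -((k : ℤ) * W) + W := by ring
      omega
    omega
  have hW0 : 0 < (k : ℤ) * W := by positivity
  rcases le_or_gt ((k : ℤ) * W) v.1 with h5 | h5
  · have := key1 _ h5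
    omega
  rcases le_or_gt v.1 (-((k : ℤ) * W)) with h6 | h6
  · have := key2 _ h6
    omega
  rcases le_or_gt ((k : ℤ) * W) v.2 with h7 | h7
  · have := key1 _ h7
    omega
  have := key2 v.2 (by omega)
  omega

open Classical in
/-- The path spends a long time near a block which is visited and not bad. -/
theorem good_time {ρ W R L w : ℤ} {n0 M : ℕ} (hR : 1 ≤ R) (hRL : 3 * R ≤ L)
    (hW : W = n0 * L) (hw : 5 * L + 4 ≤ w) (hWw : 4 * w + 1 ≤ W) {q : Vtx}
    (h1 : -ρ ≤ q.1 * W - 5 * W) (h2 : q.1 * W + 6 * W ≤ ρ) (h3 : q.2 * W + 6 * W ≤ ρ)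
    (h4 : 6 * W ≤ ρ) {ω : Conf} {n : ℕ} (hn : (n : ℤ) < ρ)
    (hB : ¬ Bad M R L w W n0 q (cut ω ρ)) {T τ : ℕ} (hT : T ≤ n) (hτ : τ ≤ T)
    (hd : 2 * W ≤ sd (path ω T).1 (0, 0)) (hq : blk W (path ω τ).1 = q) :
    M ≤ ((range (n + 1)).filter (fun t => sd (blk W (path ω t).1) q ≤ 1)).card := by
  have hρ : 1 ≤ ρ := by omega
  have h0 : (path ω 0).1 = (0, 0) := rfl
  have hsm : ∀ j < n + 1, sd (path ω j).1 (0, 0) < ρ := by
    intro j hj
    have e1 := path_sd ω (Nat.zero_le j)
    rw [h0, det_sd_comm] at e1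
    omega
  have hco : ∀ s, s ≤ n → s + 1 ≤ (bx ρ).len (cut ω ρ) ∧
      (bx ρ).walk (cut ω ρ) ((bx ρ).len (cut ω ρ) - 1 - s) = path ω s := by
    intro s hs
    exact couple hρ ω (fun j hj => hsm j (by omega))
  -- the interval
  have main : ∀ s e : ℕ, s ≤ e → e ≤ T → (s ≤ τ ∧ τ ≤ e) →
      W ≤ sd (path ω s).1 (path ω e).1 →
      (∀ t, s ≤ t → t ≤ e → sd (path ω τ).1 (path ω t).1 ≤ W) →
      M ≤ ((range (n + 1)).filter (fun t => sd (blk W (path ω t).1) q ≤ 1)).card := by
    intro s e hse heT hτ2 hse2 hnear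
    obtain ⟨N, hN⟩ : ∃ N, N = (bx ρ).len (cut ω ρ) := ⟨_, rfl⟩
    have hNT := (hco T hT).1
    have hwk : ∀ t, N - 1 - e ≤ t → t ≤ N - 1 - s → ∃ t', s ≤ t' ∧ t' ≤ e ∧
        (bx ρ).walk (cut ω ρ) t = path ω t' := by
      intro t t1 t2
      refine ⟨N - 1 - t, by omega, by omega, ?_⟩
      have := (hco (N - 1 - t) (by omega)).2
      rw [← this, ← hN]
      congr 1
      omega
    have h5 : M ≤ (N - 1 - s) - (N - 1 - e) := by
      refine nofast hR hRL hW hw hWw h1 h2 h3 h4 (Couple_cut_sub ω ρ) hB (by omega)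
        (by omega) ?_ ?_ ?_
      · intro t t1 t2
        obtain ⟨t', t3, t4, t5⟩ := hwk t t1 t2
        rw [t5, ← hq]
        exact blk_in (by omega) (hnear t' t3 t4)
      · refine ⟨N - 1 - τ, by omega, by omega, ?_⟩
        have := (hco τ (by omega)).2
        rw [← hN] at this
        rw [this, ← hq]
        rfl
      · have e1 := (hco s (by omega)).2
        have e2 := (hco e (by omega)).2
        rw [← hN] at e1 e2
        rw [e1, e2, det_sd_comm]
        exact hse2
    have h6 : Finset.Icc s e ⊆ (range (n + 1)).filter (fun t => sd (blk W (path ω t).1) q ≤ 1) := by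
      intro t ht
      rw [mem_Icc] at ht
      rw [mem_filter, mem_range]
      refine ⟨by omega, ?_⟩
      rw [← hq, det_sd_comm]
      exact blk_step (by omega) (hnear t ht.1 ht.2)
    have h7 := card_le_card h6
    rw [Nat.card_Icc] at h7
    omega
  have htri := det_sd_tri (path ω T).1 (path ω τ).1 (0, 0)
  rw [det_sd_comm (path ω T).1 (path ω τ).1] at htri
  by_cases hf : W ≤ sd (path ω τ).1 (path ω T).1
  · obtain ⟨i, e1, e2, e3, e4⟩ := det_first (fun s => (path ω s).1) (fun s => path_step ω s) hτ hf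
    refine main τ i e1 e2 ⟨le_rfl, e1⟩ e3 (fun t t1 t2 => ?_)
    have := e4 t t1 t2
    omega
  · have hf' : W ≤ sd (path ω τ).1 (path ω 0).1 := by
      rw [h0]
      omega
    obtain ⟨i, e1, e2, e3, e4⟩ := det_last (fun s => (path ω s).1) (fun s => path_step ω s)
      (Nat.zero_le τ) hf'
    refine main i τ e2 hτ ⟨e2, le_rfl⟩ (by rw [det_sd_comm]; exact e3) (fun t t1 t2 => ?_)
    have := e4 t t1 t2
    omega

end TH992.L
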