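import Pool.Agent.TH992.L.Slow3

/-!
The probability that the path is slow.
-/

set_option autoImplicit false

namespace TH992.L

open H974 Finset H342P H984P H984H TH992.T

/-- walls, teeth and many middle vertices -/
def Slow (c1 : ℝ) (b a : ℕ) (F : Finset Edg) : Prop :=
  (AO b (3 * b) a (b / (40 * a)) F ∧ AC b (3 * b) a (b / (40 * a)) (An b (3 * b)) F) ∧
    c1 * ((b : ℝ) ^ 2 * (a : ℝ) ^ (-(1/4) : ℝ)) ≤ NM b (3 * b) a (b / (40 * a)) F

theorem hg_of {a b : ℕ} (ha : 1 ≤ a) (hab : 100 * a ≤ b) : Hg b (3 * b) a (b / (40 * a)) := by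
  refine ⟨ha, by omega, by omega, by omega, fun i hi => ?_⟩
  have h1 : 40 * a * (b / (40 * a)) ≤ b := Nat.mul_div_le _ _
  have h2 : 40 * a * (i + 1) ≤ 40 * a * (b / (40 * a)) := Nat.mul_le_mul_left _ hi
  have h3 : 40 * a * (i + 1) = 40 * a * i + 40 * a := by ring
  unfold ys
  push_cast
  have h4 : ((40 * a * i + 40 * a : ℕ) : ℤ) ≤ b := by exact_mod_cast (by omega : 40 * a * i + 40 * a ≤ b)
  push_cast at h4
  linarith

/-- Paley–Zygmund with walls and teeth -/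
theorem pz_walls {c : ℝ} (hc : 0 < c) (hL : LowA c (1/4)) {b h : ℤ} {a I : ℕ} (hH : Hg b h a I)
    {M2 w : ℝ} (hw0 : 0 ≤ w) (hw : w ≤ ((Wd b h a I).card : ℝ))
    (hM : E (An b h) (fun F => (NM b h a I F) ^ 2) ≤ M2) {q : ℝ} (hq0 : 0 ≤ q)
    (hqA : q ≤ P (An b h) (AO b h a I)) (hqB : q ≤ P (An b h) (AC b h a I (An b h))) :
    (w * (c * (a:ℝ) ^ (-(1/4) : ℝ)) / 2 * (q * q)) ^ 2 ≤ M2 *
      P (An b h) (fun F => (AO b h a I F ∧ AC b h a I (An b h) F) ∧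
        w * (c * (a:ℝ) ^ (-(1/4) : ℝ)) / 2 ≤ NM b h a I F) := by
  classical
  obtain ⟨μ, hμ⟩ : ∃ μ : ℝ, μ = w * (c * (a:ℝ) ^ (-(1/4) : ℝ)) := ⟨_, rfl⟩
  have hμ0 : 0 ≤ μ := by rw [hμ]; positivity
  rw [← hμ]
  obtain ⟨Q, hQ⟩ : ∃ Q : ℝ, Q = P (An b h) (AO b h a I) * P (An b h) (AC b h a I (An b h)) :=
    ⟨_, rfl⟩
  have hQq : q * q ≤ Q := by
    rw [hQ]
    exact mul_le_mul hqA hqB hq0 (hq0.trans hqA)
  obtain ⟨A, hA⟩ : ∃ A : Finset Edg → Prop, A = fun F => AO b h a I F ∧ AC b h a I (An b h) F :=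
    ⟨_, rfl⟩
  have hAF : ∀ F, A F ↔ (AO b h a I F ∧ AC b h a I (An b h) F) := fun F => by rw [hA]
  have hT : P (An b h) A = Q := by
    rw [hQ, hA]
    exact Pr_indep (E1'_sub hH) (E2'_sub hH) (E12'_disj hH) (fun F _ => AO_local F)
      (fun F _ => AC_local F)
  have hmean : μ * Q ≤ E (An b h) (fun F => NM b h a I F * ind (A F)) := by
    have e : E (An b h) (fun F => NM b h a I F * ind (A F)) =
        ∑ v ∈ Wd b h a I, P (An b h) (fun F => RA v a (↑F) ∧ (AO b h a I F ∧ AC b h a I (An b h) F)) := by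
      unfold NM E P Pr
      rw [← Ex_sum]
      refine Ex_congr fun F _ => ?_
      rw [sum_mul]
      refine sum_congr rfl fun v _ => ?_
      rw [← ind_and, ind_congr (and_congr_right fun _ => hAF F)]
    rw [e, hμ]
    have h1 : ((Wd b h a I).card : ℝ) * (c * (a:ℝ) ^ (-(1/4) : ℝ)) * Q ≤
        ∑ v ∈ Wd b h a I, P (An b h) (fun F => RA v a (↑F) ∧ (AO b h a I F ∧ AC b h a I (An b h) F)) := by
      rw [mul_assoc, ← nsmul_eq_mul, ← sum_const]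
      refine sum_le_sum fun v hv => ?_
      rw [mem_Wd hH] at hv
      refine le_trans ?_ (teeth_harris' hH hv)
      rw [← hQ]
      exact mul_le_mul_of_nonneg_right (ra_ge' hL hH hv) ((mul_nonneg hq0 hq0).trans hQq)
    refine le_trans ?_ h1
    refine mul_le_mul_of_nonneg_right ?_ ((mul_nonneg hq0 hq0).trans hQq)
    exact mul_le_mul_of_nonneg_right hw (by positivity)
  have h2 : E (An b h) (fun F => NM b h a I F * ind (A F)) ≤ μ / 2 * Q +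
      E (An b h) (fun F => NM b h a I F * ind (A F ∧ μ / 2 ≤ NM b h a I F)) := by
    rw [← hT]
    unfold P Pr E
    rw [← Ex_mul_left, ← Ex_add]
    refine Ex_mono two_ok fun F hF => ?_
    have g1 : 0 ≤ NM b h a I F := sum_nonneg fun _ _ => ind_nonneg _
    by_cases hB : μ / 2 ≤ NM b h a I F
    · by_cases hT : A F
      · rw [ind_of hT, ind_of ⟨hT, hB⟩]; linarith
      · rw [ind_not_of hT, ind_not_of (fun h => hT h.1)]; linarith
    · rw [ind_not_of (P := A F ∧ μ / 2 ≤ NM b h a I F) (fun h => hB h.2), mul_zero, add_zero]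
      exact mul_le_mul_of_nonneg_right (not_le.mp hB).le (ind_nonneg _)
  have h3 : μ / 2 * Q ≤
      E (An b h) (fun F => NM b h a I F * ind (A F ∧ μ / 2 ≤ NM b h a I F)) := by linarith
  have h4 := Ex_cs two_ok (An b h) (fun F => NM b h a I F)
    (fun F => ind (A F ∧ μ / 2 ≤ NM b h a I F))
  have h5 : Ex (fun _ => (1/2:ℝ)) (An b h) (fun F => (ind (A F ∧ μ / 2 ≤ NM b h a I F)) ^ 2) =
      P (An b h) (fun F => (AO b h a I F ∧ AC b h a I (An b h) F) ∧ μ / 2 ≤ NM b h a I F) := by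
    unfold P Pr
    refine Ex_congr fun F _ => ?_
    rw [sq, ind_sq, ind_congr (and_congr_left fun _ => hAF F)]
  rw [h5] at h4
  have h6 : μ / 2 * (q * q) ≤ μ / 2 * Q := mul_le_mul_of_nonneg_left hQq (by linarith)
  calc (μ / 2 * (q * q)) ^ 2 ≤ (E (An b h) (fun F => NM b h a I F *
        ind (A F ∧ μ / 2 ≤ NM b h a I F))) ^ 2 := by
        apply pow_le_pow_left₀ (by positivity) (h6.trans h3)
    _ ≤ _ := h4
    _ ≤ _ := mul_le_mul_of_nonneg_right hM (Pr_nonneg two_ok _ _)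

/-- the path is slow with a probability which is not too small -/
theorem slow_pr {c : ℝ} (hc : 0 < c) (hL : LowA c (1/4)) {C : ℝ} (hC : 0 < C)
    (hU : TwoUp C (1/4)) : ∃ c1 K1 : ℝ, 0 < c1 ∧ 0 < K1 ∧ ∀ a b : ℕ, 1 ≤ a → 100 * a ≤ b →
      Real.exp (-(K1 * ((b : ℝ) / a) ^ 2)) ≤ P (An b (3 * b)) (Slow c1 b a) := by
  obtain ⟨M, hM1, hM⟩ := mom_fam hC hU
  obtain ⟨κ, hκ⟩ : ∃ κ : ℝ, κ = c ^ 2 / (1600 * (8 * M * 4096)) := ⟨_, rfl⟩
  have hM0 : 0 < M := by linarith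
  have hκ0 : 0 < κ := by rw [hκ]; positivity
  refine ⟨c / 40, |Real.log κ| + 4 * (1 - Real.log q0), by positivity, by
    have := log_q0
    have := abs_nonneg (Real.log κ)
    linarith, fun a b ha hab => ?_⟩
  have hH := hg_of ha hab
  obtain ⟨I, hI⟩ : ∃ I : ℕ, I = b / (40 * a) := ⟨_, rfl⟩
  obtain ⟨m2, hm2⟩ : ∃ m2 : ℕ, m2 = 3 * b / (32 * a) := ⟨_, rfl⟩
  have haR : (1 : ℝ) ≤ a := by exact_mod_cast ha
  have ha0 : (0 : ℝ) < a := by linarith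
  have habR : 100 * (a : ℝ) ≤ b := by exact_mod_cast hab
  have hb0 : (0 : ℝ) < b := by linarith
  have g1 : 3 * b < 32 * a * (m2 + 1) := by rw [hm2]; exact Nat.lt_mul_div_succ _ (by omega)
  have g2 : 32 * a * m2 ≤ 3 * b := by rw [hm2]; exact Nat.mul_div_le _ _
  have g3 : b < 40 * a * (I + 1) := by rw [hI]; exact Nat.lt_mul_div_succ _ (by omega)
  have g4 : 40 * a * I ≤ b := by rw [hI]; exact Nat.mul_div_le _ _
  rw [← hI] at hH
  have hm2' : 3 * (b : ℤ) - 1 ≤ 8 * (4 * (a : ℤ)) * m2 + 8 * (4 * (a : ℤ)) := by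
    have : ((3 * b : ℕ) : ℤ) < ((32 * a * (m2 + 1) : ℕ) : ℤ) := by exact_mod_cast g1
    push_cast at this
    linarith
  have s1 := ao_pr (m1 := 0) (m2 := m2) hH (by push_cast; omega) hm2'
  have s2 := ac_pr (m1 := 0) (m2 := m2) hH (by push_cast; omega) hm2'
  obtain ⟨q, hq⟩ : ∃ q : ℝ, q = q0 ^ (2 * 0 + 1) * q0 ^ ((2 * m2 + 1) * I) := ⟨_, rfl⟩
  rw [← hq] at s1 s2
  have hq0 : 0 < q := by rw [hq]; exact mul_pos (pow_pos q0_pos _) (pow_pos q0_pos _)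
  -- the vertices
  have hcard := card_Wd hH (n1 := 2 * b - 28 * a) (by omega)
  have hcard' : (b : ℝ) ^ 2 / 20 ≤ ((Wd b (3 * b) a I).card : ℝ) := by
    have h1 : (((2 * b - 28 * a) * (I * (4 * a)) : ℕ) : ℝ) ≤ ((Wd b (3 * b) a I).card : ℝ) := by
      exact_mod_cast hcard
    have h0 : 28 * a ≤ 2 * b := by omega
    rw [Nat.cast_mul, Nat.cast_sub h0] at h1
    push_cast at h1
    have h2 : (b : ℝ) / 20 ≤ (I : ℝ) * (4 * a) := by
      have : (b : ℝ) < ((40 * a * (I + 1) : ℕ) : ℝ) := by exact_mod_cast g3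
      push_cast at this
      linarith
    have h3 : (b : ℝ) ≤ 2 * b - 28 * a := by linarith
    have h4 : (b : ℝ) * (b / 20) ≤ (2 * b - 28 * a) * ((I : ℝ) * (4 * a)) :=
      mul_le_mul h3 h2 (by positivity) (by linarith)
    have e : (b : ℝ) ^ 2 / 20 = b * (b / 20) := by ring
    rw [e]
    linarith
  -- second moment
  obtain ⟨n, hn⟩ : ∃ n : ℕ, n = 4 * (b / a + 1) := ⟨_, rfl⟩
  have g5 : b < a * (b / a + 1) := Nat.lt_mul_div_succ _ (by omega)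
  have g5' : 4 * b < n * a := by
    have : n * a = 4 * (a * (b / a + 1)) := by rw [hn]; ring
    omega
  have g6 : (n : ℝ) ≤ 8 * (b / a) := by
    have h1 : ((b / a : ℕ) : ℝ) ≤ (b : ℝ) / a := Nat.cast_div_le
    have h2 : (1 : ℝ) ≤ (b : ℝ) / a := by rw [le_div_iff₀ ha0]; linarith
    rw [hn]
    push_cast
    linarith
  have hsq := NM_sq hC hU hM hH (n := n) (by
      have : ((4 * b : ℕ) : ℤ) < ((n * a : ℕ) : ℤ) := by exact_mod_cast g5'
      push_cast at this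
      omega) (by
      have : ((4 * b : ℕ) : ℤ) < ((n * a : ℕ) : ℤ) := by exact_mod_cast g5'
      push_cast at this
      omega)
  obtain ⟨Z, hZ⟩ : ∃ Z : ℝ, Z = (b : ℝ) ^ 4 * (a : ℝ) ^ (-(1/2) : ℝ) := ⟨_, rfl⟩
  have hZ0 : 0 < Z := by rw [hZ]; positivity
  have hsq2 : 8 * M * ((n : ℝ) ^ 4 * (a : ℝ) ^ (7/2 : ℝ)) ≤ 8 * M * 4096 * Z := by
    have h1 : (n : ℝ) ^ 4 ≤ (8 * (b / a)) ^ 4 := pow_le_pow_left₀ (Nat.cast_nonneg _) g6 4
    have h2 : (8 * ((b : ℝ) / a)) ^ 4 * (a : ℝ) ^ (7/2 : ℝ) = 4096 * Z := by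
      have e1 : (a : ℝ) ^ (7/2 : ℝ) = (a : ℝ) ^ 4 * (a : ℝ) ^ (-(1/2) : ℝ) := by
        rw [← Real.rpow_natCast, ← Real.rpow_add ha0]; norm_num
      rw [hZ, e1, mul_pow, div_pow]
      field_simp
      ring
    calc 8 * M * ((n : ℝ) ^ 4 * (a : ℝ) ^ (7/2 : ℝ)) ≤
        8 * M * ((8 * ((b : ℝ) / a)) ^ 4 * (a : ℝ) ^ (7/2 : ℝ)) :=
          mul_le_mul_of_nonneg_left (mul_le_mul_of_nonneg_right h1 (by positivity)) (by positivity)
      _ = _ := by rw [h2]; ring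
  have key := pz_walls hc hL hH (w := (b : ℝ) ^ 2 / 20) (by positivity) hcard'
    (hsq.trans hsq2) hq0.le s1 s2
  have e1 : (b : ℝ) ^ 2 / 20 * (c * (a : ℝ) ^ (-(1/4) : ℝ)) / 2 =
      c / 40 * ((b : ℝ) ^ 2 * (a : ℝ) ^ (-(1/4) : ℝ)) := by ring
  rw [e1] at key
  have e2 : (fun F => (AO b (3 * b) a I F ∧ AC b (3 * b) a I (An b (3 * b)) F) ∧
      c / 40 * ((b : ℝ) ^ 2 * (a : ℝ) ^ (-(1/4) : ℝ)) ≤ NM b (3 * b) a I F) = Slow (c / 40) b a := by
    funext F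
    unfold Slow
    rw [hI]
  rw [e2] at key
  obtain ⟨PP, hPP⟩ : ∃ PP : ℝ, PP = P (An b (3 * b)) (Slow (c / 40) b a) := ⟨_, rfl⟩
  rw [← hPP] at key ⊢
  have h5 : κ * q ^ 4 ≤ PP := by
    have e3 : (c / 40 * ((b : ℝ) ^ 2 * (a : ℝ) ^ (-(1/4) : ℝ)) * (q * q)) ^ 2 =
        c ^ 2 / 1600 * Z * q ^ 4 := by
      have e4 : (a : ℝ) ^ (-(1/2) : ℝ) = ((a : ℝ) ^ (-(1/4) : ℝ)) ^ 2 := by
        rw [← Real.rpow_natCast, ← Real.rpow_mul ha0.le]; norm_num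
      rw [hZ, e4]; ring
    rw [e3] at key
    have h6 : Z * (c ^ 2 / 1600 * q ^ 4) ≤ Z * (8 * M * 4096 * PP) := by linarith
    have h7 := le_of_mul_le_mul_left h6 hZ0
    rw [hκ]
    have e5 : c ^ 2 / (1600 * (8 * M * 4096)) * q ^ 4 = (c ^ 2 / 1600 * q ^ 4) / (8 * M * 4096) := by
      field_simp
    rw [e5, div_le_iff₀ (by positivity)]
    linarith
  refine le_trans ?_ h5
  obtain ⟨X, hX⟩ : ∃ X : ℝ, X = ((b : ℝ) / a) := ⟨_, rfl⟩
  rw [← hX]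
  have hX1 : 100 ≤ X := by rw [hX, le_div_iff₀ ha0]; linarith
  have h8 : Real.exp (-(4 * (1 - Real.log q0)) * X ^ 2) ≤ q ^ 4 := by
    have e : q = q0 ^ (2 * 0 + 1 + (2 * m2 + 1) * I) := by rw [hq, ← pow_add]
    rw [e, ← pow_mul]
    have e : q0 ^ ((2 * 0 + 1 + (2 * m2 + 1) * I) * 4) =
        Real.exp ((((2 * 0 + 1 + (2 * m2 + 1) * I) * 4 : ℕ) : ℝ) * Real.log q0) := by
      rw [Real.exp_nat_mul, Real.exp_log q0_pos]
    rw [e]
    refine Real.exp_le_exp.mpr ?_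
    have h9 : (((2 * 0 + 1 + (2 * m2 + 1) * I) * 4 : ℕ) : ℝ) ≤ 4 * X ^ 2 := by
      push_cast
      have g7 : (m2 : ℝ) ≤ X := by
        have : ((32 * a * m2 : ℕ) : ℝ) ≤ ((3 * b : ℕ) : ℝ) := by exact_mod_cast g2
        push_cast at this
        rw [hX, le_div_iff₀ ha0]
        nlinarith
      have g8 : (I : ℝ) ≤ X / 40 := by
        have : ((40 * a * I : ℕ) : ℝ) ≤ (b : ℝ) := by exact_mod_cast g4
        push_cast at this
        rw [hX, le_div_iff₀ (by norm_num), le_div_iff₀ ha0]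
        linarith
      have g9 : (2 * (m2 : ℝ) + 1) * I ≤ (2 * X + 1) * (X / 40) :=
        mul_le_mul (by linarith) g8 (Nat.cast_nonneg _) (by linarith)
      nlinarith
    have h10 := log_q0
    nlinarith
  have h11 : Real.exp (-|Real.log κ| * X ^ 2) ≤ κ := by
    rw [← Real.exp_log hκ0]
    refine Real.exp_le_exp.mpr ?_
    rw [Real.exp_log hκ0]
    have g1 := neg_abs_le (Real.log κ)
    have g2 := abs_nonneg (Real.log κ)
    have g3 : 1 ≤ X ^ 2 := by nlinarith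
    have g4 := mul_le_mul_of_nonneg_left g3 g2
    linarith
  calc Real.exp (-((|Real.log κ| + 4 * (1 - Real.log q0)) * X ^ 2))
      = Real.exp (-|Real.log κ| * X ^ 2) * Real.exp (-(4 * (1 - Real.log q0)) * X ^ 2) := by
        rw [← Real.exp_add]; congr 1; ring
    _ ≤ κ * q ^ 4 := mul_le_mul h11 h8 (Real.exp_pos _).le hκ0.le

end TH992.L
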