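import Pool.Agent.TH992.L.Io
import Pool.Agent.TH992.L.Ev
import Pool.Agent.TH992.L.Slow4

/-!
The scales.
-/

set_option autoImplicit false

namespace TH992.L

open H974 Finset H342P H984P H984H MeasureTheory Filter Topology TH992.T

/-- the scales -/
def sc (j : ℕ) : ℕ := 2 ^ ((j + 2) ^ 2)

theorem sc_pos (j : ℕ) : 1 ≤ sc j := Nat.one_le_two_pow

theorem sc_succ (j : ℕ) : sc (j + 1) = sc j * 2 ^ (2 * j + 5) := by
  unfold sc
  rw [← pow_add]
  congr 1
  ring

theorem sc_mono : Monotone sc := by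
  refine monotone_nat_of_le_succ fun j => ?_
  rw [sc_succ]
  exact Nat.le_mul_of_pos_right _ (by positivity)

theorem sc_gt (j : ℕ) : sc j * (2 * j + 5) < sc (j + 1) := by
  rw [sc_succ]
  exact Nat.mul_lt_mul_of_pos_left (Nat.lt_two_pow_self) (sc_pos j)

theorem sc_ge (j : ℕ) : j ≤ sc j := by
  unfold sc
  have h1 : j ≤ (j + 2) ^ 2 := by nlinarith
  exact h1.trans (Nat.lt_two_pow_self).le

theorem an_sub {b h ρ : ℤ} (h1 : 4 * b ≤ ρ) (h2 : h ≤ ρ) : An b h ⊆ (bx ρ).edges := by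
  refine (filter_subset _ _).trans ?_
  exact RE_subset (by simp only [bx]; omega) (by simp only [bx]; omega) le_rfl
    (by simp only [bx]; omega)

theorem an_disj {b h b' h' : ℤ} (h1 : 4 * b < b') (h2 : h < b') (_ : 0 ≤ b) :
    Disjoint (An b h) (An b' h') := by
  rw [disjoint_left]
  intro e he he'
  rw [mem_An] at he he'
  obtain ⟨g1, -, -⟩ := he
  obtain ⟨-, g2, -⟩ := he'
  have g3 : |e.1| ≤ 4 * b ∧ e.2.1 ≤ h := by
    rw [abs_le]
    obtain ⟨x, y, _ | _⟩ := e
    · rw [mem_RE_false] at g1; simp only; omega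
    · rw [mem_RE_true] at g1; simp only; omega
  omega

theorem sep_of {h : ℕ → ℕ} (hh : ∀ j, h j < sc (j + 1)) (E : ℕ → Finset Edg → Prop) :
    Sep (fun j F => E j (F ∩ An (sc j) (h j))) (fun j => (sc (j + 1) : ℤ))
      (fun j => An (sc j) (h j)) where
  mono := by
    intro i j hij
    have := sc_mono (Nat.succ_le_succ hij)
    show ((sc (i + 1) : ℕ) : ℤ) ≤ (sc (j + 1) : ℕ)
    exact_mod_cast this
  sub j := by
    have h1 := hh j
    have h2 := sc_gt j
    have h3 := sc_pos j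
    have h4 : sc j * 4 ≤ sc j * (2 * j + 5) := Nat.mul_le_mul_left _ (by omega)
    refine an_sub ?_ (by exact_mod_cast h1.le)
    have : ((sc j * 4 : ℕ) : ℤ) ≤ (sc (j + 1) : ℕ) := by exact_mod_cast h4.trans h2.le
    push_cast at this
    linarith
  loc j F := by
    rw [inter_assoc, inter_self]
  disj := by
    have key : ∀ i j, i < j → Disjoint (An (sc i) (h i)) (An (sc j) (h j)) := by
      intro i j hij
      have h0 : sc (i + 1) ≤ sc j := sc_mono hij
      have h1 := hh i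
      have h2 := sc_gt i
      have h3 := sc_pos i
      have h4 : sc i * 4 ≤ sc i * (2 * i + 5) := Nat.mul_le_mul_left _ (by omega)
      refine an_disj ?_ (by exact_mod_cast h1.trans_le h0) (by positivity)
      have : ((sc i * 4 : ℕ) : ℤ) < (sc j : ℕ) := by exact_mod_cast (h4.trans_lt h2).trans_le h0
      push_cast at this
      linarith
    intro i j hij
    rcases lt_or_gt_of_ne hij with h | h
    · exact key i j h
    · exact (key j i h).symm

theorem shw_cut {ω : Conf} {ρ b h : ℤ} (hs : An b h ⊆ (bx ρ).edges) :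
    Shw ω (An b h) (cut ω ρ ∩ An b h) where
  op e he := (Perc_mem_cut.mp (mem_inter.mp he).1).2
  cl e he hn := by
    by_contra hcon
    have hω : ω e = true := by simpa using hcon
    exact hn (mem_inter.mpr ⟨Perc_mem_cut.mpr ⟨hs he, hω⟩, he⟩)

theorem P_inter {S : Finset Edg} (A : Finset Edg → Prop) : P S (fun F => A (F ∩ S)) = P S A := by
  unfold P Pr
  refine Ex_congr fun F hF => ?_
  show ind (A (F ∩ S)) = ind (A F)
  rw [inter_eq_left.mpr hF]

theorem ll_pos {n : ℕ} (hn : 128 ≤ n) : 0 < ll n := by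
  have h := ll_lower (n := n) (k := 7) le_rfl (le_trans (by norm_num) hn)
  have h1 : (0 : ℝ) < Real.log ((7 : ℕ) : ℝ) / 2 := by
    have : (0 : ℝ) < Real.log ((7 : ℕ) : ℝ) := Real.log_pos (by norm_num)
    positivity
  exact lt_of_lt_of_le h1 h

/-- size of the hitting time -/
theorem hit_le {ω : Conf} {b h : ℕ} (hb : 1 ≤ b) (hh : 1 ≤ h) {T : ℕ}
    (h1 : ∀ j ≤ T, (path ω j).1.2 ≤ h) (h2 : ∀ j ≤ T, |(path ω j).1.1| ≤ 2 * (b : ℤ)) :
    T ≤ 40 * b * h := by
  classical
  have hc : (range (T + 1)).card ≤ ((Finset.Icc (-(2 * (b : ℤ))) (2 * b) ×ˢ Finset.Icc (0 : ℤ) h) ×ˢ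
      (Finset.univ : Finset Q4)).card := by
    refine card_le_card_of_injOn (path ω) ?_ ?_
    · intro k hk
      rw [mem_coe, mem_range] at hk
      have g1 := abs_le.mp (h2 k (by omega))
      have g2 := path_nonneg ω k
      have g3 := h1 k (by omega)
      simp only [coe_product, Set.mem_prod, mem_coe, mem_Icc, Finset.mem_univ, and_true]
      omega
    · intro i _ j _ hij
      by_contra hne
      exact path_inj ω hne hij
  rw [card_range, card_product, card_product, Int.card_Icc, Int.card_Icc, card_univ,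
    Moments_card] at hc
  have e1 : (2 * (b : ℤ) + 1 - -(2 * (b : ℤ))).toNat = 4 * b + 1 := by omega
  have e2 : ((h : ℤ) + 1 - 0).toNat = h + 1 := by omega
  rw [e1, e2] at hc
  have h3 : (4 * b + 1) * (h + 1) ≤ (5 * b) * (2 * h) := Nat.mul_le_mul (by omega) (by omega)
  have h4 : (5 * b) * (2 * h) = 10 * b * h := by ring
  have h5 : 40 * b * h = 10 * b * h * 4 := by ring
  omega

theorem hit_ge {ω : Conf} {h : ℕ} {T : ℕ} (h1 : (path ω T).1.2 = h) : h ≤ T := by
  have h2 := path_sd ω (Nat.zero_le T)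
  have h3 : |(path ω 0).1.2 - (path ω T).1.2| ≤ sd (path ω 0).1 (path ω T).1 := le_max_right _ _
  have h4 : (path ω 0).1.2 = 0 := rfl
  rw [h4, h1, zero_sub, abs_neg] at h3
  have h5 := le_abs_self (h : ℤ)
  omega

/-- iterated logarithm of the hitting time -/
theorem ll_hit {j n : ℕ} (hj : 2 ≤ j) (h2 : 2 ≤ n) (hn : n ≤ sc j * sc j * sc j) :
    ll n ≤ 6 * Real.log (j + 1) := by
  have e : sc j * sc j * sc j = 2 ^ (3 * (j + 2) ^ 2) := by
    unfold sc
    rw [← pow_add, ← pow_add]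
    congr 1
    ring
  rw [e] at hn
  have h3 := ll_upper (k := 3 * (j + 2) ^ 2) (Nat.one_le_iff_ne_zero.mpr (by positivity)) h2 hn
  refine h3.trans ?_
  have h4 : 6 * Real.log ((j : ℝ) + 1) = Real.log (((j : ℝ) + 1) ^ 6) := by
    rw [Real.log_pow]; push_cast; ring
  rw [h4]
  refine Real.log_le_log (by positivity) ?_
  push_cast
  have h5 : (2 : ℝ) ≤ j := by exact_mod_cast hj
  have h6 : (j : ℝ) + 2 ≤ ((j : ℝ) + 1) ^ 2 := by nlinarith
  have h7 : ((j : ℝ) + 2) ^ 2 ≤ (((j : ℝ) + 1) ^ 2) ^ 2 := pow_le_pow_left₀ (by positivity) h6 2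
  have h8 : (3 : ℝ) ≤ ((j : ℝ) + 1) ^ 2 := by nlinarith
  calc 3 * ((j : ℝ) + 2) ^ 2 ≤ ((j : ℝ) + 1) ^ 2 * ((((j : ℝ) + 1) ^ 2) ^ 2) :=
        mul_le_mul h8 h7 (by positivity) (by positivity)
    _ = ((j : ℝ) + 1) ^ 6 := by ring

end TH992.L
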