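import Pool.Agent.TH992.L.Walls
import Pool.Agent.TH992.L.VisH
import Pool.Agent.TH992.L.UpH
import Pool.Agent.TH992.T.Low2

/-!
Walls and teeth.
-/

set_option autoImplicit false

namespace TH992.L

open H974 Finset H342P H984P H984H TH992.T

/-- the edges of the box which are not in the inner box and not in the top row -/
noncomputable def An (b h : ℤ) : Finset Edg :=
  (RE (-(4 * b)) (4 * b) 0 h).filter
    (fun e => (b ≤ |e.1| ∨ b ≤ e.2.1) ∧ ¬ (e.2.2 = true ∧ e.2.1 = h))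

theorem mem_An {b h : ℤ} {e : Edg} : e ∈ An b h ↔ e ∈ RE (-(4 * b)) (4 * b) 0 h ∧
    (b ≤ |e.1| ∨ b ≤ e.2.1) ∧ ¬ (e.2.2 = true ∧ e.2.1 = h) := by
  unfold An
  rw [mem_filter]

/-- open crossings -/
def TA' (b : ℤ) (a I : ℕ) (F : Finset Edg) : Prop :=
  ∀ i < I, LRc (-(2 * b)) (b - 1) (b + ys a i) (b + ys a i + 4 * a) F

/-- closed dual crossings -/
def TB' (b : ℤ) (a I : ℕ) (S F : Finset Edg) : Prop :=
  ∀ i < I, LRc (-b + 1) (2 * b) (b + ys a i + 16 * a) (b + ys a i + 16 * a + 4 * a) (dmp (S \ F))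

/-- the edges of the open crossings -/
noncomputable def E1' (b h : ℤ) (a I : ℕ) : Finset Edg :=
  TBE (-(2 * b)) (-b) 0 h ∪
    (range I).biUnion (fun i => LRE (-(2 * b)) (b - 1) (b + ys a i) (b + ys a i + 4 * a))

/-- the edges of the dual crossings -/
noncomputable def E2' (b h : ℤ) (a I : ℕ) : Finset Edg :=
  (TBE b (2 * b) 0 (h - 1)).map dl.symm.toEmbedding ∪
    (range I).biUnion (fun i =>
      (LRE (-b + 1) (2 * b) (b + ys a i + 16 * a) (b + ys a i + 16 * a + 4 * a)).map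
        dl.symm.toEmbedding)

theorem mem_map_dl {T : Finset Edg} {e : Edg} : e ∈ T.map dl.symm.toEmbedding ↔ dl e ∈ T := by
  simp only [mem_map, Equiv.coe_toEmbedding]
  constructor
  · rintro ⟨e', he', rfl⟩
    simpa using he'
  · intro he
    exact ⟨dl e, he, by simp⟩

theorem mem_E1' {b h : ℤ} {a I : ℕ} {e : Edg} : e ∈ E1' b h a I ↔ e ∈ TBE (-(2 * b)) (-b) 0 h ∨
    ∃ i < I, e ∈ LRE (-(2 * b)) (b - 1) (b + ys a i) (b + ys a i + 4 * a) := by
  unfold E1'
  simp only [mem_union, mem_biUnion, mem_range]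

theorem mem_E2' {b h : ℤ} {a I : ℕ} {e : Edg} : e ∈ E2' b h a I ↔ dl e ∈ TBE b (2 * b) 0 (h - 1) ∨
    ∃ i < I, dl e ∈ LRE (-b + 1) (2 * b) (b + ys a i + 16 * a) (b + ys a i + 16 * a + 4 * a) := by
  unfold E2'
  simp only [mem_union, mem_biUnion, mem_range, mem_map_dl]

/-- the height is sufficient -/
structure Hg (b h : ℤ) (a I : ℕ) : Prop where
  a1 : 1 ≤ a
  b1 : 1 ≤ b
  h2 : 2 ≤ h
  ab : 14 * (a : ℤ) ≤ b
  top : ∀ i < I, b + ys a i + 30 * a ≤ h

theorem E1'_sub {b h : ℤ} {a I : ℕ} (hH : Hg b h a I) : E1' b h a I ⊆ An b h := by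
  intro e he
  have hb := hH.b1
  have ha : (1 : ℤ) ≤ a := by exact_mod_cast hH.a1
  rw [mem_An]
  rcases mem_E1'.mp he with he | ⟨i, hi, he⟩
  · obtain ⟨x, y, _ | _⟩ := e
    · rw [mem_TBE_false] at he
      rw [mem_RE_false]
      refine ⟨by omega, Or.inl ?_, by simp⟩
      rw [le_abs]; simp only; omega
    · rw [mem_TBE_true] at he
      rw [mem_RE_true]
      refine ⟨by omega, Or.inl ?_, by simp only; omega⟩
      rw [le_abs]; simp only; omega
  · have h1 := hH.top i hi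
    have h2 := ys_ge a i
    obtain ⟨x, y, _ | _⟩ := e
    · rw [mem_LRE_false] at he
      rw [mem_RE_false]
      refine ⟨by omega, Or.inr (by simp only; omega), by simp⟩
    · rw [mem_LRE_true] at he
      rw [mem_RE_true]
      refine ⟨by omega, Or.inr (by simp only; omega), by simp only; omega⟩

theorem E2'_sub {b h : ℤ} {a I : ℕ} (hH : Hg b h a I) : E2' b h a I ⊆ An b h := by
  intro e he
  have hb := hH.b1
  have ha : (1 : ℤ) ≤ a := by exact_mod_cast hH.a1
  rw [mem_An]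
  rcases mem_E2'.mp he with he | ⟨i, hi, he⟩
  · obtain ⟨x, y, _ | _⟩ := e
    · rw [dl_f, mem_TBE_true] at he
      rw [mem_RE_false]
      refine ⟨by omega, Or.inl ?_, by simp⟩
      rw [le_abs]; simp only; omega
    · rw [dl_t, mem_TBE_false] at he
      rw [mem_RE_true]
      refine ⟨by omega, Or.inl ?_, by simp only; omega⟩
      rw [le_abs]; simp only; omega
  · have h1 := hH.top i hi
    have h2 := ys_ge a i
    obtain ⟨x, y, _ | _⟩ := e
    · rw [dl_f, mem_LRE_true] at he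
      rw [mem_RE_false]
      refine ⟨by omega, Or.inr (by simp only; omega), by simp⟩
    · rw [dl_t, mem_LRE_false] at he
      rw [mem_RE_true]
      refine ⟨by omega, Or.inr (by simp only; omega), by simp only; omega⟩

theorem E12'_disj {b h : ℤ} {a I : ℕ} (hH : Hg b h a I) :
    Disjoint (E1' b h a I) (E2' b h a I) := by
  have hb := hH.b1
  have ha : (1 : ℤ) ≤ a := by exact_mod_cast hH.a1
  rw [disjoint_left]
  intro e h1 h2
  rcases mem_E1'.mp h1 with he | ⟨i, hi, he⟩ <;> rcases mem_E2'.mp h2 with he' | ⟨j, hj, he'⟩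
  · obtain ⟨x, y, _ | _⟩ := e
    · rw [mem_TBE_false] at he; rw [dl_f, mem_TBE_true] at he'; omega
    · rw [mem_TBE_true] at he; rw [dl_t, mem_TBE_false] at he'; omega
  · obtain ⟨x, y, _ | _⟩ := e
    · rw [mem_TBE_false] at he; rw [dl_f, mem_LRE_true] at he'; omega
    · rw [mem_TBE_true] at he; rw [dl_t, mem_LRE_false] at he'; omega
  · obtain ⟨x, y, _ | _⟩ := e
    · rw [mem_LRE_false] at he; rw [dl_f, mem_TBE_true] at he'; omega
    · rw [mem_LRE_true] at he; rw [dl_t, mem_TBE_false] at he'; omega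
  · rcases Nat.lt_or_ge j i with h | h
    · have h3 := ys_lt (a := a) h
      obtain ⟨x, y, _ | _⟩ := e
      · rw [mem_LRE_false] at he; rw [dl_f, mem_LRE_true] at he'; omega
      · rw [mem_LRE_true] at he; rw [dl_t, mem_LRE_false] at he'; omega
    · have h3 := ys_le (a := a) h
      obtain ⟨x, y, _ | _⟩ := e
      · rw [mem_LRE_false] at he; rw [dl_f, mem_LRE_true] at he'; omega
      · rw [mem_LRE_true] at he; rw [dl_t, mem_LRE_false] at he'; omega

/-- the open part -/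
def AO (b h : ℤ) (a I : ℕ) (F : Finset Edg) : Prop := WL b h F ∧ TA' b a I F

/-- the closed part -/
def AC (b h : ℤ) (a I : ℕ) (S F : Finset Edg) : Prop := WR b h S F ∧ TB' b a I S F

theorem AO_mono {b h : ℤ} {a I : ℕ} {F G : Finset Edg} (hFG : F ⊆ G) (hF : AO b h a I F) :
    AO b h a I G := ⟨hF.1.mono hFG, fun i hi => (hF.2 i hi).mono hFG⟩

theorem sd_mono {S F G : Finset Edg} (h : F ⊆ G) : dmp (S \ G) ⊆ dmp (S \ F) := by
  intro e he
  rw [mem_dmp, mem_sdiff] at he ⊢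
  exact ⟨he.1, fun h' => he.2 (h h')⟩

theorem AC_mono {b h : ℤ} {a I : ℕ} {S F G : Finset Edg} (hFG : F ⊆ G) (hG : AC b h a I S G) :
    AC b h a I S F := ⟨hG.1.mono (sd_mono hFG), fun i hi => (hG.2 i hi).mono (sd_mono hFG)⟩

theorem AO_local {b h : ℤ} {a I : ℕ} (F : Finset Edg) :
    AO b h a I F ↔ AO b h a I (F ∩ E1' b h a I) := by
  unfold AO WL TA'
  refine and_congr (TBc_local ?_) (forall_congr' fun i => forall_congr' fun hi => LRc_local ?_)
  · intro e he; exact mem_E1'.mpr (Or.inl he)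
  · intro e he; exact mem_E1'.mpr (Or.inr ⟨i, hi, he⟩)

theorem AC_local {b h : ℤ} {a I : ℕ} {S : Finset Edg} (F : Finset Edg) :
    AC b h a I S F ↔ AC b h a I S (F ∩ E2' b h a I) := by
  constructor
  · intro h
    exact AC_mono inter_subset_left h
  · rintro ⟨⟨x, x', h1, h2, h3⟩, h4⟩
    refine ⟨⟨x, x', h1, h2, h3.mono ?_⟩, fun i hi => ?_⟩
    · rintro e ⟨he1, he2⟩
      refine ⟨?_, he2⟩
      rw [mem_coe, mem_dmp, mem_sdiff] at he1 ⊢
      refine ⟨he1.1, fun h' => he1.2 (mem_inter.mpr ⟨h', mem_E2'.mpr (Or.inl ?_)⟩)⟩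
      rw [Equiv.apply_symm_apply]
      exact he2
    · obtain ⟨y, y', h1, h2, h3⟩ := h4 i hi
      refine ⟨y, y', h1, h2, h3.mono ?_⟩
      rintro e ⟨he1, he2⟩
      refine ⟨?_, he2⟩
      rw [mem_coe, mem_dmp, mem_sdiff] at he1 ⊢
      refine ⟨he1.1, fun h' => he1.2 (mem_inter.mpr ⟨h', mem_E2'.mpr (Or.inr ⟨i, hi, ?_⟩)⟩)⟩
      rw [Equiv.apply_symm_apply]
      exact he2

/-- The vertex is in the middle of a period. -/
structure Md (b : ℤ) (a I : ℕ) (v : Vtx) : Prop where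
  left : -b + 14 * a ≤ v.1
  right : v.1 ≤ b - 14 * a
  row : ∃ i < I, b + ys a i + 8 * a ≤ v.2 ∧ v.2 ≤ b + ys a i + 12 * a

theorem RA_sgn {b h : ℤ} {a I : ℕ} (ha : 1 ≤ a) {v : Vtx} (hv : Md b a I v)
    {F G : Finset Edg} (h0 : F \ (E1' b h a I ∪ E2' b h a I) = G \ (E1' b h a I ∪ E2' b h a I))
    (h1 : F ∩ E1' b h a I ⊆ G ∩ E1' b h a I) (h2 : G ∩ E2' b h a I ⊆ F ∩ E2' b h a I)
    (h : RA v a (↑F)) : RA v a (↑G) := by
  obtain ⟨i, hi, hr1, hr2⟩ := hv.row
  have hvl := hv.left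
  have hvr := hv.right
  have ha' : (1 : ℤ) ≤ a := by exact_mod_cast ha
  obtain ⟨⟨w, hw, h3⟩, g, hg, h4⟩ := h
  refine ⟨⟨w, hw, h3.mono ?_⟩, g, hg, h4.mono ?_⟩
  · rintro e ⟨he1, he2⟩
    refine ⟨?_, he2⟩
    rw [mem_coe] at he1 he2 ⊢
    by_cases hc1 : e ∈ E1' b h a I
    · exact (mem_inter.mp (h1 (mem_inter.mpr ⟨he1, hc1⟩))).1
    · have hc2 : e ∉ E2' b h a I := by
        intro hc
        unfold PR at he2
        rcases mem_E2'.mp hc with he3 | ⟨j, hj, he3⟩
        · obtain ⟨x, y, _ | _⟩ := e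
          · rw [mem_RE_false] at he2; rw [dl_f, mem_TBE_true] at he3; omega
          · rw [mem_RE_true] at he2; rw [dl_t, mem_TBE_false] at he3; omega
        rcases Nat.lt_or_ge j i with h | h
        · have h5 := ys_lt (a := a) h
          obtain ⟨x, y, _ | _⟩ := e
          · rw [mem_RE_false] at he2; rw [dl_f, mem_LRE_true] at he3; omega
          · rw [mem_RE_true] at he2; rw [dl_t, mem_LRE_false] at he3; omega
        · have h5 := ys_le (a := a) h
          obtain ⟨x, y, _ | _⟩ := e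
          · rw [mem_RE_false] at he2; rw [dl_f, mem_LRE_true] at he3; omega
          · rw [mem_RE_true] at he2; rw [dl_t, mem_LRE_false] at he3; omega
      have h5 : e ∈ F \ (E1' b h a I ∪ E2' b h a I) := by
        rw [mem_sdiff, mem_union]; exact ⟨he1, fun hc => hc.elim hc1 hc2⟩
      rw [h0] at h5
      exact (mem_sdiff.mp h5).1
  · rintro e ⟨he1, he2⟩
    refine ⟨he1, fun heG => he2 ?_⟩
    rw [mem_coe] at heG ⊢
    by_cases hc2 : e ∈ E2' b h a I
    · exact (mem_inter.mp (h2 (mem_inter.mpr ⟨heG, hc2⟩))).1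
    · have hc1 : e ∉ E1' b h a I := by
        intro hc
        simp only [dE, DR, Set.mem_ofPred_eq] at he1
        rcases mem_E1'.mp hc with he3 | ⟨j, hj, he3⟩
        · obtain ⟨x, y, _ | _⟩ := e
          · rw [dl_f, mem_RE_true] at he1; rw [mem_TBE_false] at he3; omega
          · rw [dl_t, mem_RE_false] at he1; rw [mem_TBE_true] at he3; omega
        rcases le_or_gt j i with h | h
        · have h5 := ys_le (a := a) h
          obtain ⟨x, y, _ | _⟩ := e
          · rw [dl_f, mem_RE_true] at he1; rw [mem_LRE_false] at he3; omega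
          · rw [dl_t, mem_RE_false] at he1; rw [mem_LRE_true] at he3; omega
        · have h5 := ys_lt (a := a) h
          obtain ⟨x, y, _ | _⟩ := e
          · rw [dl_f, mem_RE_true] at he1; rw [mem_LRE_false] at he3; omega
          · rw [dl_t, mem_RE_false] at he1; rw [mem_LRE_true] at he3; omega
      have h5 : e ∈ G \ (E1' b h a I ∪ E2' b h a I) := by
        rw [mem_sdiff, mem_union]; exact ⟨heG, fun hc => hc.elim hc1 hc2⟩
      rw [← h0] at h5
      exact (mem_sdiff.mp h5).1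

/-- correlation inequality -/
theorem teeth_harris' {b h : ℤ} {a I : ℕ} (hH : Hg b h a I) {v : Vtx} (hv : Md b a I v) :
    P (An b h) (fun F => RA v a (↑F)) *
      (P (An b h) (AO b h a I) * P (An b h) (AC b h a I (An b h))) ≤
      P (An b h) (fun F => RA v a (↑F) ∧ (AO b h a I F ∧ AC b h a I (An b h) F)) := by
  refine harris_signed two_ok (E1'_sub hH) (E2'_sub hH) (E12'_disj hH)
    (fun F _ => AO_local F) (fun F G h hF => AO_mono h hF) (fun F _ => AC_local F)
    (fun F G h hG => AC_mono h hG) (fun F G _ _ h0 h1 h2 h => RA_sgn hH.a1 hv h0 h1 h2 h)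

theorem BA_An {b h : ℤ} {a I : ℕ} (hH : Hg b h a I) {v : Vtx} (hv : Md b a I v) :
    BA v a ⊆ An b h := by
  obtain ⟨i, hi, hr1, hr2⟩ := hv.row
  have h1 := hv.left
  have h2 := hv.right
  have h3 := hH.top i hi
  have h4 := ys_ge a i
  have ha : (1 : ℤ) ≤ a := by exact_mod_cast hH.a1
  have hb := hH.b1
  have hab := hH.ab
  unfold BA
  rintro ⟨x, y, t⟩ he
  rw [mem_An]
  cases t
  · rw [mem_RE_false] at he ⊢
    exact ⟨by omega, Or.inr (by simp only; omega), by simp⟩
  · rw [mem_RE_true] at he ⊢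
    exact ⟨by omega, Or.inr (by simp only; omega), by simp only; omega⟩

/-- the two-arm event in the middle of a period -/
theorem ra_ge' {c : ℝ} (hL : LowA c (1/4)) {b h : ℤ} {a I : ℕ} (hH : Hg b h a I)
    {v : Vtx} (hv : Md b a I v) :
    c * (a:ℝ) ^ (-(1/4) : ℝ) ≤ P (An b h) (fun F => RA v a (↑F)) := by
  have hv' : v ∈ ctr v a := by rw [mem_ctr]; omega
  have e := pr_ra_ge hL hH.a1 hv'
  rw [pr_ra_local (BA_sub_NB hH.a1 hv')] at e
  unfold P
  rw [pr_ra_local (BA_An hH hv)]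
  exact e

end TH992.L
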