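import Pool.Agent.TH992.L.Slow

/-!
Between the walls the middle vertices with two arms are visited.
-/

set_option autoImplicit false

namespace TH992.L

open H974 Finset H342P H984P H984H TH992.T

/-- the mid vertices with two arms are visited if there are walls and teeth -/
theorem vis_teeth' {ω : Conf} {b h ρ t : ℤ} {a I : ℕ} (hH : Hg b h a I) (hρ : 4 * b ≤ ρ)
    (ht1 : -ρ ≤ t) (ht2 : t ≤ ρ) {G : Finset Edg} (hS : Shw ω (An b h) G) {v : Vtx}
    (hv : Md b a I v) (hRA : RA v a (↑G))
    (hO : AO b h a I G) (hC : AC b h a I (An b h) G) : (dm ρ h t).Vis (fl ω ρ h) (v, .ne) := by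
  obtain ⟨i, hi, hr1, hr2⟩ := hv.row
  have hl := hv.left
  have hr := hv.right
  have hh := hH.top i hi
  have hy := ys_ge a i
  have hb := hH.b1
  have hh2 := hH.h2
  have hab := hH.ab
  have ha' : (1 : ℤ) ≤ a := by exact_mod_cast hH.a1
  have hD := dm_ok (ρ := ρ) (h := h) (t := t) (by omega) (by omega) ht1 ht2
  obtain ⟨⟨w, hw, hRw⟩, g, hg, hDg⟩ := hRA
  obtain ⟨v1, v2⟩ := v
  simp only at hl hr hr1 hr2 hw hg
  apply vis_of hD (fl_sub ω ρ h t)
  · -- the open arm
    obtain ⟨S1, hS1⟩ : ∃ S1 : Finset Edg, S1 = TBE (-(2 * b)) (-b) 0 h ∪ RE (-(2 * b)) b 1 (h - 1) :=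
      ⟨_, rfl⟩
    have hsub : (↑G ∩ ↑S1 : Set Edg) ⊆ (dm ρ h t).cfg (fl ω ρ h) := by
      rintro e ⟨he1, he2⟩
      have h0 := hS.op e he1
      rw [hS1, mem_coe, mem_union] at he2
      rw [cfg_iff]
      left
      obtain ⟨x, y, _ | _⟩ := e
      · rw [mem_TBE_false, mem_RE_false] at he2
        refine ⟨⟨?_, h0, by simp⟩, by simp⟩
        rw [mem_RE_false]; omega
      · rw [mem_TBE_true, mem_RE_true] at he2
        refine ⟨⟨?_, h0, ?_⟩, ?_⟩
        · rw [mem_RE_true]; omega
        · simp only; omega
        · simp only; omega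
    obtain ⟨y1, y2, hy1, hy2, hc⟩ := hO.2 i hi
    obtain ⟨x1, x2, hx1, hx2, hcw⟩ := hO.1
    have e1 : Reach ((↑G : Set Edg) ∩ ↑S1) w (-(2 * b), y1) := by
      refine meet_gen (p := v1 - 12 * a) (q := v1 + 12 * a) (c := b + ys a i)
        (d := b + ys a i + 4 * a)
        (by omega) (by omega) (V := PR (v1, v2) a)
        (Hh := LRE (-(2 * b)) (b - 1) (b + ys a i) (b + ys a i + 4 * a)) ?_ ?_ ?_ ?_ ?_ ?_ ?_
        hRw.symm (by omega) (by simp only; omega) hc (by simp only; omega) (by simp only; omega)
      · rintro ⟨x, y, _ | _⟩ h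
        · rw [hS1, mem_union]; right; simp only [PR, mem_RE_false] at h ⊢; omega
        · rw [hS1, mem_union]; right; simp only [PR, mem_RE_true] at h ⊢; omega
      · rintro ⟨x, y, _ | _⟩ h
        · rw [hS1, mem_union]; right; simp only [mem_RE_false, mem_LRE_false] at h ⊢; omega
        · rw [hS1, mem_union]; right; simp only [mem_RE_true, mem_LRE_true] at h ⊢; omega
      · rintro ⟨x, y, _ | _⟩ h
        · rw [hS1, mem_union]; right; simp only [mem_RE_false] at h ⊢; omega
        · rw [hS1, mem_union]; right; simp only [mem_RE_true] at h ⊢; omega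
      · intro x y h; simp only [PR, mem_RE_false] at h; omega
      · intro x y h; simp only [PR, mem_RE_true] at h; omega
      · intro x y h; simp only [mem_LRE_true] at h; omega
      · intro x y h; simp only [mem_LRE_false] at h; omega
    have e2 : Reach ((↑G : Set Edg) ∩ ↑S1) (x1, 0) (-(2 * b), y1) := by
      refine meet_gen (p := -(2 * b)) (q := -b) (c := b + ys a i)
        (d := b + ys a i + 4 * a)
        (by omega) (by omega) (V := TBE (-(2 * b)) (-b) 0 h)
        (Hh := LRE (-(2 * b)) (b - 1) (b + ys a i) (b + ys a i + 4 * a)) ?_ ?_ ?_ ?_ ?_ ?_ ?_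
        hcw (by simp only; omega) (by simp only; omega) hc (by simp only; omega)
          (by simp only; omega)
      · intro e h; rw [hS1, mem_union]; exact Or.inl h
      · rintro ⟨x, y, _ | _⟩ h
        · rw [hS1, mem_union]; right; simp only [mem_RE_false, mem_LRE_false] at h ⊢; omega
        · rw [hS1, mem_union]; right; simp only [mem_RE_true, mem_LRE_true] at h ⊢; omega
      · rintro ⟨x, y, _ | _⟩ h
        · rw [hS1, mem_union]; right; simp only [mem_RE_false] at h ⊢; omega
        · rw [hS1, mem_union]; right; simp only [mem_RE_true] at h ⊢; omega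
      · intro x y h; simp only [mem_TBE_false] at h; omega
      · intro x y h; simp only [mem_TBE_true] at h; omega
      · intro x y h; simp only [mem_LRE_true] at h; omega
      · intro x y h; simp only [mem_LRE_false] at h; omega
    have e3 : Reach ((↑G : Set Edg) ∩ ↑S1) (v1, v2) w := by
      refine hRw.mono ?_
      rintro ⟨x, y, _ | _⟩ ⟨h0, h⟩
      · refine ⟨h0, ?_⟩
        rw [mem_coe, hS1, mem_union]; right; simp only [PR, mem_coe, mem_RE_false] at h ⊢; omega
      · refine ⟨h0, ?_⟩
        rw [mem_coe, hS1, mem_union]; right; simp only [PR, mem_coe, mem_RE_true] at h ⊢; omega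
    have e4 := clu_bottom (D := dm ρ h t) (fl ω ρ h) (-x1).toNat (by simp only [dm]; omega)
    rw [show -(((-x1).toNat : ℕ) : ℤ) = x1 by omega] at e4
    exact e4.trans (((e2.trans e1.symm).trans e3.symm).mono hsub)
  · -- the dual arm
    obtain ⟨y1, y2, hy1, hy2, hc⟩ := hC.2 i hi
    obtain ⟨x1, x2, hx1, hx2, hcw⟩ := hC.1
    obtain ⟨F', hF'⟩ : ∃ F' : Finset Edg, F' = dmp (An b h \ G) := ⟨_, rfl⟩
    rw [← hF'] at hc hcw
    obtain ⟨S', hS'⟩ : ∃ S' : Finset Edg, S' = TBE b (2 * b) 0 (h - 1) ∪
      RE (-b + 1) (2 * b) 1 (h - 2) := ⟨_, rfl⟩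
    have a1 : Reach ((↑F' : Set Edg) ∩ ↑(DR (v1, v2) a)) (v1, v2) g := by
      refine (reach_dl.mpr hDg).mono ?_
      rintro _ ⟨e, ⟨he1, he2⟩, rfl⟩
      refine ⟨?_, he1⟩
      rw [hF', mem_coe, mem_dmp, Equiv.symm_apply_apply, mem_sdiff]
      refine ⟨?_, he2⟩
      rw [mem_An]
      obtain ⟨x, y, _ | _⟩ := e
      · simp only [dE, DR, Set.mem_ofPred_eq, dl_f, mem_RE_true] at he1
        rw [mem_RE_false]
        exact ⟨by omega, Or.inr (by simp only; omega), by simp⟩
      · simp only [dE, DR, Set.mem_ofPred_eq, dl_t, mem_RE_false] at he1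
        rw [mem_RE_true]
        exact ⟨by omega, Or.inr (by simp only; omega), by simp only; omega⟩
    have e1 : Reach ((↑F' : Set Edg) ∩ ↑S') (v1, v2) (-b + 1, y1) := by
      refine meet_gen (p := v1 - 12 * a) (q := v1 + 12 * a) (c := b + ys a i + 16 * a)
        (d := b + ys a i + 16 * a + 4 * a)
        (by omega) (by omega) (V := DR (v1, v2) a)
        (Hh := LRE (-b + 1) (2 * b) (b + ys a i + 16 * a) (b + ys a i + 16 * a + 4 * a))
        ?_ ?_ ?_ ?_ ?_ ?_ ?_
        a1 (by simp only; omega) (by omega) hc (by simp only; omega) (by simp only; omega)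
      · rintro ⟨x, y, _ | _⟩ h
        · rw [hS', mem_union]; right; simp only [DR, mem_RE_false] at h ⊢; omega
        · rw [hS', mem_union]; right; simp only [DR, mem_RE_true] at h ⊢; omega
      · rintro ⟨x, y, _ | _⟩ h
        · rw [hS', mem_union]; right; simp only [mem_RE_false, mem_LRE_false] at h ⊢; omega
        · rw [hS', mem_union]; right; simp only [mem_RE_true, mem_LRE_true] at h ⊢; omega
      · rintro ⟨x, y, _ | _⟩ h
        · rw [hS', mem_union]; right; simp only [mem_RE_false] at h ⊢; omega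
        · rw [hS', mem_union]; right; simp only [mem_RE_true] at h ⊢; omega
      · intro x y h; simp only [DR, mem_RE_false] at h; omega
      · intro x y h; simp only [DR, mem_RE_true] at h; omega
      · intro x y h; simp only [mem_LRE_true] at h; omega
      · intro x y h; simp only [mem_LRE_false] at h; omega
    have e2 : Reach ((↑F' : Set Edg) ∩ ↑S') (x1, 0) (-b + 1, y1) := by
      refine meet_gen (p := b) (q := 2 * b) (c := b + ys a i + 16 * a)
        (d := b + ys a i + 16 * a + 4 * a)
        (by omega) (by omega) (V := TBE b (2 * b) 0 (h - 1))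
        (Hh := LRE (-b + 1) (2 * b) (b + ys a i + 16 * a) (b + ys a i + 16 * a + 4 * a))
        ?_ ?_ ?_ ?_ ?_ ?_ ?_
        hcw (by simp only; omega) (by simp only; omega) hc (by simp only; omega)
          (by simp only; omega)
      · intro e h; rw [hS', mem_union]; exact Or.inl h
      · rintro ⟨x, y, _ | _⟩ h
        · rw [hS', mem_union]; right; simp only [mem_RE_false, mem_LRE_false] at h ⊢; omega
        · rw [hS', mem_union]; right; simp only [mem_RE_true, mem_LRE_true] at h ⊢; omega
      · rintro ⟨x, y, _ | _⟩ h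
        · rw [hS', mem_union]; right; simp only [mem_RE_false] at h ⊢; omega
        · rw [hS', mem_union]; right; simp only [mem_RE_true] at h ⊢; omega
      · intro x y h; simp only [mem_TBE_false] at h; omega
      · intro x y h; simp only [mem_TBE_true] at h; omega
      · intro x y h; simp only [mem_LRE_true] at h; omega
      · intro x y h; simp only [mem_LRE_false] at h; omega
    have e3 : DReach (↑(dm ρ h t).edges \ (dm ρ h t).cfg (fl ω ρ h) : Set Edg) (v1, v2) (x1, 0) := by
      rw [← reach_dl]
      refine (e1.trans e2.symm).mono ?_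
      rintro e ⟨h1, h2⟩
      refine ⟨dl.symm e, ?_, by simp⟩
      rw [hF', mem_coe, mem_dmp, mem_sdiff] at h1
      have hcl := hS.cl _ h1.1 h1.2
      rw [mem_coe, hS', mem_union] at h2
      refine ⟨?_, ?_⟩
      · show dl.symm e ∈ RE (-ρ) ρ 0 h
        obtain ⟨x, y, _ | _⟩ := e
        · rw [dls_f]; rw [mem_TBE_false, mem_RE_false] at h2; rw [mem_RE_true]; omega
        · rw [dls_t]; rw [mem_TBE_true, mem_RE_true] at h2; rw [mem_RE_false]; omega
      · rw [cfg_iff]
        rintro (⟨⟨-, h5, -⟩, -⟩ | h5)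
        · rw [hcl] at h5; simp at h5
        · obtain ⟨x, y, _ | _⟩ := e
          · rw [mem_TBE_false, mem_RE_false] at h2
            rw [dls_f] at h5
            rcases h5 with h5 | h5 | h5
            · simp only at h5; omega
            · simp at h5
            · simp only at h5; omega
          · rw [mem_TBE_true, mem_RE_true] at h2
            rw [dls_t] at h5
            rcases h5 with h5 | h5 | h5
            · simp at h5
            · simp only at h5; omega
            · simp at h5
    have e4 : DReach (↑(dm ρ h t).edges \ (dm ρ h t).cfg (fl ω ρ h) : Set Edg) (x1, -1) (x1, 0) := by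
      refine DAdj.reach ⟨(x1, 0, true), ⟨?_, ?_⟩, Or.inl ⟨by simp, rfl⟩⟩
      · show ((x1, 0, true) : Edg) ∈ RE (-ρ) ρ 0 h
        rw [mem_RE_true]; omega
      · rw [cfg_iff]
        rintro (⟨-, h5⟩ | h5 | h5 | h5)
        · exact h5 ⟨rfl, rfl, by simp only; omega⟩
        · simp only at h5; omega
        · simp at h5
        · simp only at h5; omega
    exact ⟨(x1, -1), Or.inl ⟨rfl, by simp only; omega, by simp only [dm]; omega⟩,
      e4.trans e3.symm⟩
  · unfold Out
    rw [face_ne]
    simp only [dm]
    omega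

end TH992.L
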