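import Pool.Agent.TH992.L.Slow2
import Pool.Agent.TH992.T.Low4

/-!
Probabilities of walls and teeth, and the number of middle vertices.
-/

set_option autoImplicit false

namespace TH992.L

open H974 Finset H342P H984P H984H TH992.T

/-! ### crossings -/

theorem wl_pr {b h : ℤ} {m : ℕ} (hb : 1 ≤ b) (hh : 2 ≤ h) (hm : h ≤ 8 * b * m + 8 * b)
    {S : Finset Edg} (hS : TBE (-(2 * b)) (-b) 0 h ⊆ S) : q0 ^ (2 * m + 1) ≤ P S (WL b h) := by
  unfold WL P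
  rw [pr_TBc _ hS]
  have e1 : -b - -(2 * b) = b := by ring
  rw [e1, sub_zero]
  exact hh_wide (by omega) hb hm

theorem wr_pr {b h : ℤ} {m : ℕ} (hb : 1 ≤ b) (hh : 2 ≤ h) (hm : h ≤ 8 * b * m + 8 * b)
    {S : Finset Edg} (hS : TBE b (2 * b) 0 (h - 1) ⊆ dmp S) :
    q0 ^ (2 * m + 1) ≤ P S (WR b h S) := by
  have e := H12S.pr_dual (q := 1/2) S (TBc b (2 * b) 0 (h - 1))
  have e1 : (1:ℝ) - 1/2 = 1/2 := by norm_num
  rw [e1] at e
  unfold H12S.PQ at e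
  unfold WR P
  rw [e, pr_TBc _ hS]
  have e2 : 2 * b - b = b := by ring
  rw [e2, sub_zero]
  exact hh_wide (by omega) hb (by omega)

theorem ao_pr {b h : ℤ} {a I m1 m2 : ℕ} (hH : Hg b h a I) (h1 : h ≤ 8 * b * m1 + 8 * b)
    (h2 : 3 * b - 1 ≤ 8 * (4 * (a : ℤ)) * m2 + 8 * (4 * (a : ℤ))) :
    q0 ^ (2 * m1 + 1) * q0 ^ ((2 * m2 + 1) * I) ≤ P (An b h) (AO b h a I) := by
  have hb := hH.b1
  have ha : (1 : ℤ) ≤ a := by exact_mod_cast hH.a1
  have s1 := wl_pr (S := An b h) hb hH.h2 h1 (fun e he => E1'_sub hH (mem_E1'.mpr (Or.inl he)))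
  have s2 := strips (S := An b h) (l := -(2 * b)) (r := b - 1) (h := 4 * (a : ℤ)) (m := m2)
    (by omega) (by omega) (by omega) (fun i => b + ys a i) I
    (fun i hi e he => E1'_sub hH (mem_E1'.mpr (Or.inr ⟨i, hi, he⟩)))
  have s3 := Pr_harris two_ok (S := An b h) (A := WL b h) (B := TA' b a I)
    (fun F G h h' hF => TBc_incr _ _ _ _ _ F G h h' hF)
    (fun F G h h' hF i hi => LRc_incr _ _ _ _ _ F G h h' (hF i hi))
  refine le_trans ?_ s3
  exact mul_le_mul s1 s2 (pow_nonneg q0_pos.le _) ((pow_nonneg q0_pos.le _).trans s1)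

theorem ac_pr {b h : ℤ} {a I m1 m2 : ℕ} (hH : Hg b h a I) (h1 : h ≤ 8 * b * m1 + 8 * b)
    (h2 : 3 * b - 1 ≤ 8 * (4 * (a : ℤ)) * m2 + 8 * (4 * (a : ℤ))) :
    q0 ^ (2 * m1 + 1) * q0 ^ ((2 * m2 + 1) * I) ≤ P (An b h) (AC b h a I (An b h)) := by
  have hb := hH.b1
  have ha : (1 : ℤ) ≤ a := by exact_mod_cast hH.a1
  have g1 : TBE b (2 * b) 0 (h - 1) ⊆ dmp (An b h) := by
    intro e he
    rw [mem_dmp]
    refine E2'_sub hH (mem_E2'.mpr (Or.inl ?_))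
    rw [Equiv.apply_symm_apply]; exact he
  have g2 : ∀ i < I, LRE (-b + 1) (2 * b) (b + ys a i + 16 * a)
      (b + ys a i + 16 * a + 4 * a) ⊆ dmp (An b h) := by
    intro i hi e he
    rw [mem_dmp]
    refine E2'_sub hH (mem_E2'.mpr (Or.inr ⟨i, hi, ?_⟩))
    rw [Equiv.apply_symm_apply]; exact he
  have s1 := wl_pr (S := dmp (An b h)) (b := b) (h := h) (m := m1)
  have e := H12S.pr_dual (q := 1/2) (An b h) (fun F => TBc b (2 * b) 0 (h - 1) F ∧
    ∀ i < I, LRc (-b + 1) (2 * b) (b + ys a i + 16 * a) (b + ys a i + 16 * a + 4 * a) F)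
  have e1 : (1:ℝ) - 1/2 = 1/2 := by norm_num
  rw [e1] at e
  unfold H12S.PQ at e
  have e3 : P (An b h) (AC b h a I (An b h)) = Pr (fun _ => (1/2:ℝ)) (dmp (An b h))
      (fun F => TBc b (2 * b) 0 (h - 1) F ∧ ∀ i < I, LRc (-b + 1) (2 * b)
        (b + ys a i + 16 * a) (b + ys a i + 16 * a + 4 * a) F) := by
    rw [← e]; rfl
  rw [e3]
  have s2 : q0 ^ (2 * m1 + 1) ≤ Pr (fun _ => (1/2:ℝ)) (dmp (An b h)) (TBc b (2 * b) 0 (h - 1)) := by
    rw [pr_TBc _ g1]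
    have e2 : 2 * b - b = b := by ring
    rw [e2, sub_zero]
    exact hh_wide (by have := hH.h2; omega) hb (by omega)
  have s4 := strips (S := dmp (An b h)) (l := -b + 1) (r := 2 * b) (h := 4 * (a : ℤ)) (m := m2)
    (by omega) (by omega) (by omega) (fun i => b + ys a i + 16 * a) I g2
  have s3 := Pr_harris two_ok (S := dmp (An b h)) (A := TBc b (2 * b) 0 (h - 1))
    (B := fun F => ∀ i < I, LRc (-b + 1) (2 * b)
        (b + ys a i + 16 * a) (b + ys a i + 16 * a + 4 * a) F)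
    (fun F G h h' hF => TBc_incr _ _ _ _ _ F G h h' hF)
    (fun F G h h' hF i hi => LRc_incr _ _ _ _ _ F G h h' (hF i hi))
  refine le_trans ?_ s3
  exact mul_le_mul s2 s4 (pow_nonneg q0_pos.le _) ((pow_nonneg q0_pos.le _).trans s2)

/-! ### moments -/

theorem mom_fam {C : ℝ} (hC : 0 < C) (hU : TwoUp C (1/4)) : ∃ M : ℝ, 1 ≤ M ∧
    ∀ (D : Dm) (s : ℕ) (b c : ℤ), 1 ≤ s →
      Ex (fun _ => (1/2:ℝ)) D.edges (fun F => Real.exp (Yb (1/4) (xs D) s b c F / 2)) ≤ M := by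
  obtain ⟨u0, h0⟩ := tail0 (a := 1/4) (C0 := CC C) (by norm_num) (by norm_num) 4
    (by unfold CC; positivity)
  refine ⟨max (Real.exp (u0 + 1 / 2) * (1 - Real.exp (-(1/2)))⁻¹) 1, le_max_right _ _,
    fun D s b c hs => ?_⟩
  have hf := xs_fam hC hU D
  refine (expmom two_ok _ (fun F => Yb_nonneg hf s b c F) (u0 := u0)
    (fun u hu => h0 _ _ _ hf s b c u hs hu) ⌈4 * (s : ℝ) ^ (1/4 : ℝ)⌉₊
    (fun F _ => (Yb_le hf hs b c F).trans (Nat.le_ceil _))).trans (le_max_left _ _)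

theorem sq_le_exp {y : ℝ} (hy : 0 ≤ y) : y ^ 2 ≤ 8 * Real.exp (y / 2) := by
  have h := Real.quadratic_le_exp_of_nonneg (x := y / 2) (by linarith)
  nlinarith

theorem sq_fam {M : ℝ} {D : Dm} {s : ℕ} {b c : ℤ} (hf : Fam (1/4) 4 M (fun _ => (1/2:ℝ)) D.edges (xs D))
    {M' : ℝ} (h : Ex (fun _ => (1/2:ℝ)) D.edges (fun F => Real.exp (Yb (1/4) (xs D) s b c F / 2)) ≤ M') :
    Ex (fun _ => (1/2:ℝ)) D.edges (fun F => (Yb (1/4) (xs D) s b c F) ^ 2) ≤ 8 * M' := by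
  refine (Ex_mono two_ok (g := fun F => 8 * Real.exp (Yb (1/4) (xs D) s b c F / 2)) fun F _ =>
    sq_le_exp (Yb_nonneg hf s b c F)).trans ?_
  rw [Ex_mul_left]
  linarith

/-- covering by boxes of side `a` -/
theorem cover {f : Vtx → ℝ} (hf : ∀ v, 0 ≤ f v) {W : Finset Vtx} {a n1 n2 : ℕ} (ha : 1 ≤ a)
    {b0 c0 : ℤ} (hW : ∀ v ∈ W, (b0 ≤ v.1 ∧ v.1 < b0 + n1 * a) ∧ (c0 ≤ v.2 ∧ v.2 < c0 + n2 * a)) :
    ∑ v ∈ W, f v ≤ ∑ q ∈ range n1 ×ˢ range n2, ∑ v ∈ Bq (b0 + q.1 * a) (c0 + q.2 * a) a, f v := by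
  have hsub : W ⊆ (range n1 ×ˢ range n2).biUnion
      (fun q => Bq (b0 + q.1 * a) (c0 + q.2 * a) a) := by
    intro v hv
    obtain ⟨⟨h1, h2⟩, h3, h4⟩ := hW v hv
    rw [mem_biUnion]
    have hr' : (0 : ℤ) < a := by exact_mod_cast ha
    obtain ⟨i, hi⟩ := Int.eq_ofNat_of_zero_le (Int.ediv_nonneg (show 0 ≤ v.1 - b0 by linarith) hr'.le)
    obtain ⟨j, hj⟩ := Int.eq_ofNat_of_zero_le (Int.ediv_nonneg (show 0 ≤ v.2 - c0 by linarith) hr'.le)
    have e1 := Int.emod_add_mul_ediv (v.1 - b0) a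
    have e2 := Int.emod_add_mul_ediv (v.2 - c0) a
    have e3 := Int.emod_nonneg (v.1 - b0) hr'.ne'
    have e4 := Int.emod_lt_of_pos (v.1 - b0) hr'
    have e5 := Int.emod_nonneg (v.2 - c0) hr'.ne'
    have e6 := Int.emod_lt_of_pos (v.2 - c0) hr'
    rw [hi] at e1
    rw [hj] at e2
    refine ⟨(i, j), ?_, ?_⟩
    · rw [mem_product, mem_range, mem_range]
      constructor
      · by_contra hcon
        push Not at hcon
        have : (n1 : ℤ) * a ≤ a * i := by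
          rw [mul_comm]
          exact mul_le_mul_of_nonneg_left (by exact_mod_cast hcon) hr'.le
        linarith
      · by_contra hcon
        push Not at hcon
        have : (n2 : ℤ) * a ≤ a * j := by
          rw [mul_comm]
          exact mul_le_mul_of_nonneg_left (by exact_mod_cast hcon) hr'.le
        linarith
    · rw [mem_Bq]
      have f1 : (i : ℤ) * a = a * i := mul_comm _ _
      have f2 : (j : ℤ) * a = a * j := mul_comm _ _
      simp only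
      rw [f1, f2]
      refine ⟨⟨?_, ?_⟩, ?_, ?_⟩ <;> linarith
  exact (sum_le_sum_of_subset_of_nonneg hsub fun v _ _ => hf v).trans (sum_bi_le _ _ _ hf)

/-! ### the middle vertices -/

open Classical in
/-- the vertices in the middle of the periods -/
noncomputable def Wd (b h : ℤ) (a I : ℕ) : Finset Vtx :=
  (Finset.Icc (-b) b ×ˢ Finset.Icc 0 h).filter (Md b a I)

theorem mem_Wd {b h : ℤ} {a I : ℕ} (hH : Hg b h a I) {v : Vtx} : v ∈ Wd b h a I ↔ Md b a I v := by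
  classical
  unfold Wd
  rw [mem_filter, mem_product, mem_Icc, mem_Icc]
  refine ⟨fun h => h.2, fun h => ⟨?_, h⟩⟩
  obtain ⟨i, hi, hr1, hr2⟩ := h.row
  have h1 := h.left
  have h2 := h.right
  have h3 := hH.top i hi
  have h4 := ys_ge a i
  have hb := hH.b1
  omega

/-- number of mid vertices with arms -/
noncomputable def NM (b h : ℤ) (a I : ℕ) (F : Finset Edg) : ℝ :=
  ∑ v ∈ Wd b h a I, ind (RA v a (↑F))

theorem NM_local {b h : ℤ} {a I : ℕ} (hH : Hg b h a I) (F : Finset Edg) :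
    NM b h a I F = NM b h a I (F ∩ An b h) := by
  unfold NM
  refine sum_congr rfl fun v hv => ind_congr ?_
  rw [coe_inter]
  exact ra_inter _ _ (by exact_mod_cast BA_An hH ((mem_Wd hH).mp hv))

theorem card_Wd {b h : ℤ} {a I : ℕ} (hH : Hg b h a I) {n1 : ℕ}
    (h1 : (n1 : ℤ) ≤ 2 * b - 28 * a) : n1 * (I * (4 * a)) ≤ (Wd b h a I).card := by
  classical
  have h2 : (range n1 ×ˢ (range I ×ˢ range (4 * a))).card = n1 * (I * (4 * a)) := by
    rw [card_product, card_product, card_range, card_range, card_range]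
  rw [← h2]
  refine card_le_card_of_injOn
    (fun q => ((-b + 14 * a + q.1, b + ys a q.2.1 + 8 * a + q.2.2) : Vtx)) ?_ ?_
  · rintro ⟨k, i, j⟩ hq
    simp only [coe_product, coe_range, Set.mem_prod, Set.mem_Iio] at hq
    obtain ⟨hk, hi, hj⟩ := hq
    rw [mem_coe, mem_Wd hH]
    refine ⟨?_, ?_, i, hi, ?_, ?_⟩
    all_goals simp only
    all_goals omega
  · rintro ⟨k, i, j⟩ hq ⟨k', i', j'⟩ hq' h
    simp only [coe_product, coe_range, Set.mem_prod, Set.mem_Iio] at hq hq'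
    simp only [Prod.mk.injEq] at h
    obtain ⟨hk, hy⟩ := h
    have hij : i = i' := by
      rcases lt_trichotomy i i' with h | h | h
      · have := ys_lt (a := a) h; omega
      · exact h
      · have := ys_lt (a := a) h; omega
    subst hij
    simp only [Prod.mk.injEq, true_and]
    omega

/-- the number is dominated by the family at scale `a` -/
theorem NM_le {b h : ℤ} {a I : ℕ} (hH : Hg b h a I) {n1 n2 : ℕ} (h1 : 2 * b < n1 * a)
    (h2 : h < n2 * a) (F : Finset Edg) :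
    NM b h a I F ≤ ∑ q ∈ range n1 ×ˢ range n2,
      Nb (xs (dm (4 * b) h 0)) a (-b + q.1 * a) (0 + q.2 * a) F := by
  have ha : (1 : ℤ) ≤ a := by exact_mod_cast hH.a1
  have hb := hH.b1
  unfold NM
  refine le_trans (sum_le_sum fun v hv => ?_) (cover (W := Wd b h a I) (f := fun v =>
    xs (dm (4 * b) h 0) a v F) (fun v => xs_nonneg _ _ _ _) hH.a1 (n1 := n1) (n2 := n2)
    (b0 := -b) (c0 := 0) (fun v hv => ?_))
  · rw [mem_Wd hH] at hv
    obtain ⟨i, hi, hr1, hr2⟩ := hv.row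
    have g1 := hv.left
    have g2 := hv.right
    have g3 := hH.top i hi
    have g4 := ys_ge a i
    have hst : ((v, Q4.ne) : St) ∈ (dm (4 * b) h 0).states :=
      xs_mem' _ (by simp only [dm]; omega)
    have h3 : ind (RA v a (↑F)) ≤ (if ((v, Q4.ne) : St) ∈ (dm (4 * b) h 0).states then
        ind (min (a : ℤ) ((dm (4 * b) h 0).bd v - 1) ≤ 0 ∨ Two v (face (v, Q4.ne))
          (min (a : ℤ) ((dm (4 * b) h 0).bd v - 1)) (↑F)) else 0) := by
      rw [if_pos hst]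
      refine ind_mono fun hR => Or.inr ?_
      have h5 := two_of_ra (k := min (a : ℤ) ((dm (4 * b) h 0).bd v - 1)) (by
        have := min_le_left (a : ℤ) ((dm (4 * b) h 0).bd v - 1)
        omega) hR
      rw [face_ne]
      exact h5
    refine h3.trans ?_
    unfold xs
    refine single_le_sum (f := fun q : Q4 => (if ((v, q) : St) ∈ (dm (4 * b) h 0).states then
        ind (min (a : ℤ) ((dm (4 * b) h 0).bd v - 1) ≤ 0 ∨ Two v (face (v, q))
          (min (a : ℤ) ((dm (4 * b) h 0).bd v - 1)) (↑F)) else 0)) (fun q _ => ?_) (mem_univ _)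
    show 0 ≤ _
    split_ifs
    · exact ind_nonneg _
    · exact le_refl _
  · rw [mem_Wd hH] at hv
    obtain ⟨i, hi, hr1, hr2⟩ := hv.row
    have g1 := hv.left
    have g2 := hv.right
    have g3 := hH.top i hi
    have g4 := ys_ge a i
    omega

/-- second moment -/
theorem NM_sq {C : ℝ} (hC : 0 < C) (hU : TwoUp C (1/4)) {M : ℝ}
    (hM : ∀ (D : Dm) (s : ℕ) (b c : ℤ), 1 ≤ s →
      Ex (fun _ => (1/2:ℝ)) D.edges (fun F => Real.exp (Yb (1/4) (xs D) s b c F / 2)) ≤ M)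
    {b h : ℤ} {a I : ℕ} (hH : Hg b h a I) {n : ℕ} (h1 : 2 * b < n * a) (h2 : h < n * a) :
    E (An b h) (fun F => (NM b h a I F) ^ 2) ≤
      8 * M * ((n : ℝ) ^ 4 * (a : ℝ) ^ (7/2 : ℝ)) := by
  obtain ⟨D, hD⟩ : ∃ D : Dm, D = dm (4 * b) h 0 := ⟨_, rfl⟩
  have hsub : An b h ⊆ D.edges := by
    rw [hD]; exact filter_subset _ _
  have e1 : E (An b h) (fun F => (NM b h a I F) ^ 2) =
      Ex (fun _ => (1/2:ℝ)) D.edges (fun F => (NM b h a I F) ^ 2) := by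
    symm
    refine Ex_local hsub fun F _ => ?_
    rw [NM_local hH F]
  rw [e1]
  have ha0 : (0 : ℝ) < a := by exact_mod_cast hH.a1
  have hf := xs_fam hC hU D
  obtain ⟨G, hG⟩ : ∃ G : Finset (ℕ × ℕ), G = range n ×ˢ range n := ⟨_, rfl⟩
  have hGc : (G.card : ℝ) = (n : ℝ) ^ 2 := by
    rw [hG, card_product, card_range]; push_cast; ring
  obtain ⟨Y, hY⟩ : ∃ Y : ℕ × ℕ → Finset Edg → ℝ,
    Y = fun q F => Yb (1/4) (xs D) a (-b + q.1 * a) (0 + q.2 * a) F := ⟨_, rfl⟩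
  have hY0 : ∀ q F, 0 ≤ Y q F := fun q F => by rw [hY]; exact Yb_nonneg hf _ _ _ _
  have h3 : ∀ F, (NM b h a I F) ^ 2 ≤ (a : ℝ) ^ (7/2 : ℝ) * ((G.card : ℝ) * ∑ q ∈ G, (Y q F) ^ 2) := by
    intro F
    have h4 := NM_le hH h1 h2 F
    rw [← hD, ← hG] at h4
    have h5 : ∑ q ∈ G, Nb (xs D) a (-b + q.1 * a) (0 + q.2 * a) F =
        (a : ℝ) ^ (7/4 : ℝ) * ∑ q ∈ G, Y q F := by
      rw [mul_sum]
      refine sum_congr rfl fun q _ => ?_
      rw [hY]
      unfold Yb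
      have e2 : (2 - 1/4 : ℝ) = 7/4 := by norm_num
      rw [e2, mul_div_cancel₀]
      exact (Real.rpow_pos_of_pos ha0 _).ne'
    rw [h5] at h4
    have h6 : 0 ≤ NM b h a I F := sum_nonneg fun _ _ => ind_nonneg _
    have h7 : (∑ q ∈ G, Y q F) ^ 2 ≤ (G.card : ℝ) * ∑ q ∈ G, (Y q F) ^ 2 :=
      sq_sum_le_card_mul_sum_sq
    have h8 : (a : ℝ) ^ (7/2 : ℝ) = ((a : ℝ) ^ (7/4 : ℝ)) ^ 2 := by
      rw [← Real.rpow_natCast, ← Real.rpow_mul ha0.le]; norm_num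
    rw [h8]
    calc (NM b h a I F) ^ 2 ≤ ((a : ℝ) ^ (7/4 : ℝ) * ∑ q ∈ G, Y q F) ^ 2 :=
          pow_le_pow_left₀ h6 h4 2
      _ = ((a : ℝ) ^ (7/4 : ℝ)) ^ 2 * (∑ q ∈ G, Y q F) ^ 2 := by ring
      _ ≤ _ := mul_le_mul_of_nonneg_left h7 (by positivity)
  refine (Ex_mono two_ok fun F _ => h3 F).trans ?_
  rw [Ex_mul_left, Ex_mul_left, Ex_sum]
  have h9 : ∑ q ∈ G, Ex (fun _ => (1/2:ℝ)) D.edges (fun F => (Y q F) ^ 2) ≤
      (G.card : ℝ) * (8 * M) := by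
    rw [← nsmul_eq_mul]
    refine sum_le_card_nsmul _ _ _ fun q _ => ?_
    rw [hY]
    exact sq_fam hf (hM D a _ _ hH.a1)
  have hM0 : 0 ≤ 8 * M := by
    have := hM D 1 0 0 le_rfl
    have h10 := Ex_nonneg (p := fun _ : Edg => (1/2:ℝ)) (S := D.edges) two_ok
      (f := fun F => Real.exp (Yb (1/4) (xs D) 1 0 0 F / 2)) (fun F _ => (Real.exp_pos _).le)
    linarith
  calc (a : ℝ) ^ (7/2 : ℝ) * ((G.card : ℝ) * ∑ q ∈ G, Ex (fun _ => (1/2:ℝ)) D.edges
        (fun F => (Y q F) ^ 2)) ≤ (a : ℝ) ^ (7/2 : ℝ) * ((G.card : ℝ) * ((G.card : ℝ) * (8 * M))) := by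
        refine mul_le_mul_of_nonneg_left (mul_le_mul_of_nonneg_left h9 (Nat.cast_nonneg _))
          (by positivity)
    _ = _ := by rw [hGc]; ring

end TH992.L
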