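import Pool.Agent.TH992.L.ChainPr
import Pool.Agent.H984R4.HN.TailUp
import Pool.Agent.H984R4.HN.Mom

/-!
The upper tail of the distance: `exp (- a x ^ (7/3))`.
-/

set_option autoImplicit false

namespace TH992.L

open H974 Finset H342P H984P H984H MeasureTheory

/-- The upper tail. -/
theorem up_tail {c C : ℝ} (hc : 0 < c) (hC : 0 < C) (hL : LowA c (1/4)) (hU : TwoUp C (1/4)) :
    ∃ a A : ℝ, 0 < a ∧ 0 < A ∧ ∀ (n : ℕ) (x : ℝ), 1 ≤ n → 0 < x →
      perc.real {ω | x * (n : ℝ) ^ (4/7 : ℝ) ≤ reach n ω} ≤ A * Real.exp (-(a * x ^ (7/3 : ℝ))) := by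
  obtain ⟨Γ, n0, c', hΓ, hc', H⟩ := bad_pr hc hC hL hU (η := (1/36) ^ 98) (by positivity)
  obtain ⟨B0, hB0⟩ : ∃ B0 : ℝ, B0 = max (392 * Γ / c') 4 := ⟨_, rfl⟩
  have hB1 : 392 * Γ / c' ≤ B0 := by rw [hB0]; exact le_max_left _ _
  have hB4 : 4 ≤ B0 := by rw [hB0]; exact le_max_right _ _
  have hΓr : (1:ℝ) ≤ Γ := by exact_mod_cast hΓ
  obtain ⟨C5, hC5⟩ : ∃ C5 : ℝ, C5 = 14 * Γ * B0 ^ (4/3 : ℝ) := ⟨_, rfl⟩
  have hBp : 1 ≤ B0 ^ (4/3 : ℝ) := Real.one_le_rpow (by linarith) (by norm_num)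
  have hC14 : 14 ≤ C5 := by
    rw [hC5]
    nlinarith
  have hlog : 0 < Real.log 2 := Real.log_pos (by norm_num)
  obtain ⟨a0, ha0⟩ : ∃ a0 : ℝ, a0 = Real.log 2 / C5 := ⟨_, rfl⟩
  have ha0p : 0 < a0 := by rw [ha0]; positivity
  refine ⟨a0, Real.exp (a0 * (2 * C5)), ha0p, Real.exp_pos _, ?_⟩
  intro n x hn hx
  have hE : 0 < Real.exp (-(a0 * x ^ (7/3 : ℝ))) := Real.exp_pos _
  rcases lt_or_ge (x ^ (7/3 : ℝ)) (2 * C5) with hxs | hxl
  · -- small `x`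
    have h1 : perc.real {ω | x * (n : ℝ) ^ (4/7 : ℝ) ≤ reach n ω} ≤ 1 := measureReal_le_one
    refine h1.trans ?_
    rw [← Real.exp_add]
    apply Real.one_le_exp
    have := mul_le_mul_of_nonneg_left hxs.le ha0p.le
    linarith
  -- large `x`
  have hx2 : 2 ≤ x := by
    by_contra hcon
    push Not at hcon
    have h1 : x ^ (7/3 : ℝ) ≤ (2:ℝ) ^ (7/3 : ℝ) :=
      Real.rpow_le_rpow hx.le hcon.le (by norm_num)
    have h2 : (2:ℝ) ^ (7/3 : ℝ) ≤ (2:ℝ) ^ (3 : ℝ) :=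
      Real.rpow_le_rpow_of_exponent_le (by norm_num) (by norm_num)
    have h3 : (2:ℝ) ^ (3 : ℝ) = 8 := by
      rw [show (3:ℝ) = ((3:ℕ):ℝ) by norm_num, Real.rpow_natCast]
      norm_num
    linarith
  have hn1 : (1:ℝ) ≤ n := by exact_mod_cast hn
  have hn0 : (0:ℝ) < n := by linarith
  have hnp : (1:ℝ) ≤ (n : ℝ) ^ (4/7 : ℝ) := Real.one_le_rpow hn1 (by norm_num)
  obtain ⟨R, hR⟩ : ∃ R : ℝ, R = x * (n : ℝ) ^ (4/7 : ℝ) := ⟨_, rfl⟩
  rw [← hR]
  have hxR : x ≤ R := by rw [hR]; nlinarith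
  have hR0 : 0 < R := by linarith
  obtain ⟨t, ht⟩ : ∃ t : ℝ, t = B0 * n / R := ⟨_, rfl⟩
  have ht0 : 0 < t := by rw [ht]; positivity
  have hA1 : 1 ≤ Real.exp (a0 * (2 * C5)) := Real.one_le_exp (by positivity)
  rcases lt_or_ge t 1 with ht1 | ht1
  · -- impossible
    rw [ht, div_lt_one hR0] at ht1
    have hempty : {ω | R ≤ reach n ω} = ∅ := by
      ext ω
      simp only [Set.mem_ofPred_eq, Set.mem_empty_iff_false, iff_false, not_le]
      have h1 := reach_le n ω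
      nlinarith
    rw [hempty]
    simp only [measureReal_empty]
    positivity
  obtain ⟨u, hu⟩ : ∃ u : ℝ, u = t ^ (4/3 : ℝ) := ⟨_, rfl⟩
  have hu1 : 1 ≤ u := by rw [hu]; exact Real.one_le_rpow ht1 (by norm_num)
  have hut : u ^ (3/4 : ℝ) = t := by
    rw [hu, ← Real.rpow_mul ht0.le]
    norm_num
  obtain ⟨a, ha⟩ : ∃ a : ℕ, a = ⌈u⌉₊ + 5 := ⟨_, rfl⟩
  have ha5 : 5 ≤ a := by omega
  have hau : u ≤ a := by
    rw [ha]; push_cast
    have := Nat.le_ceil u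
    linarith
  have hau7 : (a:ℝ) ≤ 7 * u := by
    rw [ha]; push_cast
    have := Nat.ceil_lt_add_one (show 0 ≤ u by linarith)
    linarith
  have ha0' : (0:ℝ) < a := by linarith
  obtain ⟨Rb, L, w, W, hpar, hWa, hbad⟩ := H a ha5
  obtain ⟨M, hM⟩ : ∃ M : ℕ, M = ⌈c' * (a:ℝ) ^ (7/4 : ℝ)⌉₊ := ⟨_, rfl⟩
  rw [← hM] at hbad
  have hMge : c' * (a:ℝ) ^ (7/4 : ℝ) ≤ M := by rw [hM]; exact Nat.le_ceil _
  obtain ⟨k, hk⟩ : ∃ k : ℕ, k = ⌊R / (2 * Γ * a)⌋₊ := ⟨_, rfl⟩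
  have hk1 : (k:ℝ) ≤ R / (2 * Γ * a) := by rw [hk]; exact Nat.floor_le (by positivity)
  have hk2 : R / (2 * Γ * a) < k + 1 := by rw [hk]; exact Nat.lt_floor_add_one _
  -- lower bound for `k`
  have hkey : x ^ (7/3 : ℝ) / C5 ≤ R / (2 * Γ * a) := by
    have e1 : x ^ (7/3 : ℝ) / C5 = R / (2 * Γ * (7 * u)) := by
      have e2 : u = B0 ^ (4/3 : ℝ) * n ^ (4/3 : ℝ) / R ^ (4/3 : ℝ) := by
        rw [hu, ht, Real.div_rpow (by positivity) hR0.le, Real.mul_rpow (by linarith) hn0.le]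
      have e3 : R ^ (4/3 : ℝ) = x ^ (4/3 : ℝ) * (n:ℝ) ^ (16/21 : ℝ) := by
        rw [hR, Real.mul_rpow hx.le (by positivity), ← Real.rpow_mul hn0.le]
        norm_num
      have e4 : x ^ (7/3 : ℝ) = x * x ^ (4/3 : ℝ) := by
        rw [show (7/3 : ℝ) = 1 + 4/3 by norm_num, Real.rpow_add hx, Real.rpow_one]
      have e5 : (n:ℝ) ^ (4/3 : ℝ) = (n:ℝ) ^ (4/7 : ℝ) * (n:ℝ) ^ (16/21 : ℝ) := by
        rw [← Real.rpow_add hn0]
        norm_num
      rw [e2, e3, e4, e5, hC5, hR]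
      have f1 : 0 < x ^ (4/3 : ℝ) := by positivity
      have f2 : 0 < (n:ℝ) ^ (16/21 : ℝ) := by positivity
      have f3 : 0 < (n:ℝ) ^ (4/7 : ℝ) := by positivity
      have f4 : 0 < B0 ^ (4/3 : ℝ) := by positivity
      field_simp
      ring
    rw [e1]
    exact div_le_div_of_nonneg_left hR0.le (by positivity) (by nlinarith)
  have hk2' : 2 ≤ k := by
    rw [hk]
    apply Nat.le_floor
    push_cast
    refine le_trans ?_ hkey
    rw [le_div_iff₀ (by linarith)]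
    exact hxl
  -- the time
  have htime : 98 * (n + 1) < (k + 1) * M := by
    have h1 : (196:ℝ) * n < (k + 1) * M := by
      have h2 : (a:ℝ) ^ (7/4 : ℝ) = a * (a:ℝ) ^ (3/4 : ℝ) := by
        rw [show (7/4 : ℝ) = 1 + 3/4 by norm_num, Real.rpow_add ha0', Real.rpow_one]
      have h3 : t ≤ (a:ℝ) ^ (3/4 : ℝ) := by
        rw [← hut]
        exact Real.rpow_le_rpow (by linarith) hau (by norm_num)
      have h4 : (392 * Γ / c') * n / R ≤ t := by
        rw [ht]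
        gcongr
      have h5 : 0 < M := by
        have : (0:ℝ) < M := lt_of_lt_of_le (by positivity) hMge
        exact_mod_cast this
      have h5' : (0:ℝ) < M := by exact_mod_cast h5
      calc (196:ℝ) * n = R / (2 * Γ * a) * (c' * (a * ((392 * Γ / c') * n / R))) := by
            field_simp
            ring
        _ ≤ R / (2 * Γ * a) * (c' * (a * (a:ℝ) ^ (3/4 : ℝ))) := by
            gcongr
            exact h4.trans h3
        _ ≤ R / (2 * Γ * a) * M := by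
            rw [← h2]
            gcongr
        _ < (k + 1) * M := by
            gcongr
    have h2 : ((98 * (n + 1) : ℕ) : ℝ) < (((k + 1) * M : ℕ) : ℝ) := by
      push_cast
      linarith
    exact_mod_cast h2
  -- the event
  have hsub : {ω | R ≤ reach n ω} ⊆ {ω | ¬ Stay (k * W) n ω} := by
    intro ω hω hS
    have h1 : 2 * (((k * W : ℤ)) : ℝ) ≤ R := by
      rw [hWa]
      push_cast
      have h2 := mul_le_mul_of_nonneg_right hk1 (show (0:ℝ) ≤ 2 * Γ * a by positivity)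
      rw [div_mul_cancel₀ _ (by positivity)] at h2
      linarith
    have h2 := TailUp_reach hS h1
    exact absurd (lt_of_lt_of_le h2 hω) (lt_irrefl _)
  refine (measureReal_mono hsub).trans ((chain_pr hpar hbad hk2' htime).trans ?_)
  have h3 : ((1/2 : ℝ)) ^ (k + 1) = Real.exp (-(((k + 1 : ℕ) : ℝ) * Real.log 2)) := by
    rw [Real.exp_neg, Real.exp_nat_mul, Real.exp_log (by norm_num), one_div, inv_pow]
  rw [h3]
  refine le_trans ?_ (le_mul_of_one_le_left hE.le hA1)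
  apply Real.exp_le_exp.mpr
  have h4 : a0 * x ^ (7/3 : ℝ) = (x ^ (7/3 : ℝ) / C5) * Real.log 2 := by
    rw [ha0]; ring
  rw [h4]
  push_cast
  have h5 := mul_le_mul_of_nonneg_right (hkey.trans hk2.le) hlog.le
  linarith

end TH992.L
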