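import Pool.Agent.TH992.L.Dom

/-!
Walls: the path stays between an open crossing which stands on the negative half-axis and a closed
dual crossing which stands on the positive half-axis.
-/

set_option autoImplicit false

namespace TH992.L

open H974 Finset H342P H984P H984H MeasureTheory

/-- horizontal part of a dual path -/
theorem dual_sub {G : Set Edg} {p q c d : ℤ} (hpq : p < q)
    (h1 : ∀ x y : ℤ, ((x + 1, y, false) : Edg) ∈ G → p ≤ x → x < q → c ≤ y ∧ y ≤ d)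
    (h2 : ∀ x y : ℤ, ((x, y + 1, true) : Edg) ∈ G → p < x → x < q → c ≤ y ∧ y < d) {f g : Vtx}
    (h : DReach G f g) (hf : f.1 ≤ p) (hg : q ≤ g.1) :
    ∃ y1 y2 : ℤ, (c ≤ y1 ∧ y1 ≤ d) ∧ (c ≤ y2 ∧ y2 ≤ d) ∧
      DReach (G ∩ ↑(TBE (p + 1) q c (d + 1))) (p, y1) (q, y2) := by
  have mm : ∀ e : Edg, e ∈ dl '' G ↔ dl.symm e ∈ G := by
    intro e
    constructor
    · rintro ⟨e', h', rfl⟩
      simpa using h'
    · intro h'
      exact ⟨dl.symm e, h', by simp⟩
  obtain ⟨y1, y2, g1, g2, g3, -⟩ := sub_LR (G := dl '' G) (a := p) (b := q) (c := c) (d := d) hpq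
    (fun x y h' h3 h4 => h1 x y (by rw [mm] at h'; simpa using h') h3 h4)
    (fun x y h' h3 h4 => h2 x y (by rw [mm] at h'; simpa using h') h3 h4)
    (reach_dl.mpr h) hf hg
  refine ⟨y1, y2, g1, g2, ?_⟩
  rw [← reach_dl]
  refine g3.mono ?_
  rintro e ⟨h3, h4⟩
  rw [mm] at h3
  refine ⟨dl.symm e, ⟨h3, ?_⟩, by simp⟩
  obtain ⟨x, y, _ | _⟩ := e
  · rw [dls_f]
    simp only [mem_coe, mem_LRE_false, mem_TBE_true] at h4 ⊢
    omega
  · rw [dls_t]
    simp only [mem_coe, mem_LRE_true, mem_TBE_false] at h4 ⊢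
    omega

/-- the left wall -/
def WL (b h : ℤ) (F : Finset Edg) : Prop := TBc (-(2 * b)) (-b) 0 h F

/-- the right wall -/
def WR (b h : ℤ) (S F : Finset Edg) : Prop := TBc b (2 * b) 0 (h - 1) (dmp (S \ F))

/-- `F` shows the states of the edges of `S` -/
structure Shw (ω : Conf) (S F : Finset Edg) : Prop where
  op : ∀ e ∈ F, ω e = true
  cl : ∀ e ∈ S, e ∉ F → ω e = false

theorem wl_fl {ω : Conf} {ρ b h : ℤ} (hρ : 2 * b + 2 ≤ ρ) (hb : 1 ≤ b) {S F : Finset Edg}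
    (hS : Shw ω S F) (hW : WL b h F) : TBc (-(2 * b)) (-b) 0 h (fl ω ρ h) := by
  obtain ⟨x, x', h1, h2, h3⟩ := hW
  refine ⟨x, x', h1, h2, h3.mono ?_⟩
  rintro e ⟨he1, he2⟩
  refine ⟨?_, he2⟩
  rw [mem_coe, mem_fl]
  refine ⟨?_, hS.op e he1, ?_⟩
  · obtain ⟨x, y, _ | _⟩ := e
    · simp only [mem_coe, mem_TBE_false, mem_RE_false] at he2 ⊢; omega
    · simp only [mem_coe, mem_TBE_true, mem_RE_true] at he2 ⊢; omega
  · rintro ⟨h4, h5⟩
    obtain ⟨x, y, _ | _⟩ := e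
    · simp at h4
    · simp only [mem_coe, mem_TBE_true] at he2 h5; omega

theorem conf_left {ω : Conf} {ρ b h : ℤ} (hρ : 2 * b + 2 ≤ ρ) (hb : 1 ≤ b) (hh : 2 ≤ h)
    (hW : TBc (-(2 * b)) (-b) 0 h (fl ω ρ h)) {σ : St}
    (hv : (dm ρ h 0).Vis (fl ω ρ h) σ) : -(2 * b) ≤ σ.1.1 := by
  by_contra hcon
  push Not at hcon
  have hok := dm_ok (ρ := ρ) (h := h) (t := 0) (by omega) (by omega) (by omega) (by omega)
  obtain ⟨k, hk, hkσ⟩ := hv
  obtain ⟨-, h2⟩ := walk_clu hok (fl_sub ω ρ h 0) hk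
  rw [hkσ] at h2
  obtain ⟨g, hg, hr⟩ := h2
  have hf := arms_face σ
  have hg0 : 0 ≤ g.1 := by
    rcases hg with hg | hg | hg
    · exact hg.2.1
    · have := hg.1; simp only [dm] at this; omega
    · have := hg.2.1; simp only [dm] at this; omega
  obtain ⟨y1, y2, g1, g2, g3⟩ := dual_sub (p := -(2 * b) - 1) (q := -b) (c := 0) (d := h - 1)
    (by omega) (fun x y h' _ _ => by
      have h3 : ((x + 1, y, false) : Edg) ∈ RE (-ρ) ρ 0 h := h'.1
      rw [mem_RE_false] at h3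
      omega)
    (fun x y h' h4 h5 => by
      have h3 : ((x, y + 1, true) : Edg) ∈ RE (-ρ) ρ 0 h := h'.1
      have h6 := h'.2
      rw [cfg_iff] at h6
      rw [mem_RE_true] at h3
      simp only [Bool.true_eq_false, false_and, false_or, true_and, not_or] at h6
      omega) hr.symm (by omega) (by omega)
  obtain ⟨x, x', h3, h4, h5⟩ := hW
  refine no_both_TB (F := (dm ρ h 0).cfg (fl ω ρ h)) (a := -(2 * b)) (b := -b) (c := 0) (d := h)
    (by omega) h4 (y := y1) (y' := y2) (by omega) (h5.mono ?_) (DReach.mono ?_ g3)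
  · rintro e ⟨he1, he2⟩
    refine ⟨?_, he2⟩
    rw [cfg_iff]
    left
    refine ⟨mem_fl.mp he1, ?_⟩
    rintro ⟨h6, h7, h8⟩
    obtain ⟨x, y, _ | _⟩ := e
    · simp at h6
    · simp only [mem_coe, mem_TBE_true] at he2 h7; omega
  · rintro e ⟨he1, he2⟩
    refine ⟨he1.2, ?_⟩
    rw [show -(2 * b) - 1 + 1 = -(2 * b) by ring, show h - 1 + 1 = h by ring] at he2
    exact he2

/-- the dual wall in the complement of the configuration -/
theorem wr_cfg {ω : Conf} {ρ b h t : ℤ} (hb : 1 ≤ b) (hh : 2 ≤ h) (hρ : 2 * b + 2 ≤ ρ)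
    {S F : Finset Edg} (hS : Shw ω S F) (hW : WR b h S F) :
    ∃ x x' : ℤ, (b ≤ x ∧ x ≤ 2 * b) ∧ (b ≤ x' ∧ x' ≤ 2 * b) ∧
      DReach ({e | e ∈ (dm ρ h t).edges ∧ e ∉ (dm ρ h t).cfg (fl ω ρ h)} ∩
        ↑(LRE b (2 * b + 1) 0 h)) (x, 0) (x', h - 1) := by
  obtain ⟨x, x', h1, h2, h3⟩ := hW
  refine ⟨x, x', h1, h2, ?_⟩
  rw [← reach_dl]
  refine h3.mono ?_
  rintro e ⟨he1, he2⟩
  rw [mem_coe, mem_dmp, mem_sdiff] at he1
  have hcl := hS.cl _ he1.1 he1.2
  refine ⟨dl.symm e, ⟨⟨?_, ?_⟩, ?_⟩, by simp⟩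
  · obtain ⟨x, y, _ | _⟩ := e
    · show dl.symm (x, y, false) ∈ RE (-ρ) ρ 0 h
      rw [dls_f]
      simp only [mem_coe, mem_TBE_false, mem_RE_true] at he2 ⊢
      omega
    · show dl.symm (x, y, true) ∈ RE (-ρ) ρ 0 h
      rw [dls_t]
      simp only [mem_coe, mem_TBE_true, mem_RE_false] at he2 ⊢
      omega
  · rw [cfg_iff]
    rintro (⟨⟨-, h5, -⟩, -⟩ | h5 | h5 | h5)
    · rw [hcl] at h5; exact absurd h5 (by decide)
    · obtain ⟨x, y, _ | _⟩ := e
      · rw [dls_f] at h5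
        simp only [mem_coe, mem_TBE_false] at he2 h5
        omega
      · rw [dls_t] at h5
        simp at h5
    · obtain ⟨x, y, _ | _⟩ := e
      · rw [dls_f] at h5
        simp at h5
      · rw [dls_t] at h5
        simp only [mem_coe, mem_TBE_true] at he2 h5
        omega
    · obtain ⟨x, y, _ | _⟩ := e
      · rw [dls_f] at h5
        simp only [mem_coe, mem_TBE_false] at he2 h5
        omega
      · rw [dls_t] at h5
        simp at h5
  · obtain ⟨x, y, _ | _⟩ := e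
    · rw [dls_f]
      simp only [mem_coe, mem_TBE_false, mem_LRE_true] at he2 ⊢
      omega
    · rw [dls_t]
      simp only [mem_coe, mem_TBE_true, mem_LRE_false] at he2 ⊢
      omega

theorem conf_right {ω : Conf} {ρ b h : ℤ} (hρ : 2 * b + 2 ≤ ρ) (hb : 1 ≤ b) (hh : 2 ≤ h)
    {S F : Finset Edg} (hS : Shw ω S F) (hW : WR b h S F) {σ : St}
    (hv : (dm ρ h 0).Vis (fl ω ρ h) σ) : σ.1.1 ≤ 2 * b := by
  by_contra hcon
  push Not at hcon
  have hok := dm_ok (ρ := ρ) (h := h) (t := 0) (by omega) (by omega) (by omega) (by omega)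
  obtain ⟨k, hk, hkσ⟩ := hv
  obtain ⟨h2, -⟩ := walk_clu hok (fl_sub ω ρ h 0) hk
  rw [hkσ] at h2
  have h2' : Reach ((dm ρ h 0).cfg (fl ω ρ h)) (0, 0) σ.1 := h2
  obtain ⟨y1, y2, g1, g2, g3, -⟩ := sub_LR (G := (dm ρ h 0).cfg (fl ω ρ h)) (a := b)
    (b := 2 * b + 1) (c := 0) (d := h) (by omega)
    (fun x y h' _ _ => by
      rw [cfg_iff, mem_RE_true] at h'
      simp only [Bool.true_eq_false, false_and, false_or, true_and] at h'
      rcases h' with ⟨⟨h', -⟩, -⟩ | h' <;> omega)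
    (fun x y h' _ _ => by
      rw [cfg_iff, mem_RE_false] at h'
      simp only [Bool.false_eq_true, false_and, false_or, or_false, true_and] at h'
      rcases h' with ⟨⟨h', -⟩, -⟩ | h' <;> omega) h2' (by simp only; omega) (by omega)
  obtain ⟨x, x', h3, h4, h5⟩ := wr_cfg (t := 0) hb hh hρ hS hW
  refine no_both (F := (dm ρ h 0).cfg (fl ω ρ h)) (a := b) (b := 2 * b + 1) (c := 0) (d := h)
    (by omega) g2 (x := x) (x' := x') (by omega) g3 ?_
  have e1 : DReach (((dm ρ h 0).cfg (fl ω ρ h))ᶜ ∩ ↑(LRE b (2 * b + 1) 0 h)) (x, 0) (x', h - 1) :=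
    h5.mono (by rintro e ⟨⟨-, h6⟩, h7⟩; exact ⟨h6, h7⟩)
  have e2 : DReach (((dm ρ h 0).cfg (fl ω ρ h))ᶜ ∩ ↑(LRE b (2 * b + 1) 0 h)) (x, 0 - 1) (x, 0) := by
    refine DAdj.reach ⟨(x, 0, true), ⟨?_, ?_⟩, Or.inl ⟨rfl, rfl⟩⟩
    · rw [Set.mem_compl_iff, cfg_iff]
      simp only [Bool.true_eq_false, false_and, false_or, true_and]
      rintro (⟨-, h6⟩ | h6) <;> omega
    · simp only [mem_coe, mem_LRE_true]; omega
  have e3 : DReach (((dm ρ h 0).cfg (fl ω ρ h))ᶜ ∩ ↑(LRE b (2 * b + 1) 0 h)) (x', h - 1)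
      (x', h) := by
    refine DAdj.reach ⟨(x', h, true), ⟨?_, ?_⟩, Or.inl ⟨rfl, rfl⟩⟩
    · rw [Set.mem_compl_iff, cfg_iff]
      simp only [Bool.true_eq_false, false_and, false_or, true_and]
      rintro (⟨⟨-, -, h6⟩, -⟩ | h6)
      · exact h6 trivial
      · omega
    · simp only [mem_coe, mem_LRE_true]; omega
  exact e2.trans (e1.trans e3)

/-- Between the walls the path goes to the row `h`. -/
theorem walls {ω : Conf} {b h : ℤ} (hb : 1 ≤ b) (hh : 2 ≤ h)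
    {S F : Finset Edg} (hS : Shw ω S F) (hL : WL b h F) (hR : WR b h S F) :
    ∃ T : ℕ, (path ω T).1.2 = h ∧ (∀ j < T, (path ω j).1.2 < h) ∧
      ∀ j ≤ T, |(path ω j).1.1| ≤ 2 * b := by
  classical
  have hL' := wl_fl (ρ := 2 * b + 2) le_rfl hb hS hL
  have key : ∀ k, (∀ j < k, |(path ω j).1.1| < 2 * b + 2 ∧ (path ω j).1.2 < h) →
      |(path ω k).1.1| ≤ 2 * b := by
    intro k hk
    have hv := vis_path (ρ := 2 * b + 2) (h := h) (t := 0) (by omega) (by omega) (by omega)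
      (by omega) ω hk
    rw [abs_le]
    exact ⟨conf_left le_rfl hb hh hL' hv, conf_right le_rfl hb hh hS hR hv⟩
  have hex : ∃ T, h ≤ (path ω T).1.2 := by
    by_contra hcon
    push Not at hcon
    have hall : ∀ k, |(path ω k).1.1| ≤ 2 * b := by
      intro k
      induction k using Nat.strong_induction_on with
      | _ k ih =>
        exact key k fun j hj => ⟨by have := ih j hj; omega, hcon j⟩
    have hmem : ∀ k, path ω k ∈ ((Finset.Icc (-(2 * b)) (2 * b) ×ˢ Finset.Icc 0 h) ×ˢ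
        (Finset.univ : Finset Q4)) := by
      intro k
      have h1 := abs_le.mp (hall k)
      have h2 := path_nonneg ω k
      have h3 := hcon k
      simp only [Finset.mem_product, Finset.mem_Icc, Finset.mem_univ, and_true]
      omega
    obtain ⟨i, j, hij, he⟩ := Finite.exists_ne_map_eq_of_infinite
      (fun k : ℕ => (⟨path ω k, hmem k⟩ : ((Finset.Icc (-(2 * b)) (2 * b) ×ˢ Finset.Icc 0 h) ×ˢ
        (Finset.univ : Finset Q4) : Finset St)))
    exact path_inj ω hij (congrArg Subtype.val he)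
  obtain ⟨T, hT⟩ : ∃ T, T = Nat.find hex := ⟨_, rfl⟩
  have h1 : h ≤ (path ω T).1.2 := by rw [hT]; exact Nat.find_spec hex
  have h2 : ∀ j < T, (path ω j).1.2 < h := by
    intro j hj
    rw [hT] at hj
    exact not_le.mp (Nat.find_min hex hj)
  have h3 : ∀ j ≤ T, |(path ω j).1.1| ≤ 2 * b := by
    intro j
    induction j using Nat.strong_induction_on with
    | _ j ih =>
      intro hj
      exact key j fun i hi => ⟨by have := ih i hi (by omega); omega, h2 i (by omega)⟩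
  refine ⟨T, ?_, h2, h3⟩
  have hT0 : T ≠ 0 := by
    intro h0
    rw [h0] at h1
    simp only [path] at h1
    omega
  obtain ⟨m, hm⟩ : ∃ m, T = m + 1 := ⟨T - 1, by omega⟩
  have h4 := h2 m (by omega)
  have h5 := path_step ω m
  rw [← hm] at h5
  have h6 : |(path ω m).1.2 - (path ω T).1.2| ≤ 1 := (le_max_right _ _).trans h5
  rw [abs_le] at h6
  omega

end TH992.L
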